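import Pool.Agent.Lib.MP_d0e829_nt.SI.Spec

/-!
# MP_d0e829_nt, SI, DET: the integral equation (helper94)
-/

set_option autoImplicit false

open NumberField MvPolynomial
open Pool.Agent.Lib.MP_d0e829_nt.SS

namespace Pool.Agent.Lib.MP_d0e829_nt.SI

open scoped Classical

namespace DETM

variable {F : Type} [Field F]

lemma lin_hom (c : Fin 3 → F) : (lin c : MvPolynomial (Fin 3) F).IsHomogeneous 1 := by
  unfold lin
  refine IsHomogeneous.sum _ _ _ fun j _ => ?_
  have h := (isHomogeneous_C (Fin 3) (c j)).mul (isHomogeneous_X F j)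
  simpa using h

/-- the coefficient of `X_none ^ D` of a form of degree `D` -/
lemma coeff_none {κ : Type} [Fintype κ] (P : MvPolynomial (Option κ) F) (D : ℕ)
    (hP : P.IsHomogeneous D) :
    P.coeff (Finsupp.single none D) = eval (fun o : Option κ => o.elim 1 fun _ => 0) P := by
  rw [eval_eq']
  by_cases h0 : P.coeff (Finsupp.single none D) = 0
  · rw [h0]
    refine (Finset.sum_eq_zero fun d hd => ?_).symm
    by_cases hs : ∃ j : κ, d (some j) ≠ 0
    · obtain ⟨j, hj⟩ := hs
      rw [Finset.prod_eq_zero (Finset.mem_univ (some j)) (by simp [hj]), mul_zero]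
    · exfalso
      push Not at hs
      have hdeg : d.degree = D := by
        by_contra hne
        exact (mem_support_iff.1 hd) (hP.coeff_eq_zero hne)
      have hd' : d = Finsupp.single none D := by
        ext o
        cases o with
        | none =>
          rw [Finsupp.single_eq_same]
          rw [← hdeg, Finsupp.degree_eq_sum, Fintype.sum_option]
          simp [hs]
        | some j => rw [hs j]; simp
      rw [hd'] at hd
      exact (mem_support_iff.1 hd) h0
  · rw [Finset.sum_eq_single (Finsupp.single none D)]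
    · rw [Fintype.prod_option]
      simp
    · intro d hd hne
      by_cases hs : ∃ j : κ, d (some j) ≠ 0
      · obtain ⟨j, hj⟩ := hs
        rw [Finset.prod_eq_zero (Finset.mem_univ (some j)) (by simp [hj]), mul_zero]
      · exfalso
        push Not at hs
        have hdeg : d.degree = D := by
          by_contra hne
          exact (mem_support_iff.1 hd) (hP.coeff_eq_zero hne)
        apply hne
        ext o
        cases o with
        | none =>
          rw [Finsupp.single_eq_same]
          rw [← hdeg, Finsupp.degree_eq_sum, Fintype.sum_option]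
          simp [hs]
        | some j => rw [hs j]; simp
    · intro hns
      rw [notMem_support_iff] at hns
      exact absurd hns h0

/-- the generic matrix -/
noncomputable def NN {κ : Type} [Fintype κ] {D : ℕ} (c : κ → Fin D → Fin D → F) :
    Matrix (Fin D) (Fin D) (MvPolynomial (Option κ) F) := fun a b =>
  (if a = b then X none else 0) - ∑ j, X (some j) * C (c j a b)

lemma NN_entry {κ : Type} [Fintype κ] {D : ℕ} (c : κ → Fin D → Fin D → F) (a b : Fin D) :
    (NN c a b).IsHomogeneous 1 := by
  unfold NN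
  refine IsHomogeneous.sub ?_ ?_
  · split_ifs
    · exact isHomogeneous_X F none
    · exact isHomogeneous_zero _ _ _
  · refine IsHomogeneous.sum _ _ _ fun j _ => ?_
    have h := (isHomogeneous_X F (some j)).mul (isHomogeneous_C (Option κ) (c j a b))
    simpa using h

lemma NN_det {κ : Type} [Fintype κ] {D : ℕ} (c : κ → Fin D → Fin D → F) :
    (NN c).det.IsHomogeneous D := by
  rw [Matrix.det_apply']
  refine IsHomogeneous.sum _ _ _ fun σ _ => ?_
  have h1 := IsHomogeneous.prod Finset.univ (fun i => NN c (σ i) i) (fun _ => 1)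
    (fun i _ => NN_entry c (σ i) i)
  have h2 : (((Equiv.Perm.sign σ : ℤˣ) : ℤ) : MvPolynomial (Option κ) F).IsHomogeneous 0 := by
    have h := isHomogeneous_C (Option κ) ((((Equiv.Perm.sign σ : ℤˣ) : ℤ) : F))
    simpa using h
  have h3 := h2.mul h1
  simpa using h3

/-- the substitution -/
lemma NN_map {κ : Type} [Fintype κ] {D : ℕ} (c : κ → Fin D → Fin D → F) {A : Type} [CommRing A]
    [Algebra F A] (h : A) (g : κ → A) :
    aeval (fun o : Option κ => o.elim h g) (NN c).det =
      Matrix.det (fun a b : Fin D => (if a = b then h else 0) - ∑ j, g j * algebraMap F A (c j a b) :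
        Matrix (Fin D) (Fin D) A) := by
  rw [AlgHom.map_det]
  congr 1
  ext a b
  simp only [AlgHom.mapMatrix_apply, Matrix.map_apply, NN, map_sub, map_sum, map_mul, aeval_X,
    Option.elim_some, ← algebraMap_eq, AlgHom.commutes]
  congr 1
  split_ifs <;> simp

/-- the embedding of the `t`-th group of variables -/
noncomputable def ph (F : Type) [Field F] (n : ℕ) (t : Fin n) :
    MvPolynomial (Fin 3) F →ₐ[F] MvPolynomial (Fin n × Fin 3) F := rename fun c => (t, c)

lemma Wm_le (n m : ℕ) : Wm (ph F n) m ≤ homogeneousSubmodule (Fin n × Fin 3) F (n * m) := by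
  refine Submodule.span_le.2 ?_
  rintro _ ⟨p, hp, rfl⟩
  show (∏ t, ph F n t (p t)).IsHomogeneous (n * m)
  have h := IsHomogeneous.prod Finset.univ (fun t => ph F n t (p t)) (fun _ => m)
    (fun t _ => (hp t).rename_isHomogeneous)
  simpa using h

lemma fin_dim (n m : ℕ) : FiniteDimensional F (Wm (ph F n) m) := by
  have h : FiniteDimensional F (homogeneousSubmodule (Fin n × Fin 3) F (n * m)) :=
    Module.Finite.iff_fg.2 (homogeneousSubmodule_fg (Fin n × Fin 3) F (n * m))
  exact Submodule.finiteDimensional_of_le (Wm_le n m)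

lemma nonzero (n m : ℕ) : ∃ z ∈ Wm (ph F n) m, z ≠ 0 := by
  refine ⟨∏ t, ph F n t (X 0 ^ m), Submodule.subset_span ⟨fun _ => X 0 ^ m, fun t => ?_, rfl⟩, ?_⟩
  · simpa using (isHomogeneous_X F (0 : Fin 3)).pow m
  · rw [Finset.prod_ne_zero_iff]
    intro t _
    simp only [ph, map_pow, rename_X]
    exact pow_ne_zero _ (X_ne_zero _)

lemma mul_mem {n : ℕ} (m : ℕ) (ξ : Fin 3 → F) (z : MvPolynomial (Fin n × Fin 3) F)
    (hz : z ∈ Wm (ph F n) m) : (∏ t, ph F n t (lin ξ)) * z ∈ Wm (ph F n) (m + 1) := by
  induction hz using Submodule.span_induction with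
  | mem x hx =>
    obtain ⟨p, hp, rfl⟩ := hx
    refine Submodule.subset_span ⟨fun t => p t * lin ξ, fun t => (hp t).mul (lin_hom ξ), ?_⟩
    rw [← Finset.prod_mul_distrib]
    exact Finset.prod_congr rfl fun t _ => by rw [map_mul]; ring
  | zero => simp
  | add x y _ _ hx hy => rw [mul_add]; exact Submodule.add_mem _ hx hy
  | smul a x _ hx => rw [mul_smul_comm]; exact Submodule.smul_mem _ _ hx

/-- evaluation at a point -/
noncomputable def th {n : ℕ} {L : Type} [Field L] [Algebra F L] (x : Fin n → Fin 3 → L) :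
    MvPolynomial (Fin n × Fin 3) F →ₐ[F] L := aeval fun tc => x tc.1 tc.2

lemma th_ph {n : ℕ} {L : Type} [Field L] [Algebra F L] (x : Fin n → Fin 3 → L) (c : Fin 3 → F) :
    th x (∏ t, ph F n t (lin c)) = ∏ t, evalForm c (x t) := by
  rw [map_prod]
  refine Finset.prod_congr rfl fun t _ => ?_
  simp only [th, ph, lin, map_sum, map_mul, rename_X, aeval_X, evalForm]
  refine Finset.sum_congr rfl fun j _ => ?_
  congr 1
  rw [← algebraMap_eq, AlgHom.commutes, AlgHom.commutes]

end DETM

open DETM

theorem specDET (hSEG : SpecSEG) : SpecDET := by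
  intro F _ n ℓ hGP ξ
  obtain ⟨m, hm⟩ : ∃ m : ℕ, 2 * n ≤ m + 2 := ⟨2 * n, by omega⟩
  have hfd := fin_dim (F := F) n m
  obtain ⟨z, hz, hz0⟩ := nonzero (F := F) n m
  have hnt : Nontrivial (Wm (ph F n) m) := ⟨⟨z, hz⟩, 0, fun h => hz0 (congrArg Subtype.val h)⟩
  obtain ⟨D, hD⟩ : ∃ D : ℕ, D = Module.finrank F (Wm (ph F n) m) := ⟨_, rfl⟩
  have hDpos : 0 < D := by rw [hD]; exact Module.finrank_pos
  obtain ⟨e⟩ : Nonempty (Module.Basis (Fin D) F (Wm (ph F n) m)) := by
    rw [hD]; exact ⟨Module.finBasis F _⟩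
  have hseg : ∀ a : Fin D, ∃ v : Fin (2 * n + 1) → MvPolynomial (Fin n × Fin 3) F,
      (∀ j, v j ∈ Wm (ph F n) m) ∧
      (∏ t, ph F n t (lin ξ)) * (e a : MvPolynomial (Fin n × Fin 3) F) =
        ∑ j, (∏ t, ph F n t (lin (ℓ j))) * v j := fun a =>
    hSEG F (Fin (2 * n + 1)) ℓ _ n (ph F n) Finset.univ (by simp)
      (fun i _ j _ l _ => hGP i j l) m hm _ (mul_mem m ξ _ (e a).2)
  choose v hv hv' using hseg
  obtain ⟨c, hc⟩ : ∃ c : Fin (2 * n + 1) → Fin D → Fin D → F,
      c = fun j a b => e.repr ⟨v a j, hv a j⟩ b := ⟨_, rfl⟩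
  have hvc : ∀ a j, v a j = ∑ b, C (c j a b) * (e b : MvPolynomial (Fin n × Fin 3) F) := by
    intro a j
    have h := congrArg (Subtype.val) (e.sum_repr ⟨v a j, hv a j⟩)
    simp only [Submodule.coe_sum, Submodule.coe_smul] at h
    rw [← h, hc]
    exact Finset.sum_congr rfl fun b _ => by rw [smul_eq_C_mul]
  refine ⟨D, (NN c).det, hDpos, NN_det c, ?_, ?_⟩
  · rw [coeff_none _ D (NN_det c)]
    have h := NN_map c (A := F) 1 (fun _ => 0)
    rw [aeval_eq_eval] at h
    rw [h]
    trans Matrix.det (1 : Matrix (Fin D) (Fin D) F)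
    · refine congrArg Matrix.det ?_
      ext a b
      simp [Matrix.one_apply]
    · exact Matrix.det_one
  · intro L _ _ x
    rw [NN_map c]
    have hdet : Matrix.det (fun a b : Fin D => (if a = b then (∏ t, ph F n t (lin ξ)) else 0) -
        ∑ j, (∏ t, ph F n t (lin (ℓ j))) * algebraMap F _ (c j a b) :
        Matrix (Fin D) (Fin D) (MvPolynomial (Fin n × Fin 3) F)) = 0 := by
      rw [← Matrix.exists_mulVec_eq_zero_iff]
      refine ⟨fun b => (e b : MvPolynomial (Fin n × Fin 3) F), ?_, ?_⟩
      · intro h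
        have h1 := congrFun h ⟨0, hDpos⟩
        exact e.ne_zero ⟨0, hDpos⟩ (Subtype.ext h1)
      · ext1 a
        simp only [Matrix.mulVec, dotProduct, sub_mul, Finset.sum_sub_distrib, ite_mul, zero_mul,
          Finset.sum_ite_eq, Finset.mem_univ, if_true, Pi.zero_apply]
        rw [hv' a, sub_eq_zero]
        rw [Finset.sum_congr rfl fun j _ => by rw [hvc a j, Finset.mul_sum]]
        rw [Finset.sum_comm]
        refine Finset.sum_congr rfl fun b _ => ?_
        rw [Finset.sum_mul]
        refine Finset.sum_congr rfl fun j _ => ?_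
        rw [algebraMap_eq]
        ring
    have h2 := congrArg (th x) hdet
    rw [map_zero, AlgHom.map_det] at h2
    refine Eq.trans (congrArg Matrix.det ?_) h2
    ext a b
    simp only [AlgHom.mapMatrix_apply, Matrix.map_apply, map_sub, map_sum, map_mul, th_ph,
      AlgHom.commutes]
    by_cases hab : a = b
    · simp only [hab, if_true, th_ph]
    · simp only [hab, if_false, map_zero]

end Pool.Agent.Lib.MP_d0e829_nt.SI
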