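import Pool.Agent.Lib.MP_d0e829_nt.SI.Spec

/-!
# UNI: the unit equation
-/

set_option autoImplicit false

open NumberField MvPolynomial
open Pool.Agent.Lib.MP_d0e829_nt.SS

namespace Pool.Agent.Lib.MP_d0e829_nt.SI

open scoped Classical

namespace UNIM

/-- finite unions of small sets are small -/
lemma small_iUnion {Ω : Type} {Sm : Set Ω → Prop} (hSm : SmSys Sm) {ι : Type*} (s : Finset ι)
    (F : ι → Set Ω) (h : ∀ i ∈ s, Sm (F i)) : Sm (⋃ i ∈ s, F i) := by
  induction s using Finset.induction_on with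
  | empty => simpa using hSm.1
  | insert a s ha ih =>
    rw [Finset.set_biUnion_insert]
    exact hSm.2.2 _ _ (h a (Finset.mem_insert_self a s))
      (ih fun i hi => h i (Finset.mem_insert_of_mem hi))

/-- the `N` forms: the coordinates and `∑ b_j Y_j`, without the one with the given index -/
noncomputable def LL {k : Type} [Field k] {N : ℕ} (b : Fin N → k) :
    Option (Fin N) → Matrix (Fin N) (Fin N) k
  | none => 1
  | some i => Matrix.updateRow 1 i b

/-- the `N + 1` values -/
noncomputable def YY {k : Type} [Field k] {N : ℕ} (b y : Fin N → k) : Option (Fin N) → k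
  | none => ∑ j, b j * y j
  | some i => y i

lemma LL_mulVec {k : Type} [Field k] {N : ℕ} (b y : Fin N → k) (i₀ i : Fin N) :
    (LL b (some i₀)).mulVec y i = if i = i₀ then YY b y none else y i := by
  by_cases h : i = i₀
  · subst h
    rw [if_pos rfl]
    simp only [LL, YY, Matrix.mulVec, Matrix.updateRow_self]
    rfl
  · rw [if_neg h]
    simp only [LL, Matrix.mulVec, Matrix.updateRow_ne h]
    have := congrFun (Matrix.one_mulVec y) i
    simpa only [Matrix.mulVec] using this

lemma LL_det {k : Type} [Field k] {N : ℕ} (b : Fin N → k) (hb : ∀ i, b i ≠ 0)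
    (o : Option (Fin N)) : (LL b o).det ≠ 0 := by
  cases o with
  | none => simp [LL]
  | some i₀ =>
    intro h
    obtain ⟨y, hy, h0⟩ := Matrix.exists_mulVec_eq_zero_iff.mpr h
    apply hy
    have h1 : ∀ i, i ≠ i₀ → y i = 0 := by
      intro i hi
      have := congrFun h0 i
      rwa [LL_mulVec, if_neg hi] at this
    have h2 := congrFun h0 i₀
    rw [LL_mulVec, if_pos rfl] at h2
    simp only [YY, Pi.zero_apply] at h2
    rw [Finset.sum_eq_single i₀ (fun j _ hj => by rw [h1 j hj, mul_zero])
      (fun h => absurd (Finset.mem_univ _) h)] at h2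
    funext i
    by_cases hi : i = i₀
    · rw [hi]
      exact (mul_eq_zero.mp h2).resolve_left (hb i₀)
    · exact h1 i hi

lemma sum_LL {k : Type} [Field k] {N : ℕ} (b y : Fin N → k) (F : k → ℝ) (o : Option (Fin N)) :
    ∑ i, F ((LL b o).mulVec y i) = ∑ o', F (YY b y o') - F (YY b y o) := by
  rw [Fintype.sum_option]
  cases o with
  | none =>
    simp only [LL, Matrix.one_mulVec, YY]
    ring
  | some i₀ =>
    simp only [LL_mulVec]
    have h1 : ∑ i, F (if i = i₀ then YY b y none else y i) =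
        F (YY b y none) + ∑ i ∈ Finset.univ.erase i₀, F (y i) := by
      rw [← Finset.add_sum_erase Finset.univ _ (Finset.mem_univ i₀), if_pos rfl]
      congr 1
      refine Finset.sum_congr rfl fun i hi => ?_
      rw [if_neg (Finset.ne_of_mem_erase hi)]
    have h2 : ∑ i, F (YY b y (some i)) = F (y i₀) + ∑ i ∈ Finset.univ.erase i₀, F (y i) := by
      rw [← Finset.add_sum_erase Finset.univ _ (Finset.mem_univ i₀)]
      rfl
    rw [h1, h2]
    simp only [YY]
    ring

variable {k : Type} [Field k] [NumberField k]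

/-- The height bound off a small set. -/
lemma bound (hSUB : SpecSUB) {Ω : Type} {M : ℕ} (f : Ω → Fin M → k) (Sm : Set Ω → Prop)
    (hSm : SmSys Sm) (A : Set Ω) (hA : Gen Sm f A) (S : Finset (Place k)) (m N : ℕ)
    (hN : 0 < N) (G : Fin N → MvPolynomial (Fin M) k) (hG : ∀ i, (G i).IsHomogeneous m)
    (b : Fin N → k) (hb : ∀ i, b i ≠ 0)
    (hne : ∀ ω ∈ A, ∀ o, YY b (fun i => eval (f ω) (G i)) o ≠ 0)
    (hunit : ∀ ω ∈ A, ∀ v, v ∉ S → ∀ o, absV v (YY b (fun i => eval (f ω) (G i)) o) =
      absV v (YY b (fun i => eval (f ω) (G i)) none))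
    (hind : ∀ d : Fin N → k, (∀ ω ∈ A, ∑ i, d i * eval (f ω) (G i) = 0) → d = 0) :
    ∃ (B : Set Ω) (C : ℝ), Sm B ∧ ∀ ω ∈ A, ω ∉ B → ht (fun i => eval (f ω) (G i)) ≤ C := by
  let L : (S → Option (Fin N)) → Place k → Matrix (Fin N) (Fin N) k := fun g v =>
    if h : v ∈ S then LL b (g ⟨v, h⟩) else 1
  have hLdet : ∀ g, ∀ v ∈ S, (L g v).det ≠ 0 := by
    intro g v hv
    simp only [L, dif_pos hv]
    exact LL_det b hb _
  have hsub := fun g => hSUB k N hN S (L g) (hLdet g) (1 / 2) (by norm_num)
  choose C H hHf hHt hH using hsub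
  -- small sets
  have hsmT : ∀ g, ∀ T ∈ H g, Sm {ω | ω ∈ A ∧ (fun i => eval (f ω) (G i)) ∈ T} := by
    intro g T hT
    obtain ⟨φ, hφ, hker⟩ :=
      Submodule.exists_le_ker_of_lt_top T (lt_top_iff_ne_top.mpr (hHt g T hT))
    set c : Fin N → k := fun j => φ (Pi.single j 1) with hc
    have hφc : ∀ z : Fin N → k, φ z = ∑ j, c j * z j := by
      intro z
      conv_lhs => rw [pi_eq_sum_univ' z]
      rw [map_sum]
      refine Finset.sum_congr rfl fun j _ => ?_
      rw [map_smul, smul_eq_mul, mul_comm]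
    have hc0 : c ≠ 0 := by
      intro h0
      apply hφ
      apply LinearMap.ext
      intro z
      rw [hφc, h0]
      simp
    set P : MvPolynomial (Fin M) k := ∑ j, MvPolynomial.C (c j) * G j with hP
    have hPh : P.IsHomogeneous m := by
      refine MvPolynomial.IsHomogeneous.sum _ _ _ fun j _ => ?_
      have := (isHomogeneous_C (Fin M) (c j)).mul (hG j)
      rwa [zero_add] at this
    have hPe : ∀ ω, eval (f ω) P = ∑ j, c j * eval (f ω) (G j) := by
      intro ω
      rw [hP, map_sum]
      refine Finset.sum_congr rfl fun j _ => ?_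
      rw [map_mul, eval_C]
    have hP0 : ∃ ω ∈ A, eval (f ω) P ≠ 0 := by
      by_contra hcon
      push Not at hcon
      apply hc0
      refine hind c fun ω hω => ?_
      rw [← hPe]
      exact hcon ω hω
    refine hSm.2.1 _ _ ?_ (hA.2 m P hPh hP0)
    rintro ω ⟨hω, hT'⟩
    refine ⟨hω, ?_⟩
    rw [hPe, ← hφc (fun i => eval (f ω) (G i))]
    exact hker hT'
  refine ⟨⋃ g ∈ (Finset.univ : Finset (S → Option (Fin N))), ⋃ T ∈ (hHf g).toFinset,
    {ω | ω ∈ A ∧ (fun i => eval (f ω) (G i)) ∈ T}, 2 * ∑ g, |C g|, ?_, ?_⟩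
  · exact small_iUnion hSm _ _ fun g _ => small_iUnion hSm _ _ fun T hT =>
      hsmT g T ((hHf g).mem_toFinset.mp hT)
  intro ω hω hωB
  set y : Fin N → k := fun i => eval (f ω) (G i) with hy
  have hne' : ∀ o, YY b y o ≠ 0 := hne ω hω
  have hunit' : ∀ v, v ∉ S → ∀ o, absV v (YY b y o) = absV v (YY b y none) := hunit ω hω
  have hy0 : y ≠ 0 := by
    intro h
    exact hne' (some ⟨0, hN⟩) (congrFun h ⟨0, hN⟩)
  -- the index with the largest value
  have hmax : ∀ v : Place k, ∃ o, ∀ o', absV v (YY b y o') ≤ absV v (YY b y o) :=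
    fun v => Finite.exists_max fun o => absV v (YY b y o)
  choose o ho using hmax
  set g : S → Option (Fin N) := fun v => o v.1 with hg
  have hyT : ∀ T ∈ H g, y ∉ T := by
    intro T hT hyT
    apply hωB
    simp only [Set.mem_iUnion, exists_prop]
    exact ⟨g, Finset.mem_univ g, T, (hHf g).mem_toFinset.mpr hT, hω, hyT⟩
  have hsub := hH g y hy0 hyT
  -- local terms
  have hloc : ∀ v ∈ S, ∑ o', (Real.log (nrm v y) - Real.log (absV v (YY b y o'))) ≤
      ∑ i, (Real.log (nrm v y) - Real.log (absV v ((L g v).mulVec y i))) := by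
    intro v hv
    have e1 : L g v = LL b (o v) := by
      simp only [L, dif_pos hv, hg]
    rw [e1, Finset.sum_sub_distrib, Finset.sum_sub_distrib,
      sum_LL b y (fun z => Real.log (absV v z)) (o v), Finset.sum_const, Finset.sum_const,
      Finset.card_univ, Finset.card_univ, Fintype.card_option, Fintype.card_fin, nsmul_eq_mul,
      nsmul_eq_mul]
    have h1 : Real.log (nrm v y) ≤ Real.log (absV v (YY b y (o v))) := by
      refine Real.log_le_log (nrm_pos v hy0) (nrm_le v y (absV_nonneg _ _) fun j => ?_)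
      exact ho v (some j)
    push_cast
    linarith
  have hnrm : ∀ v, v ∉ S → nrm v y = absV v (YY b y none) := by
    intro v hv
    refine le_antisymm (nrm_le v y (absV_nonneg _ _) fun j => (hunit' v hv (some j)).le) ?_
    rw [← hunit' v hv (some ⟨0, hN⟩)]
    exact absV_le_nrm v y ⟨0, hN⟩
  have hglob : ∀ o', ∑ v ∈ S, (Real.log (nrm v y) - Real.log (absV v (YY b y o'))) = ht y := by
    intro o'
    have s1 := support_log_nrm_finite (K := k) hy0
    have s2 := support_log_absV_finite (hne' o')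
    have h1 : ht y = ∑ᶠ v : Place k, (Real.log (nrm v y) - Real.log (absV v (YY b y o'))) := by
      rw [finsum_sub_distrib s1 s2, product_formula (hne' o'), sub_zero]
      rfl
    rw [h1, finsum_eq_sum_of_support_subset]
    intro v hv
    by_contra hvS
    apply hv
    simp only
    rw [hnrm v (fun h => hvS h), hunit' v (fun h => hvS h) o', sub_self]
  have hmain : ((N : ℝ) + 1) * ht y ≤ (N + 1 / 2) * ht y + C g := by
    calc ((N : ℝ) + 1) * ht y = ∑ _o' : Option (Fin N), ht y := by
          rw [Finset.sum_const, Finset.card_univ, Fintype.card_option, Fintype.card_fin,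
            nsmul_eq_mul]
          push_cast
          ring
      _ = ∑ o', ∑ v ∈ S, (Real.log (nrm v y) - Real.log (absV v (YY b y o'))) :=
          Finset.sum_congr rfl fun o' _ => (hglob o').symm
      _ = ∑ v ∈ S, ∑ o', (Real.log (nrm v y) - Real.log (absV v (YY b y o'))) :=
          Finset.sum_comm
      _ ≤ _ := (Finset.sum_le_sum hloc).trans hsub
  have hCg : C g ≤ ∑ g', |C g'| :=
    (le_abs_self _).trans
      (Finset.single_le_sum (f := fun g' => |C g'|) (fun _ _ => abs_nonneg _) (Finset.mem_univ g))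
  linarith

/-- Two coordinates of an independent system with `S`-unit values: contradiction. -/
lemma key (hSUB : SpecSUB) (hNTH : SpecNTH) (hGFI : SpecGFI) {Ω : Type} {M : ℕ}
    (f : Ω → Fin M → k) (Sm : Set Ω → Prop)
    (hSm : SmSys Sm) (A : Set Ω) (hA : Gen Sm f A) (S : Finset (Place k)) (m N : ℕ)
    (G : Fin N → MvPolynomial (Fin M) k) (hG : ∀ i, (G i).IsHomogeneous m)
    (b : Fin N → k) (hb : ∀ i, b i ≠ 0)
    (hne : ∀ ω ∈ A, ∀ o, YY b (fun i => eval (f ω) (G i)) o ≠ 0)
    (hunit : ∀ ω ∈ A, ∀ v, v ∉ S → ∀ o, absV v (YY b (fun i => eval (f ω) (G i)) o) =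
      absV v (YY b (fun i => eval (f ω) (G i)) none))
    (hind : ∀ d : Fin N → k, (∀ ω ∈ A, ∑ i, d i * eval (f ω) (G i) = 0) → d = 0)
    (i j : Fin N) (hij : i ≠ j) : False := by
  have hN : 0 < N := Fin.pos i
  obtain ⟨B, C, hB, hBC⟩ := bound hSUB f Sm hSm A hA S m N hN G hG b hb hne hunit hind
  obtain ⟨c, hc⟩ := hGFI k Ω M f Sm hSm A hA m (G i) (G j) (hG i) (hG j) B
    {u : k | ht ![u, 1] ≤ C} hB (hNTH k C) (by
      intro ω hω hωB
      have h2 : eval (f ω) (G j) ≠ 0 := hne ω hω (some j)
      refine ⟨h2, ?_⟩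
      have h3 := hBC ω hω hωB
      set y : Fin N → k := fun i => eval (f ω) (G i) with hy
      have hy0 : y ≠ 0 := fun h => h2 (congrFun h j)
      have hz0 : ![y i, y j] ≠ 0 := fun h => h2 (congrFun h 1)
      have e1 : ![eval (f ω) (G i) / eval (f ω) (G j), 1] = (y j)⁻¹ • ![y i, y j] := by
        funext l
        fin_cases l
        · simp only [hy, Fin.zero_eta, Matrix.cons_val_zero, Pi.smul_apply, smul_eq_mul]
          rw [div_eq_inv_mul]
        · simp only [hy, Fin.mk_one, Matrix.cons_val_one, Pi.smul_apply, smul_eq_mul]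
          exact (inv_mul_cancel₀ h2).symm
      show ht ![eval (f ω) (G i) / eval (f ω) (G j), 1] ≤ C
      rw [e1, ht_smul (inv_ne_zero h2) hz0]
      refine le_trans ?_ h3
      refine finsum_mono (support_log_nrm_finite hz0) (support_log_nrm_finite hy0) fun v => ?_
      refine Real.log_le_log (nrm_pos v hz0) (nrm_le v _ (nrm_nonneg v y) fun l => ?_)
      fin_cases l
      · exact absV_le_nrm v y i
      · exact absV_le_nrm v y j)
  have h1 := hind (fun l => if l = i then 1 else if l = j then -c else 0) (by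
    intro ω hω
    have h2 : ∑ l, (if l = i then (1 : k) else if l = j then -c else 0) * eval (f ω) (G l) =
        ∑ l ∈ {i, j}, (if l = i then (1 : k) else if l = j then -c else 0) *
          eval (f ω) (G l) := by
      symm
      refine Finset.sum_subset (Finset.subset_univ _) fun l _ hl => ?_
      rw [Finset.mem_insert, Finset.mem_singleton, not_or] at hl
      rw [if_neg hl.1, if_neg hl.2, zero_mul]
    rw [h2, Finset.sum_pair hij, if_pos rfl, if_neg hij.symm, if_pos rfl, hc ω hω]
    ring)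
  have h2 := congrFun h1 i
  simp only [if_pos, Pi.zero_apply] at h2
  exact one_ne_zero h2

/-- the value of a monomial -/
noncomputable def mo {k : Type} [Field k] {M : ℕ} (x : Fin M → k) (s : Fin M →₀ ℕ) : k :=
  ∏ i, x i ^ s i

lemma eval_mono {k : Type} [Field k] {M : ℕ} (x : Fin M → k) (s : Fin M →₀ ℕ) :
    eval x (monomial s (1 : k)) = mo x s := by
  rw [eval_monomial, one_mul, Finsupp.prod_fintype _ _ fun i => pow_zero _]
  rfl

lemma absV_mo {M : ℕ} (x : Fin M → k) (v : Place k) (U : Finset (Fin M)) (c : ℝ)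
    (hx : ∀ i ∈ U, absV v (x i) = c) (s : Fin M →₀ ℕ) (hs : ∀ i, s i ≠ 0 → i ∈ U) (m : ℕ)
    (hm : s.degree = m) : absV v (mo x s) = c ^ m := by
  have h1 : ∀ (t : Finset (Fin M)), absV v (∏ i ∈ t, x i ^ s i) = ∏ i ∈ t, absV v (x i) ^ s i := by
    intro t
    induction t using Finset.induction_on with
    | empty => simp
    | insert a t ha ih =>
      rw [Finset.prod_insert ha, Finset.prod_insert ha, absV_mul, ih]
      congr 1
      induction s a with
      | zero => simp
      | succ n ihn => rw [pow_succ, pow_succ, absV_mul, ihn]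
  unfold mo
  rw [h1, ← hm, Finsupp.degree_eq_sum, ← Finset.prod_pow_eq_pow_sum]
  refine Finset.prod_congr rfl fun i _ => ?_
  by_cases h : s i = 0
  · rw [h, pow_zero, pow_zero]
  · rw [hx i (hs i h)]

end UNIM

open UNIM in
/-- UNI -/
theorem specUNI (hSUB : SpecSUB) (hNTH : SpecNTH) (hGFI : SpecGFI) : SpecUNI := by
  intro k _ _ Ω M f Sm hSm A hA S U hU m P hP hPU hP0 α hα
  have hAne : A.Nonempty := by
    by_contra hcon
    rw [Set.not_nonempty_iff_eq_empty] at hcon
    apply hA.1
    rw [hcon]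
    exact hSm.1
  have hyne : ∀ s ∈ P.support, ∀ ω ∈ A, mo (f ω) s ≠ 0 := by
    intro s hs ω hω
    refine Finset.prod_ne_zero_iff.mpr fun i _ => ?_
    by_cases h : s i = 0
    · rw [h, pow_zero]
      exact one_ne_zero
    · exact pow_ne_zero _ ((hU ω hω).1 i (hPU s hs i h))
  have hdeg : ∀ s ∈ P.support, s.degree = m := by
    intro s hs
    rw [Finsupp.degree_eq_weight_one]
    exact hP (mem_support_iff.mp hs)
  have hunit : ∀ ω ∈ A, ∀ v, v ∉ S → ∀ s ∈ P.support,
      absV v (mo (f ω) s) = absV v (mo (f ω) α) := by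
    intro ω hω v hv s hs
    rcases U.eq_empty_or_nonempty with h0 | ⟨i₀, hi₀⟩
    · have hz : ∀ t ∈ P.support, t = 0 := by
        intro t ht'
        ext i
        by_contra h
        have := hPU t ht' i h
        rw [h0] at this
        exact absurd this (Finset.notMem_empty i)
      rw [hz s hs, hz α hα]
    · have hx : ∀ i ∈ U, absV v (f ω i) = absV v (f ω i₀) := fun i hi =>
        (hU ω hω).2 v hv i hi i₀ hi₀
      rw [absV_mo (f ω) v U _ hx s (hPU s hs) m (hdeg s hs),
        absV_mo (f ω) v U _ hx α (hPU α hα) m (hdeg α hα)]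
  -- a shortest relation
  let R : ℕ → Prop := fun n => ∃ (E : Finset (Fin M →₀ ℕ)) (c : (Fin M →₀ ℕ) → k),
    E.card = n ∧ α ∈ E ∧ E ⊆ P.support ∧ (∀ s ∈ E, c s ≠ 0) ∧
      ∀ ω ∈ A, ∑ s ∈ E, c s * mo (f ω) s = 0
  have hR : ∃ n, R n := ⟨_, P.support, fun s => coeff s P, rfl, hα, subset_rfl,
    fun s hs => mem_support_iff.mp hs, fun ω hω => by
      rw [← hP0 ω hω, eval_eq']
      rfl⟩
  obtain ⟨E, c, hcard, hαE, hEP, hc, hrel⟩ := Nat.find_spec hR
  have hmin : ∀ n, n < Nat.find hR → ¬ R n := fun n hn => Nat.find_min hR hn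
  have hind : ∀ d : (Fin M →₀ ℕ) → k, (∀ ω ∈ A, ∑ s ∈ E.erase α, d s * mo (f ω) s = 0) →
      ∀ s ∈ E.erase α, d s = 0 := by
    intro d hd s₀ hs₀
    by_contra hds
    obtain ⟨hs₁, hs₂⟩ := Finset.mem_erase.mp hs₀
    let c' : (Fin M →₀ ℕ) → k := fun s => if s = α then c α else c s - c s₀ / d s₀ * d s
    have hc'α : c' α = c α := if_pos rfl
    have hc's : ∀ s, s ≠ α → c' s = c s - c s₀ / d s₀ * d s := fun s hs => if_neg hs
    have h1 : (E.filter fun s => c' s ≠ 0) ⊆ E.erase s₀ := by
      intro s hs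
      rw [Finset.mem_filter] at hs
      rw [Finset.mem_erase]
      refine ⟨?_, hs.1⟩
      rintro rfl
      apply hs.2
      rw [hc's _ hs₁, div_mul_cancel₀ _ hds, sub_self]
    have h2 : (E.filter fun s => c' s ≠ 0).card < E.card :=
      (Finset.card_le_card h1).trans_lt (Finset.card_erase_lt_of_mem hs₂)
    refine hmin (E.filter fun s => c' s ≠ 0).card (by rw [← hcard]; exact h2)
      ⟨E.filter fun s => c' s ≠ 0, c', rfl, ?_, (Finset.filter_subset _ _).trans hEP, ?_, ?_⟩
    · rw [Finset.mem_filter, hc'α]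
      exact ⟨hαE, hc α hαE⟩
    · intro s hs
      exact (Finset.mem_filter.mp hs).2
    · intro ω hω
      have h3 : ∑ s ∈ E.filter (fun s => c' s ≠ 0), c' s * mo (f ω) s =
          ∑ s ∈ E, c' s * mo (f ω) s := by
        refine Finset.sum_subset (Finset.filter_subset _ _) fun s hs hs' => ?_
        have h4 : c' s = 0 := by
          by_contra h
          exact hs' (Finset.mem_filter.mpr ⟨hs, h⟩)
        rw [h4, zero_mul]
      have h4 : ∑ s ∈ E.erase α, c' s * mo (f ω) s = ∑ s ∈ E.erase α, c s * mo (f ω) s -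
          c s₀ / d s₀ * ∑ s ∈ E.erase α, d s * mo (f ω) s := by
        rw [Finset.mul_sum, ← Finset.sum_sub_distrib]
        refine Finset.sum_congr rfl fun s hs => ?_
        rw [hc's s (Finset.ne_of_mem_erase hs)]
        ring
      rw [h3, ← Finset.add_sum_erase E _ hαE, h4, hd ω hω, mul_zero, sub_zero, hc'α,
        Finset.add_sum_erase E (fun s => c s * mo (f ω) s) hαE]
      exact hrel ω hω
  have hne : (E.erase α).Nonempty := by
    by_contra h
    rw [Finset.not_nonempty_iff_eq_empty] at h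
    obtain ⟨ω, hω⟩ := hAne
    have h1 := hrel ω hω
    rw [← Finset.add_sum_erase E _ hαE, h, Finset.sum_empty, add_zero] at h1
    exact mul_ne_zero (hc α hαE) (hyne α (hEP hαE) ω hω) h1
  obtain ⟨β, hβ⟩ := hne
  have hone : ∀ s ∈ E.erase α, s = β := by
    intro β' hβ'
    by_contra hneq
    -- enumeration of `E.erase α`
    let N := (E.erase α).card
    let e : Fin N ≃ E.erase α := (E.erase α).equivFin.symm
    have heP : ∀ i, (e i).1 ∈ P.support := fun i => hEP (Finset.mem_of_mem_erase (e i).2)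
    let b : Fin N → k := fun i => -(c (e i).1) / c α
    have hcα := hc α hαE
    have hsum : ∀ F : (Fin M →₀ ℕ) → k, ∑ i, F (e i).1 = ∑ s ∈ E.erase α, F s := by
      intro F
      rw [e.sum_comp (fun s : E.erase α => F s.1), Finset.sum_coe_sort]
    have hY0 : ∀ ω ∈ A, YY b (fun i => eval (f ω) (monomial (e i).1 (1 : k))) none =
        mo (f ω) α := by
      intro ω hω
      have h1 := hrel ω hω
      rw [← Finset.add_sum_erase E _ hαE] at h1
      simp only [YY, eval_mono, b]
      have h2 := hsum (fun s => -(c s) / c α * mo (f ω) s)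
      rw [h2]
      have h3 : ∑ s ∈ E.erase α, -(c s) / c α * mo (f ω) s =
          -(∑ s ∈ E.erase α, c s * mo (f ω) s) / c α := by
        rw [← Finset.sum_neg_distrib, Finset.sum_div]
        refine Finset.sum_congr rfl fun s _ => ?_
        ring
      rw [h3, div_eq_iff hcα]
      linear_combination -h1
    have hYs : ∀ ω (i : Fin N), YY b (fun i => eval (f ω) (monomial (e i).1 (1 : k))) (some i) =
        mo (f ω) (e i).1 := fun ω i => eval_mono _ _
    refine key hSUB hNTH hGFI f Sm hSm A hA S m N (fun i => monomial (e i).1 (1 : k))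
      (fun i => isHomogeneous_monomial _ (hdeg _ (heP i))) b
      (fun i => div_ne_zero (neg_ne_zero.mpr (hc _ (Finset.mem_of_mem_erase (e i).2))) hcα)
      ?_ ?_ ?_ (e.symm ⟨β', hβ'⟩) (e.symm ⟨β, hβ⟩) ?_
    · intro ω hω o
      cases o with
      | none =>
        rw [hY0 ω hω]
        exact hyne α hα ω hω
      | some i =>
        rw [hYs ω i]
        exact hyne _ (heP i) ω hω
    · intro ω hω v hv o
      rw [hY0 ω hω]
      cases o with
      | none => rw [hY0 ω hω]
      | some i =>
        rw [hYs ω i]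
        exact hunit ω hω v hv _ (heP i)
    · intro d hd
      funext i
      have h1 := hind (fun s => if h : s ∈ E.erase α then d (e.symm ⟨s, h⟩) else 0) (by
        intro ω hω
        rw [← hsum, ← hd ω hω]
        refine Finset.sum_congr rfl fun i _ => ?_
        rw [dif_pos (e i).2, eval_mono]
        simp) (e i).1 (e i).2
      rw [dif_pos (e i).2] at h1
      simpa using h1
    · intro h
      have := e.symm.injective h
      exact hneq (congrArg Subtype.val this)
  refine ⟨β, hEP (Finset.mem_of_mem_erase hβ), Finset.ne_of_mem_erase hβ, -(c β / c α),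
    neg_ne_zero.mpr (div_ne_zero (hc β (Finset.mem_of_mem_erase hβ)) (hc α hαE)), ?_⟩
  intro ω hω
  have h1 := hrel ω hω
  have h2 : E.erase α = {β} := Finset.eq_singleton_iff_unique_mem.mpr ⟨hβ, hone⟩
  rw [← Finset.add_sum_erase E _ hαE, h2, Finset.sum_singleton] at h1
  show mo (f ω) α = -(c β / c α) * mo (f ω) β
  have hcα := hc α hαE
  field_simp
  linear_combination h1

end Pool.Agent.Lib.MP_d0e829_nt.SI
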