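import Pool.Agent.Lib.MP_d0e829_nt.SI.Spec

/-!
MP_d0e829_nt, module PRX of the hive SI: height and proximity of a general point in terms of the
vector of norms.
-/

set_option autoImplicit false

open NumberField MvPolynomial
open Pool.Agent.Lib.MP_d0e829_nt.SS

namespace Pool.Agent.Lib.MP_d0e829_nt.SI

open scoped Classical

namespace PRXM

section

variable {k : Type} [Field k] [NumberField k] {K : Type} [Field K] [NumberField K] [Algebra k K]

theorem logN (hNCI : SpecNCI) (hNCF : SpecNCF) (v : Place k) {z : K} (hz : z ≠ 0) :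
    Real.log (absV v (Algebra.norm k z)) =
      Module.finrank k K * up v (fun w : Place K => Real.log (absV w z)) := by
  cases v with
  | inl v => exact hNCI k K v z hz
  | inr v => exact hNCF k K v z hz

theorem up_mono (v : Place k) {g h : Place K → ℝ} (H : ∀ w, g w ≤ h w) : up v g ≤ up v h := by
  unfold up
  rw [finsum_mem_eq_finite_toFinset_sum _ (finite_above v).1,
    finsum_mem_eq_finite_toFinset_sum _ (finite_above v).1]
  exact Finset.sum_le_sum fun w _ => H w

/-- the sum over the places above `S` -/
theorem sum_above (hSUP : SpecSUP) (S : Finset (Place k)) (g : Place K → ℝ) :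
    ∑ᶠ w ∈ placesAbove K S, g w = ∑ v ∈ S, up v g := by
  rw [placesAbove_eq]
  have h := finsum_mem_biUnion (f := g) (I := (S : Set (Place k)))
    (t := fun v => {w : Place K | LiesOver w v}) ?_ S.finite_toSet
    (fun v _ => (finite_above v).1)
  · rw [finsum_mem_coe_finset] at h
    exact h
  · intro v _ v' _ hne
    rw [Function.onFun, Set.disjoint_left]
    intro w hw hw'
    exact hne (((hSUP k K).1 w).unique hw hw')

end

end PRXM

open PRXM in
theorem specPRX (hNCI : SpecNCI) (hNCF : SpecNCF) (hLOA : SpecLOA) (hSUP : SpecSUP) : SpecPRX := by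
  intro k _ _ q M ℓ Ξ e hcfg n hnq S
  obtain ⟨C₀, hC₀, hloa⟩ := hLOA k q M ℓ Ξ e hcfg n hnq
  set A : Finset k := (Finset.univ : Finset (Fin M × Fin 3)).image (fun t => Ξ t.1 t.2) with hA
  have hAΞ : ∀ a j, Ξ a j ∈ A := fun a j =>
    Finset.mem_image.mpr ⟨(a, j), Finset.mem_univ _, rfl⟩
  have hAℓ : ∀ i j, ℓ i j ∈ A := fun i j => by
    rw [← hcfg.eq i]; exact hAΞ _ _
  obtain ⟨E₀, hE₀⟩ := exists_bound_err A
  set E := max E₀ 0 with hE
  have hE0 : 0 ≤ E := le_max_right _ _
  refine ⟨n * E + q * S.card * C₀ + q * n * E, ?_⟩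
  intro K _ _ _ x hn hx
  have hEK : ∑ᶠ w : Place K, err A w ≤ E := (hE₀ K).trans (le_max_left _ _)
  have hsumE : ∀ T : Finset (Place K), ∑ w ∈ T, err A w ≤ E := fun T =>
    (sum_le_finsum (fun w => err_nonneg A w) (support_err_finite A) T).trans hEK
  have h3 := hcfg.three
  have hM : Nonempty (Fin M) := ⟨e ⟨0, by omega⟩⟩
  obtain ⟨a₀⟩ := hM
  have hx0 : x ≠ 0 := (evalForm_ne_zero_imp (hx a₀)).2
  have hℓx : ∀ i, evalForm (ℓ i) x ≠ 0 := fun i => by
    rw [← hcfg.eq i]; exact hx _
  have hfd : FiniteDimensional k K := Module.Finite.of_restrictScalars_finite ℚ k K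
  have hN0 : ∀ a, nv Ξ x a ≠ 0 := fun a => by
    simp only [nv]
    exact (Algebra.norm_ne_zero_iff).mpr (hx a)
  have hnv0 : nv Ξ x ≠ 0 := fun h => hN0 a₀ (by rw [h]; rfl)
  have hn0 : (0 : ℝ) ≤ n := Nat.cast_nonneg n
  constructor
  · -- the height
    set g : Place K → ℝ := fun w => Real.log (normV w x) + err A w with hg
    have hg1 := support_log_normV_finite hx0
    have hg2 := support_err_finite (K := K) A
    have hgf : (Function.support g).Finite :=
      (hg1.union hg2).subset (Function.support_add _ _)
    obtain ⟨hf, hs⟩ := (hSUP k K).2 g hgf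
    have hloc : ∀ v : Place k, Real.log (nrm v (nv Ξ x)) ≤ n * up v g := by
      intro v
      have : Nonempty (Fin M) := ⟨a₀⟩
      obtain ⟨a, ha⟩ := exists_eq_ciSup_of_finite (f := fun a => absV v (nv Ξ x a))
      have h1 : nrm v (nv Ξ x) = absV v (nv Ξ x a) := ha.symm
      rw [h1]
      have h2 : Real.log (absV v (nv Ξ x a)) = n *
          up v (fun w : Place K => Real.log (absV w (evalForm (Ξ a) x))) := by
        rw [← hn]
        exact logN hNCI hNCF v (hx a)
      rw [h2]
      refine mul_le_mul_of_nonneg_left (up_mono v fun w => ?_) hn0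
      have h3 := mu_add_err_nonneg (fun j => hAΞ a j) w (hx a)
      unfold mu at h3
      simp only [hg]
      linarith
    have hsum : ht (nv Ξ x) ≤ ∑ᶠ v : Place k, (n : ℝ) * up v g := by
      unfold ht
      refine finsum_le_finsum' (support_log_nrm_finite hnv0) ?_ hloc
      refine hf.subset ?_
      intro v hv h0
      apply hv
      simp only at h0
      simp only [h0, mul_zero]
    have h4 : ∑ᶠ v : Place k, (n : ℝ) * up v g = n * ∑ᶠ w : Place K, g w := by
      rw [← hs, mul_finsum _]
    have h5 : ∑ᶠ w : Place K, g w = height x + ∑ᶠ w : Place K, err A w := by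
      simp only [hg]
      rw [finsum_add_distrib hg1 hg2]
      rfl
    rw [h4, h5] at hsum
    have h6 : (n : ℝ) * (height x + ∑ᶠ w : Place K, err A w) ≤ n * (height x + E) :=
      mul_le_mul_of_nonneg_left (by linarith) hn0
    have h7 : 0 ≤ (q : ℝ) * S.card * C₀ := by positivity
    have h8 : 0 ≤ (q : ℝ) * n * E := by positivity
    linarith
  · -- the proximity
    have hfin : (placesAbove K S).Finite := placesAbove_finite S
    set W := hfin.toFinset with hW
    have hline : ∀ i, ∑ᶠ w ∈ placesAbove K S,
        Real.log (normV w x * normV w (fun j => algebraMap k K (ℓ i j)) /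
          absV w (evalForm (ℓ i) x)) ≤ ∑ v ∈ S, up v (fun w : Place K => mu (ℓ i) w x) + E := by
      intro i
      rw [← sum_above hSUP S, finsum_mem_eq_finite_toFinset_sum _ hfin,
        finsum_mem_eq_finite_toFinset_sum _ hfin]
      have h1 : ∀ w ∈ W, Real.log (normV w x * normV w (fun j => algebraMap k K (ℓ i j)) /
          absV w (evalForm (ℓ i) x)) ≤ mu (ℓ i) w x + err A w := by
        intro w _
        have hl0 : (fun j => algebraMap k K (ℓ i j)) ≠ 0 := by
          intro h
          apply (evalForm_ne_zero_imp (hℓx i)).1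
          funext j
          have := congrFun h j
          simpa using this
        have p1 := normV_pos w hx0
        have p2 := normV_pos w hl0
        have p3 := absV_pos w (hℓx i)
        rw [Real.log_div (mul_pos p1 p2).ne' p3.ne', Real.log_mul p1.ne' p2.ne']
        have p4 := log_normV_le_err (fun j => hAℓ i j) w
        have p5 := log_kap_nonneg w
        unfold mu
        linarith
      calc ∑ w ∈ W, Real.log (normV w x * normV w (fun j => algebraMap k K (ℓ i j)) /
            absV w (evalForm (ℓ i) x)) ≤ ∑ w ∈ W, (mu (ℓ i) w x + err A w) :=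
            Finset.sum_le_sum h1
        _ = ∑ w ∈ W, mu (ℓ i) w x + ∑ w ∈ W, err A w := Finset.sum_add_distrib
        _ ≤ ∑ w ∈ W, mu (ℓ i) w x + E := by
            have := hsumE W
            linarith
    have hvl : ∀ (i : Fin q) (v : Place k), n * up v (fun w : Place K => mu (ℓ i) w x) ≤
        vl v (e i) (nv Ξ x) + C₀ := by
      intro i v
      have h1 := hloa K x hn hx v (e i)
      rw [hcfg.eq i, abs_le] at h1
      linarith [h1.1]
    have h9 : (n : ℝ) * proximity S ℓ x ≤
        ∑ i, (∑ v ∈ S, vl v (e i) (nv Ξ x) + S.card * C₀ + n * E) := by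
      unfold proximity
      rw [Finset.mul_sum]
      refine Finset.sum_le_sum fun i _ => ?_
      calc (n : ℝ) * ∑ᶠ w ∈ placesAbove K S,
            Real.log (normV w x * normV w (fun j => algebraMap k K (ℓ i j)) /
              absV w (evalForm (ℓ i) x))
          ≤ n * (∑ v ∈ S, up v (fun w : Place K => mu (ℓ i) w x) + E) :=
            mul_le_mul_of_nonneg_left (hline i) hn0
        _ = ∑ v ∈ S, n * up v (fun w : Place K => mu (ℓ i) w x) + n * E := by
            rw [mul_add, Finset.mul_sum]
        _ ≤ ∑ v ∈ S, (vl v (e i) (nv Ξ x) + C₀) + n * E := by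
            have := Finset.sum_le_sum fun v (_ : v ∈ S) => hvl i v
            linarith
        _ = _ := by
            rw [Finset.sum_add_distrib, Finset.sum_const, nsmul_eq_mul]
    rw [Finset.sum_comm]
    rw [Finset.sum_add_distrib, Finset.sum_add_distrib, Finset.sum_const, Finset.sum_const,
      Finset.card_univ, Fintype.card_fin, nsmul_eq_mul, nsmul_eq_mul] at h9
    have h10 : 0 ≤ (n : ℝ) * E := by positivity
    linarith

end Pool.Agent.Lib.MP_d0e829_nt.SI
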