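import Pool.Agent.Lib.MP_d0e829_nt.SI.Spec

/-!
# Module SUP: every place lies above exactly one place, and sums over the places above
-/

set_option autoImplicit false

open NumberField MvPolynomial
open Pool.Agent.Lib.MP_d0e829_nt.SS

namespace Pool.Agent.Lib.MP_d0e829_nt.SI

open scoped Classical

namespace SUPM

/-- a finite place lies above a finite place -/
lemma exists_fin {k K : Type} [Field k] [NumberField k] [Field K] [NumberField K] [Algebra k K]
    (w : FinitePlace K) : ∃ v : FinitePlace k,
      w.maximalIdeal.asIdeal.comap (algebraMap (𝓞 k) (𝓞 K)) = v.maximalIdeal.asIdeal := by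
  have hprime : w.maximalIdeal.asIdeal.IsPrime := w.maximalIdeal.isPrime
  have h1 : (w.maximalIdeal.asIdeal.comap (algebraMap (𝓞 k) (𝓞 K))).IsPrime :=
    Ideal.IsPrime.comap _
  have h2 : w.maximalIdeal.asIdeal.comap (algebraMap (𝓞 k) (𝓞 K)) ≠ ⊥ := by
    intro h
    exact w.maximalIdeal.ne_bot (Ideal.eq_bot_of_comap_eq_bot h)
  refine ⟨FinitePlace.mk ⟨w.maximalIdeal.asIdeal.comap (algebraMap (𝓞 k) (𝓞 K)), h1, h2⟩, ?_⟩
  rw [FinitePlace.maximalIdeal_mk]

/-- every place lies above exactly one place -/
lemma exists_unique {k K : Type} [Field k] [NumberField k] [Field K] [NumberField K] [Algebra k K]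
    (w : Place K) : ∃! v : Place k, LiesOver w v := by
  cases w with
  | inl w =>
    refine ⟨Sum.inl (w.comap (algebraMap k K)), rfl, ?_⟩
    intro v hv
    cases v with
    | inl v =>
      have h : w.comap (algebraMap k K) = v := hv
      rw [h]
    | inr v => exact absurd hv (by simp [LiesOver])
  | inr w =>
    obtain ⟨v, hv⟩ := exists_fin (k := k) w
    refine ⟨Sum.inr v, hv, ?_⟩
    intro v' hv'
    cases v' with
    | inl v' => exact absurd hv' (by simp [LiesOver])
    | inr v' =>
      have h : w.maximalIdeal.asIdeal.comap (algebraMap (𝓞 k) (𝓞 K)) = v'.maximalIdeal.asIdeal := hv'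
      have h3 : v'.maximalIdeal.asIdeal = v.maximalIdeal.asIdeal := by rw [← h, ← hv]
      congr 1
      exact FinitePlace.maximalIdeal_injective (IsDedekindDomain.HeightOneSpectrum.ext h3)

/-- sums over the fibres -/
lemma fib {α β : Type} (R : β → α → Prop) (hR : ∀ w : β, ∃! v : α, R w v)
    (g : β → ℝ) (hg : (Function.support g).Finite) :
    (Function.support fun v : α => ∑ᶠ w ∈ {w : β | R w v}, g w).Finite ∧
      ∑ᶠ v : α, ∑ᶠ w ∈ {w : β | R w v}, g w = ∑ᶠ w : β, g w := by
  choose π hπ hπu using hR
  have hiff : ∀ w v, R w v ↔ π w = v := by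
    intro w v
    constructor
    · intro h
      exact (hπu w v h).symm
    · rintro rfl
      exact hπ w
  have h1 : ∀ v, ∑ᶠ w ∈ {w : β | R w v}, g w = ∑ w ∈ hg.toFinset with π w = v, g w := by
    intro v
    apply finsum_mem_eq_sum_of_inter_support_eq
    ext w
    simp only [Set.mem_inter_iff, Set.mem_setOf_eq, Function.mem_support, Finset.coe_filter,
      Set.Finite.mem_toFinset, hiff]
    tauto
  have hsub : (Function.support fun v : α => ∑ᶠ w ∈ {w : β | R w v}, g w) ⊆
      ((hg.toFinset.image π : Finset α) : Set α) := by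
    intro v hv
    rw [Function.mem_support, h1] at hv
    obtain ⟨w, hw, _⟩ := Finset.exists_ne_zero_of_sum_ne_zero hv
    rw [Finset.mem_filter] at hw
    rw [Finset.mem_coe, Finset.mem_image]
    exact ⟨w, hw.1, hw.2⟩
  refine ⟨(Finset.finite_toSet _).subset hsub, ?_⟩
  rw [finsum_eq_sum_of_support_subset _ hsub, finsum_eq_sum_of_support_toFinset_subset g hg
    (Finset.Subset.refl _)]
  rw [Finset.sum_congr rfl fun v _ => h1 v]
  exact Finset.sum_fiberwise_of_maps_to (fun w hw => Finset.mem_image_of_mem π hw) g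

end SUPM

/-- every place lies above exactly one place, and sums -/
theorem specSUP : SpecSUP := by
  intro k _ _ K _ _ _
  refine ⟨fun w => SUPM.exists_unique w, ?_⟩
  intro g hg
  exact SUPM.fib (fun (w : Place K) (v : Place k) => LiesOver w v)
    (fun w => SUPM.exists_unique w) g hg

end Pool.Agent.Lib.MP_d0e829_nt.SI
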