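import Pool.Agent.Lib.MP_d0e829_nt.SI.Spec

/-!
# ABS: the abstract theorem on integral points
-/

set_option autoImplicit false

open NumberField MvPolynomial
open Pool.Agent.Lib.MP_d0e829_nt.SS

namespace Pool.Agent.Lib.MP_d0e829_nt.SI

open scoped Classical

namespace ABSM

variable {k : Type} [Field k] [NumberField k]

/-- admissible points -/
def Adm {q M : ℕ} (ℓ : Fin q → Fin 3 → k) (Ξ : Fin M → Fin 3 → k) (n : ℕ)
    (S' : Finset (Place k)) (K : Type) [Field K] [NumberField K] [Algebra k K]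
    (x : Fin 3 → K) : Prop :=
  Module.finrank k K = n ∧ (∀ a, evalForm (Ξ a) x ≠ 0) ∧
    ∀ v ∉ S', ∀ i j : Fin q, absV v (Algebra.norm k (evalForm (ℓ i) x)) =
      absV v (Algebra.norm k (evalForm (ℓ j) x))

/-- the vectors of norms of admissible points -/
def VV {q M : ℕ} (ℓ : Fin q → Fin 3 → k) (Ξ : Fin M → Fin 3 → k) (n : ℕ)
    (S' : Finset (Place k)) : Set (Fin M → k) :=
  {ω | ∃ (K : Type) (_ : Field K) (_ : NumberField K) (_ : Algebra k K) (x : Fin 3 → K),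
    Adm ℓ Ξ n S' K x ∧ nv Ξ x = ω}

/-- small sets -/
def Sml {q M : ℕ} (ℓ : Fin q → Fin 3 → k) (Ξ : Fin M → Fin 3 → k) (n : ℕ)
    (S' : Finset (Place k)) (B : Set (VV ℓ Ξ n S')) : Prop :=
  ∃ (Z : Finset (Fin 3 → k)) (C' : ℝ), (∀ L ∈ Z, L ≠ 0) ∧
    ∀ ω ∈ B, ht ω.1 ≤ C' ∨ ∀ (K : Type) [Field K] [NumberField K] [Algebra k K] (x : Fin 3 → K),
      Adm ℓ Ξ n S' K x → nv Ξ x = ω.1 → ∃ L ∈ Z, evalForm L x = 0

lemma smSys {q M : ℕ} (ℓ : Fin q → Fin 3 → k) (Ξ : Fin M → Fin 3 → k) (n : ℕ)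
    (S' : Finset (Place k)) : SmSys (Sml ℓ Ξ n S') := by
  refine ⟨⟨∅, 0, by simp, by simp⟩, ?_, ?_⟩
  · rintro A B hAB ⟨Z, C', hZ, h⟩
    exact ⟨Z, C', hZ, fun ω hω => h ω (hAB hω)⟩
  · rintro A B ⟨Z, C', hZ, h⟩ ⟨Z', C'', hZ', h'⟩
    refine ⟨Z ∪ Z', max C' C'', ?_, ?_⟩
    · intro L hL
      rcases Finset.mem_union.mp hL with h1 | h1
      · exact hZ L h1
      · exact hZ' L h1
    · intro ω hω
      rcases hω with hω | hω
      · rcases h ω hω with h1 | h1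
        · exact Or.inl (h1.trans (le_max_left _ _))
        · right
          intro K _ _ _ x hx hx'
          obtain ⟨L, hL, h2⟩ := h1 K x hx hx'
          exact ⟨L, Finset.mem_union_left _ hL, h2⟩
      · rcases h' ω hω with h1 | h1
        · exact Or.inl (h1.trans (le_max_right _ _))
        · right
          intro K _ _ _ x hx hx'
          obtain ⟨L, hL, h2⟩ := h1 K x hx hx'
          exact ⟨L, Finset.mem_union_right _ hL, h2⟩

lemma ne_zero {q M : ℕ} {ℓ : Fin q → Fin 3 → k} {Ξ : Fin M → Fin 3 → k} {n : ℕ} (hn : 1 ≤ n)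
    {S' : Finset (Place k)} (ω : VV ℓ Ξ n S') (a : Fin M) : ω.1 a ≠ 0 := by
  obtain ⟨K, _, _, _, x, ⟨h1, h2, h3⟩, h4⟩ := ω.2
  rw [← h4]
  have : Module.Finite k K := Module.finite_of_finrank_pos (by omega)
  exact Algebra.norm_ne_zero_iff.mpr (h2 a)

/-- norms are injective in degree one -/
lemma norm_inj {K : Type} [Field K] [Algebra k K] (h : Module.finrank k K = 1) {z w : K}
    (hzw : Algebra.norm k z = Algebra.norm k w) : z = w := by
  have : Module.Finite k K := Module.finite_of_finrank_pos (by omega)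
  have hb : Function.Surjective (algebraMap k K) := by
    have h1 := (Subalgebra.bot_eq_top_iff_finrank_eq_one (F := k) (E := K)).mpr h
    intro y
    have hy : y ∈ (⊥ : Subalgebra k K) := by rw [h1]; exact Algebra.mem_top
    exact Algebra.mem_bot.mp hy
  obtain ⟨a, rfl⟩ := hb z
  obtain ⟨b, rfl⟩ := hb w
  rw [Algebra.norm_algebraMap, Algebra.norm_algebraMap, h, pow_one, pow_one] at hzw
  rw [hzw]

lemma evalForm_sub_smul {K : Type} [Field K] [NumberField K] [Algebra k K] (c d : Fin 3 → k)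
    (t : k) (x : Fin 3 → K) :
    evalForm (c - t • d) x = evalForm c x - algebraMap k K t * evalForm d x := by
  unfold evalForm
  rw [Finset.mul_sum, ← Finset.sum_sub_distrib]
  refine Finset.sum_congr rfl fun j _ => ?_
  simp only [Pi.sub_apply, Pi.smul_apply, smul_eq_mul, map_sub, map_mul]
  ring

omit [NumberField k] in
lemma lin_ne {ι : Type} {ℓ : ι → Fin 3 → k} (hgp : GP ℓ) {i j l : ι} (h1 : i ≠ j) (h2 : i ≠ l)
    (h3 : j ≠ l) (c : k) : ℓ i - c • ℓ j ≠ 0 := by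
  intro h
  have hli := Fintype.linearIndependent_iff.mp (hgp i j l h1 h2 h3) ![1, -c, 0] (by
    rw [Fin.sum_univ_three]
    simp only [Matrix.cons_val_zero, Matrix.cons_val_one, Matrix.cons_val, one_smul, neg_smul,
      zero_smul, add_zero]
    rw [← sub_eq_add_neg]
    exact h) 0
  simp at hli

omit [NumberField k] in
/-- two functions proportional to a third one are proportional -/
lemma prop_trans {Ω : Type} {M : ℕ} {f : Ω → Fin M → k} {A : Set Ω} {ω₀ : Ω} (hω₀ : ω₀ ∈ A)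
    {i j a : Fin M} (hnz : f ω₀ j ≠ 0) {c c' : k} (h1 : ∀ ω ∈ A, f ω i = c * f ω a)
    (h2 : ∀ ω ∈ A, f ω j = c' * f ω a) : ∃ d : k, ∀ ω ∈ A, f ω i = d * f ω j := by
  have hc' : c' ≠ 0 := by
    rintro rfl
    exact hnz (by rw [h2 ω₀ hω₀, zero_mul])
  refine ⟨c / c', fun ω hω => ?_⟩
  rw [h1 ω hω, h2 ω hω]
  field_simp

end ABSM

open ABSM in
theorem specABS (hMAX : SS.SpecMAX) (hNRM : SpecNRM) (hKRO : SpecKRO) (hHUL : SpecHUL)
    (hCVX : SpecCVX) (hGRW : SpecGRW) (hUBD : SpecUBD) (hCRW : SpecCRW) (hLOB : SpecLOB) :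
    SpecABS := by
  intro k _ _ q M ℓ Ξ e hcfg n hn hq S'
  by_cases hun : Sml ℓ Ξ n S' Set.univ
  · obtain ⟨Z, C', hZ, h⟩ := hun
    refine ⟨Z, C', hZ, ?_⟩
    intro K _ _ _ x h1 h2 h3 h4
    have hadm : Adm ℓ Ξ n S' K x := ⟨h1, h2, h3⟩
    rcases h ⟨nv Ξ x, K, _, _, _, x, hadm, rfl⟩ (Set.mem_univ _) with h5 | h5
    · exact h5
    · obtain ⟨L, hL, h6⟩ := h5 K x hadm rfl
      exact absurd h6 (h4 L hL)
  exfalso
  have hsys := smSys ℓ Ξ n S'
  obtain ⟨A, hA⟩ := hMAX k (VV ℓ Ξ n S') M (fun ω => ω.1) (Sml ℓ Ξ n S') hun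
  have hAne : A.Nonempty := by
    by_contra h
    rw [Set.not_nonempty_iff_eq_empty] at h
    exact hA.1 (h ▸ hsys.1)
  obtain ⟨ω₀, hω₀⟩ := hAne
  have hnz : ∀ (ω : VV ℓ Ξ n S') (a : Fin M), ω.1 a ≠ 0 := fun ω a => ne_zero hn ω a
  set f : VV ℓ Ξ n S' → Fin M → k := fun ω => ω.1 with hf
  set U : Finset (Fin M) := Finset.univ.image e with hU
  have hUmem : ∀ i, e i ∈ U := fun i => Finset.mem_image.mpr ⟨i, Finset.mem_univ _, rfl⟩
  have hunit : UnitOn S' f A U := by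
    intro ω _
    refine ⟨fun i _ => hnz ω i, ?_⟩
    intro v hv i hi j hj
    obtain ⟨i, -, rfl⟩ := Finset.mem_image.mp hi
    obtain ⟨j, -, rfl⟩ := Finset.mem_image.mp hj
    obtain ⟨K, _, _, _, x, ⟨h1, h2, h3⟩, h4⟩ := ω.2
    have h5 := h3 v hv i j
    show absV v (ω.1 (e i)) = absV v (ω.1 (e j))
    rw [← h4]
    show absV v (Algebra.norm k (evalForm (Ξ (e i)) x)) =
      absV v (Algebra.norm k (evalForm (Ξ (e j)) x))
    rw [hcfg.eq, hcfg.eq]
    exact h5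
  have hIE : ∀ J : Fin (2 * n + 1) → Fin q, Function.Injective J → ∀ a : Fin M,
      IE f A (fun j => e (J j)) a := by
    intro J hJ a
    obtain ⟨D, P, h1, h2, h3, h4⟩ := hNRM k n (fun j => ℓ (J j))
      (fun i j l hij hil hjl => hcfg.gp _ _ _ (fun h => hij (hJ h)) (fun h => hil (hJ h))
        (fun h => hjl (hJ h))) (Ξ a)
    refine ⟨D, P, h1, h2, h3, ?_⟩
    intro ω _
    obtain ⟨K, _, _, _, x, ⟨h5, h6, h7⟩, h8⟩ := ω.2
    have h9 := h4 K x h5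
    have h10 : (fun o : Option (Fin (2 * n + 1)) => o.elim (f ω a) (fun j => f ω (e (J j)))) =
        fun o : Option (Fin (2 * n + 1)) => o.elim (Algebra.norm k (evalForm (Ξ a) x))
          (fun j => Algebra.norm k (evalForm (ℓ (J j)) x)) := by
      funext o
      cases o with
      | none =>
        show ω.1 a = _
        rw [← h8]; rfl
      | some j =>
        show ω.1 (e (J j)) = Algebra.norm k (evalForm (ℓ (J j)) x)
        rw [← h8]
        show Algebra.norm k (evalForm (Ξ (e (J j))) x) = _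
        rw [hcfg.eq]
    rw [h10]
    exact h9
  -- the convex hull
  obtain ⟨a, b, J, hJ, hJab⟩ := hCVX q n ({ω : VV ℓ Ξ n S' // ω ∈ A} × Place k)
    (fun i p => Real.log (absV p.2 (f p.1.1 (e i))) - Real.log (absV p.2 (f ω₀ (e i)))) hq (by
      intro J hJ i
      obtain ⟨lam, hl0, hl1, hl2⟩ := hHUL k (VV ℓ Ξ n S') M f (Sml ℓ Ξ n S') hsys A hA S' U hunit
        (2 * n + 1) (fun j => e (J j)) (hcfg.inj.comp hJ) (fun j => hUmem _) (e i) (hUmem i)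
        (hIE J hJ (e i))
      exact ⟨lam, hl0, hl1, fun p => hl2 p.1.1 p.1.2 ω₀ hω₀ p.2⟩)
  have hprop : ∀ j a', (fun p : {ω : VV ℓ Ξ n S' // ω ∈ A} × Place k =>
      Real.log (absV p.2 (f p.1.1 (e (J j)))) - Real.log (absV p.2 (f ω₀ (e (J j))))) =
      (fun p : {ω : VV ℓ Ξ n S' // ω ∈ A} × Place k =>
      Real.log (absV p.2 (f p.1.1 (e a'))) - Real.log (absV p.2 (f ω₀ (e a')))) →
      ∃ c : k, ∀ ω ∈ A, f ω (e (J j)) = c * f ω (e a') := by
    intro j a' h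
    refine hKRO k (VV ℓ Ξ n S') M f (Sml ℓ Ξ n S') hsys A hA (e (J j)) (e a')
      (fun ω _ => ⟨hnz ω _, hnz ω _⟩) ω₀ hω₀ ?_
    intro ω hω v
    exact congrFun h (⟨ω, hω⟩, v)
  have hcj : ∀ j, ∃ c : k, (∀ ω ∈ A, f ω (e (J j)) = c * f ω (e a)) ∨
      ∀ ω ∈ A, f ω (e (J j)) = c * f ω (e b) := by
    intro j
    rcases hJab j with h | h
    · obtain ⟨c, hc⟩ := hprop j a h
      exact ⟨c, Or.inl hc⟩
    · obtain ⟨c, hc⟩ := hprop j b h
      exact ⟨c, Or.inr hc⟩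
  rcases Nat.lt_or_ge 1 n with hn2 | hn1
  · -- `n ≥ 2`
    have hM : 0 < M := Fin.pos (e a)
    have hgr := hGRW k (VV ℓ Ξ n S') M f A (e a) (e b) (2 * n + 1) (fun j => e (J j)) hcj
      (hIE J hJ)
    obtain ⟨C₁, hC₁⟩ := hLOB k q M ℓ Ξ e hcfg n hn2 (by omega)
    obtain ⟨B, C₂, hB, hB'⟩ := hCRW k (VV ℓ Ξ n S') M f (Sml ℓ Ξ n S') hsys A hA hM
      (fun ω _ a => hnz ω a) hgr S' (3 * n / 2 : ℝ) C₁ (fun ω v => ∑ i, vl v (e i) (f ω))
      (by positivity) (by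
        intro ω _ v _
        obtain ⟨K, _, _, _, x, ⟨h5, h6, h7⟩, h8⟩ := ω.2
        obtain ⟨a', ha'⟩ := hC₁ K x h5 h6 v
        refine ⟨a', ?_⟩
        show ∑ i, vl v (e i) ω.1 ≤ (3 * n / 2 : ℝ) * vl v a' ω.1 + C₁
        rw [← h8]
        exact ha') (1 / 2) (by norm_num)
    obtain ⟨C₃, hC₃⟩ := hUBD k (VV ℓ Ξ n S') M f A S' U hunit (2 * n + 1) (fun j => e (J j))
      (fun j => hUmem _) (hIE J hJ)
    have hsm : Sml ℓ Ξ n S' {ω | ω ∈ A ∧ ω ∉ B} := by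
      refine ⟨∅, max 0 (2 * (C₂ + q * C₃)), by simp, ?_⟩
      rintro ω ⟨hω, hωB⟩
      left
      have h1 := hB' ω hω hωB
      have h2 : ∑ i : Fin q, (ht (f ω) - C₃) ≤ ∑ i : Fin q, ∑ v ∈ S', vl v (e i) (f ω) :=
        Finset.sum_le_sum fun i _ => hC₃ ω hω (e i) (hUmem i)
      rw [Finset.sum_comm] at h2
      simp only [Finset.sum_const, Finset.card_univ, Fintype.card_fin, nsmul_eq_mul] at h2
      have h3 : (q : ℝ) * (ht (f ω) - C₃) ≤ (2 * (3 * n / 2 : ℝ) + 1 / 2) * ht (f ω) + C₂ :=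
        h2.trans h1
      have h4 : (3 * n + 1 : ℝ) ≤ q := by exact_mod_cast hq
      show ht (f ω) ≤ _
      rcases le_or_gt (ht (f ω)) 0 with h5 | h5
      · exact h5.trans (le_max_left _ _)
      · refine le_trans ?_ (le_max_right _ _)
        have h6 := mul_le_mul_of_nonneg_right h4 h5.le
        nlinarith
    apply hA.1
    refine hsys.2.1 A ({ω | ω ∈ A ∧ ω ∉ B} ∪ B) ?_ (hsys.2.2 _ _ hsm hB)
    intro ω hω
    by_cases h : ω ∈ B
    · exact Or.inr h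
    · exact Or.inl ⟨hω, h⟩
  · -- `n = 1`
    have hn' : n = 1 := le_antisymm hn1 hn
    subst hn'
    have hpair : ∃ j j' : Fin (2 * 1 + 1), j ≠ j' ∧ ∃ c : k,
        ∀ ω ∈ A, f ω (e (J j)) = c * f ω (e (J j')) := by
      obtain ⟨c0, h0⟩ := hcj 0
      obtain ⟨c1, h1⟩ := hcj 1
      obtain ⟨c2, h2⟩ := hcj 2
      have n01 : (0 : Fin (2 * 1 + 1)) ≠ 1 := by decide
      have n02 : (0 : Fin (2 * 1 + 1)) ≠ 2 := by decide
      have n12 : (1 : Fin (2 * 1 + 1)) ≠ 2 := by decide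
      rcases h0 with h0 | h0 <;> rcases h1 with h1 | h1 <;> rcases h2 with h2 | h2
      · exact ⟨0, 1, n01, prop_trans hω₀ (hnz ω₀ _) h0 h1⟩
      · exact ⟨0, 1, n01, prop_trans hω₀ (hnz ω₀ _) h0 h1⟩
      · exact ⟨0, 2, n02, prop_trans hω₀ (hnz ω₀ _) h0 h2⟩
      · exact ⟨1, 2, n12, prop_trans hω₀ (hnz ω₀ _) h1 h2⟩
      · exact ⟨1, 2, n12, prop_trans hω₀ (hnz ω₀ _) h1 h2⟩
      · exact ⟨0, 2, n02, prop_trans hω₀ (hnz ω₀ _) h0 h2⟩
      · exact ⟨0, 1, n01, prop_trans hω₀ (hnz ω₀ _) h0 h1⟩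
      · exact ⟨0, 1, n01, prop_trans hω₀ (hnz ω₀ _) h0 h1⟩
    obtain ⟨j, j', hjj, c, hc⟩ := hpair
    have hne : ℓ (J j) - c • ℓ (J j') ≠ 0 := by
      obtain ⟨l, hl1, hl2⟩ : ∃ l : Fin q, l ≠ J j ∧ l ≠ J j' := by
        have h3 : ∀ j j' : Fin (2 * 1 + 1), ∃ l : Fin (2 * 1 + 1), l ≠ j ∧ l ≠ j' := by decide
        obtain ⟨l, h4, h5⟩ := h3 j j'
        exact ⟨J l, fun h => h4 (hJ h), fun h => h5 (hJ h)⟩
      exact lin_ne hcfg.gp (fun h => hjj (hJ h)) hl1.symm hl2.symm c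
    apply hA.1
    refine ⟨{ℓ (J j) - c • ℓ (J j')}, 0, by simpa using hne, ?_⟩
    intro ω hω
    right
    intro K _ _ _ x hx hx'
    refine ⟨_, Finset.mem_singleton_self _, ?_⟩
    rw [evalForm_sub_smul, sub_eq_zero]
    apply norm_inj hx.1
    rw [map_mul, Algebra.norm_algebraMap, hx.1, pow_one]
    have h1 := hc ω hω
    have h2 : ∀ i, f ω (e i) = Algebra.norm k (evalForm (ℓ i) x) := by
      intro i
      show ω.1 (e i) = _
      rw [← hx']
      show Algebra.norm k (evalForm (Ξ (e i)) x) = _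
      rw [hcfg.eq]
    rw [h2, h2] at h1
    exact h1

end Pool.Agent.Lib.MP_d0e829_nt.SI
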