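import Pool.Agent.Lib.MP_d0e829_nt.SI.Spec

/-!
# Module CRW: the curve case, for the coordinates
-/

set_option autoImplicit false

open NumberField MvPolynomial
open Pool.Agent.Lib.MP_d0e829_nt.SS

namespace Pool.Agent.Lib.MP_d0e829_nt.SI

open scoped Classical

namespace CRWM

lemma dot {k : Type} [Field k] {M : ℕ} (a : Fin M) (f : Fin M → k) :
    (Pi.single a (1 : k) : Fin M → k) ⬝ᵥ f = f a := by
  rw [single_dotProduct, one_mul]

lemma val_eq {k : Type} [Field k] [NumberField k] {M : ℕ} (v : Place k) (a : Fin M)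
    (f : Fin M → k) : val v (Pi.single a (1 : k)) f = vl v a f := by
  unfold val vl
  rw [dot]

end CRWM

theorem specCRW (hCRV : SS.SpecCRV) (hFCH : SS.SpecFCH) : SpecCRW := by
  intro k _ _ Ω M f Sm hSm A hG hM hne hD S c₀ C T hc₀ hT ε hε
  have hAne : A.Nonempty := by
    rw [Set.nonempty_iff_ne_empty]
    intro h
    exact hG.1 (h ▸ hSm.1)
  obtain ⟨ω₁, hω₁⟩ := hAne
  have a₀ : Fin M := ⟨0, hM⟩
  have hf : ∀ ω ∈ A, f ω ≠ 0 := fun ω hω h => hne ω hω a₀ (by rw [h]; rfl)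
  have hε' : 0 < ε / (c₀ + 1) := by positivity
  obtain ⟨B1, C1, hB1, hC1⟩ := hFCH k Ω (Fin M) S Sm hSm A (fun ω => ht (f ω))
    (2 + ε / (c₀ + 1)) (fun v φ ω => vl v φ (f ω)) (fun _ _ => True) (by
      intro φ _
      obtain ⟨B', C', hB', hC'⟩ := hCRV k Ω M f Sm hSm A hG hf hD S
        (fun v => Pi.single (φ v) 1) (by
          intro v _
          refine ⟨ω₁, hω₁, ?_⟩
          rw [CRWM.dot]
          exact hne ω₁ hω₁ _) (ε / (c₀ + 1)) hε'
      refine ⟨B', C', hB', fun ω hω hωB => ?_⟩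
      have h := (hC' ω hω hωB).2
      have he : ∑ v ∈ S, val v (Pi.single (φ v) (1 : k)) (f ω) = ∑ v ∈ S, vl v (φ v) (f ω) :=
        Finset.sum_congr rfl fun v _ => CRWM.val_eq v (φ v) (f ω)
      exact he ▸ h)
  refine ⟨B1, c₀ * C1 + C * S.card, hB1, ?_⟩
  intro ω hω hωB
  have hall : ∀ v : Place k, ∃ a : Fin M, v ∈ S → T ω v ≤ c₀ * vl v a (f ω) + C := by
    intro v
    by_cases hv : v ∈ S
    · obtain ⟨a, ha⟩ := hT ω hω v hv
      exact ⟨a, fun _ => ha⟩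
    · exact ⟨a₀, fun h => absurd h hv⟩
  choose φ hφ using hall
  have h1 := hC1 ω hω hωB φ (fun _ _ => trivial)
  have h2 : ∑ v ∈ S, T ω v ≤ ∑ v ∈ S, (c₀ * vl v (φ v) (f ω) + C) :=
    Finset.sum_le_sum fun v hv => hφ v hv
  rw [Finset.sum_add_distrib, ← Finset.mul_sum, Finset.sum_const, nsmul_eq_mul] at h2
  have hht : 0 ≤ ht (f ω) := ht_nonneg (hf ω hω)
  have h3 := mul_le_mul_of_nonneg_left h1 hc₀
  have h4 : c₀ * (ε / (c₀ + 1)) ≤ ε := by
    rw [mul_div_assoc', div_le_iff₀ (by positivity)]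
    nlinarith
  have h5 := mul_le_mul_of_nonneg_right h4 hht
  have h6 : c₀ * ((2 + ε / (c₀ + 1)) * ht (f ω) + C1) =
      2 * c₀ * ht (f ω) + c₀ * (ε / (c₀ + 1)) * ht (f ω) + c₀ * C1 := by ring
  have h7 : (2 * c₀ + ε) * ht (f ω) = 2 * c₀ * ht (f ω) + ε * ht (f ω) := by ring
  have h8 : (S.card : ℝ) * C = C * S.card := by ring
  linarith

end Pool.Agent.Lib.MP_d0e829_nt.SI
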