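import Pool.Agent.Lib.MP_d0e829_nt.SI.Spec

/-!
# MP_d0e829_nt, module CVX: convex geometry
-/

set_option autoImplicit false

namespace Pool.Agent.Lib.MP_d0e829_nt.SI

namespace CVXM

lemma var {N : ℕ} (lam x : Fin N → ℝ) (z : ℝ) (h : ∑ j, lam j = 1) :
    (z - ∑ j, lam j * x j) ^ 2 =
      ∑ j, lam j * (z - x j) ^ 2 - ∑ j, lam j * ((∑ j, lam j * x j) - x j) ^ 2 := by
  set y : ℝ := ∑ j, lam j * x j with hy
  have e : ∑ j, lam j * (z - x j) ^ 2 - ∑ j, lam j * (y - x j) ^ 2 =
      (z ^ 2 - y ^ 2) * ∑ j, lam j - 2 * (z - y) * ∑ j, lam j * x j := by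
    rw [← Finset.sum_sub_distrib, Finset.mul_sum, Finset.mul_sum, ← Finset.sum_sub_distrib]
    refine Finset.sum_congr rfl fun j _ => ?_
    ring
  rw [e, h, ← hy]
  ring

end CVXM

open CVXM in
/-- Module CVX. -/
theorem specCVX : SpecCVX := by
  classical
  intro q n I g hq H
  have q0 : 0 < q := by omega
  have hle : 2 * n + 1 ≤ q := by omega
  have triv : ∀ p, (∀ i, g i = g p) → ∃ (a b : Fin q) (J : Fin (2 * n + 1) → Fin q),
      Function.Injective J ∧ ∀ j, g (J j) = g a ∨ g (J j) = g b := fun p hp =>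
    ⟨p, p, Fin.castLE hle, Fin.castLE_injective hle, fun j => Or.inl (hp _)⟩
  by_cases hI : Nonempty I
  swap
  · exact triv ⟨0, q0⟩ (fun i => funext fun c => absurd ⟨c⟩ hI)
  obtain ⟨c0⟩ := hI
  have hc : ∀ ab : Fin q × Fin q, ∃ c : I, g ab.1 ≠ g ab.2 → g ab.1 c ≠ g ab.2 c := by
    intro ab
    by_cases h : g ab.1 = g ab.2
    · exact ⟨c0, fun h' => absurd h h'⟩
    · obtain ⟨c, hc⟩ := Function.ne_iff.1 h
      exact ⟨c, fun _ => hc⟩
  choose c hc using hc
  set d : Fin q → Fin q → ℝ := fun i i' => ∑ ab : Fin q × Fin q, (g i (c ab) - g i' (c ab)) ^ 2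
    with hd
  have d0 : ∀ i i', d i i' = 0 → g i = g i' := by
    intro i i' h
    by_contra hne
    have h1 := (Finset.sum_eq_zero_iff_of_nonneg (fun ab _ => sq_nonneg _)).1 h (i, i')
      (Finset.mem_univ _)
    exact hc (i, i') hne (sub_eq_zero.1 (pow_eq_zero_iff two_ne_zero |>.1 h1))
  have dself : ∀ i i', g i = g i' → d i i' = 0 := by
    intro i i' h
    refine Finset.sum_eq_zero fun ab _ => ?_
    rw [h]
    ring
  have dnn : ∀ i i', 0 ≤ d i i' := fun i i' => Finset.sum_nonneg fun _ _ => sq_nonneg _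
  have ext : ∀ i₀ p, (∀ i, d i₀ i ≤ d i₀ p) →
      ¬ ∃ J : Fin (2 * n + 1) → Fin q, Function.Injective J ∧ ∀ j, g (J j) ≠ g p := by
    rintro i₀ p hp ⟨J, hJ, hne⟩
    obtain ⟨lam, l0, l1, l2⟩ := H J hJ p
    have key : d i₀ p = ∑ j, lam j * d i₀ (J j) - ∑ j, lam j * d p (J j) := by
      have h1 : ∀ ab : Fin q × Fin q, (g i₀ (c ab) - g p (c ab)) ^ 2 =
          ∑ j, lam j * (g i₀ (c ab) - g (J j) (c ab)) ^ 2 -
            ∑ j, lam j * (g p (c ab) - g (J j) (c ab)) ^ 2 := by
        intro ab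
        have h2 := var lam (fun j => g (J j) (c ab)) (g i₀ (c ab)) l1
        simp only [← l2 (c ab)] at h2
        exact h2
      simp only [hd]
      rw [Finset.sum_congr rfl fun ab _ => h1 ab, Finset.sum_sub_distrib, Finset.sum_comm,
        Finset.sum_comm (f := fun ab j => lam j * (g p (c ab) - g (J j) (c ab)) ^ 2)]
      simp only [Finset.mul_sum]
    have h1 : ∑ j, lam j * d i₀ (J j) ≤ d i₀ p := by
      calc ∑ j, lam j * d i₀ (J j) ≤ ∑ j, lam j * d i₀ p :=
            Finset.sum_le_sum fun j _ => mul_le_mul_of_nonneg_left (hp _) (l0 j)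
        _ = d i₀ p := by rw [← Finset.sum_mul, l1, one_mul]
    have h2 : ∑ j, lam j * d p (J j) = 0 :=
      le_antisymm (by linarith) (Finset.sum_nonneg fun j _ => mul_nonneg (l0 j) (dnn _ _))
    have h3 := (Finset.sum_eq_zero_iff_of_nonneg
      (fun j _ => mul_nonneg (l0 j) (dnn p (J j)))).1 h2
    have h4 : ∃ j, lam j ≠ 0 := by
      by_contra hh
      push Not at hh
      rw [Finset.sum_eq_zero fun j _ => hh j] at l1
      exact zero_ne_one l1
    obtain ⟨j, hj⟩ := h4
    have h5 := h3 j (Finset.mem_univ _)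
    exact hne j (d0 _ _ ((mul_eq_zero.1 h5).resolve_left hj)).symm
  have few : ∀ p, (¬ ∃ J : Fin (2 * n + 1) → Fin q, Function.Injective J ∧ ∀ j, g (J j) ≠ g p) →
      (Finset.univ.filter fun i => g i ≠ g p).card ≤ 2 * n := by
    intro p hp
    by_contra hlt
    push Not at hlt
    have hlt' : 2 * n + 1 ≤ (Finset.univ.filter fun i => g i ≠ g p).card := hlt
    refine hp ⟨(Finset.univ.filter fun i => g i ≠ g p).orderEmbOfCardLe hlt',
      RelEmbedding.injective _, fun j => ?_⟩
    have := Finset.orderEmbOfCardLe_mem (Finset.univ.filter fun i => g i ≠ g p) hlt' j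
    exact (Finset.mem_filter.1 this).2
  have many : ∀ p, (¬ ∃ J : Fin (2 * n + 1) → Fin q, Function.Injective J ∧
      ∀ j, g (J j) ≠ g p) → q ≤ (Finset.univ.filter fun i => g i = g p).card + 2 * n := by
    intro p hp
    have h1 := few p hp
    have h2 : (Finset.univ : Finset (Fin q)) =
        (Finset.univ.filter fun i => g i = g p) ∪ (Finset.univ.filter fun i => g i ≠ g p) := by
      ext i
      by_cases h : g i = g p <;> simp [h]
    have h3 : (Finset.univ : Finset (Fin q)).card ≤ _ :=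
      (congrArg Finset.card h2).le.trans (Finset.card_union_le _ _)
    rw [Finset.card_univ, Fintype.card_fin] at h3
    omega
  have hmax : ∀ i₀, ∃ p, ∀ i, d i₀ i ≤ d i₀ p := by
    intro i₀
    obtain ⟨p, -, hp⟩ := Finset.exists_max_image Finset.univ (fun i => d i₀ i)
      ⟨i₀, Finset.mem_univ _⟩
    exact ⟨p, fun i => hp i (Finset.mem_univ _)⟩
  obtain ⟨p, hp⟩ := hmax ⟨0, q0⟩
  obtain ⟨p', hp'⟩ := hmax p
  have ep := ext _ _ hp
  have ep' := ext _ _ hp'
  by_cases hpp : g p = g p'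
  · refine triv p fun i => ?_
    have h1 : d p i ≤ 0 := by
      rw [← dself p p' hpp]
      exact hp' i
    exact (d0 _ _ (le_antisymm h1 (dnn _ _))).symm
  · have m1 := many p ep
    have m2 := many p' ep'
    set S := (Finset.univ.filter fun i => g i = g p) ∪ (Finset.univ.filter fun i => g i = g p')
      with hS
    have hdis : Disjoint (Finset.univ.filter fun i => g i = g p)
        (Finset.univ.filter fun i => g i = g p') := by
      rw [Finset.disjoint_left]
      intro i h1 h2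
      exact hpp ((Finset.mem_filter.1 h1).2.symm.trans (Finset.mem_filter.1 h2).2)
    have hcard : 2 * n + 1 ≤ S.card := by
      rw [hS, Finset.card_union_of_disjoint hdis]
      omega
    have hmem : ∀ i ∈ S, g i = g p ∨ g i = g p' := by
      intro i hi
      rw [hS, Finset.mem_union, Finset.mem_filter, Finset.mem_filter] at hi
      rcases hi with h | h
      · exact Or.inl h.2
      · exact Or.inr h.2
    exact ⟨p, p', S.orderEmbOfCardLe hcard, RelEmbedding.injective _,
      fun j => hmem _ (Finset.orderEmbOfCardLe_mem S hcard j)⟩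

end Pool.Agent.Lib.MP_d0e829_nt.SI
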