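import Pool.Agent.Lib.MP_d0e829_nt.SI.Spec

/-!
# Module FAM: families with linear growth
-/

set_option autoImplicit false

open NumberField MvPolynomial
open Pool.Agent.Lib.MP_d0e829_nt.SS

namespace Pool.Agent.Lib.MP_d0e829_nt.SI

open scoped Classical

namespace FAMM

section algebra

variable {k : Type} [Field k] {Ω : Type} {M : ℕ}

lemma evA_apply (f : Ω → Fin M → k) (A : Set Ω) (P : MvPolynomial (Fin M) k) (ω : A) :
    evA f A P ω = eval (f ω) P := by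
  have h : (Pi.evalAlgHom k (fun _ : A => k) ω).comp (evA f A) =
      (MvPolynomial.aeval (f ω) : MvPolynomial (Fin M) k →ₐ[k] k) := by
    apply MvPolynomial.algHom_ext
    intro i
    simp [evA]
  have h2 := AlgHom.congr_fun h P
  have h3 : (MvPolynomial.aeval (f ω) : MvPolynomial (Fin M) k →ₐ[k] k) P = eval (f ω) P :=
    Eq.symm (DFunLike.congr rfl rfl)
  rw [← h3, ← h2]
  rfl

/-- restriction of functions -/
def res (f : Ω → Fin M → k) (A : Set Ω) (B : Set (Fin M → k)) (h : ∀ ω ∈ A, f ω ∈ B) :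
    (B → k) →ₗ[k] (A → k) where
  toFun g ω := g ⟨f ω, h ω ω.2⟩
  map_add' _ _ := rfl
  map_smul' _ _ := rfl

lemma FS_res (f : Ω → Fin M → k) (A : Set Ω) (B : Set (Fin M → k)) (h : ∀ ω ∈ A, f ω ∈ B)
    (m : ℕ) : FS f A m = (FS (fun f : Fin M → k => f) B m).map (res f A B h) := by
  have hc : (evA f A).toLinearMap =
      (res f A B h).comp (evA (fun f : Fin M → k => f) B).toLinearMap := by
    refine LinearMap.ext fun P => ?_
    funext ω
    show evA f A P ω = evA (fun f : Fin M → k => f) B P ⟨f ω, h ω ω.2⟩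
    rw [evA_apply, evA_apply]
  unfold FS
  rw [hc, Submodule.map_comp]

lemma FS_le (f : Ω → Fin M → k) (A : Set Ω) (B : Set (Fin M → k)) (h : ∀ ω ∈ A, f ω ∈ B)
    (m : ℕ) : Module.finrank k (FS f A m) ≤
      Module.finrank k (FS (fun f : Fin M → k => f) B m) := by
  have : Module.Finite k (FS (fun f : Fin M → k => f) B m) := by
    rw [Module.Finite.iff_fg]
    exact (MvPolynomial.homogeneousSubmodule_fg (Fin M) k m).map _
  rw [FS_res f A B h m]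
  exact Submodule.finrank_map_le _ _

end algebra

variable {k : Type} [Field k] [NumberField k]

/-- the vectors of norms in `B` -/
def VV {M : ℕ} (Ξ : Fin M → Fin 3 → k) (n : ℕ) (B : Set (Fin M → k)) : Set (Fin M → k) :=
  {ω | ω ∈ B ∧ ∃ (K : Type) (_ : Field K) (_ : NumberField K) (_ : Algebra k K) (x : Fin 3 → K),
    Module.finrank k K = n ∧ (∀ a, evalForm (Ξ a) x ≠ 0) ∧ nv Ξ x = ω}

/-- small sets -/
def Sml {q M : ℕ} (e : Fin q → Fin M) (Ξ : Fin M → Fin 3 → k) (n : ℕ) (S : Finset (Place k))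
    (ε : ℝ) (B : Set (Fin M → k)) (A : Set (VV Ξ n B)) : Prop :=
  ∃ C' : ℝ, ∀ ω ∈ A, ∑ v ∈ S, ∑ i, vl v (e i) ω.1 ≤ (3 * n + ε) * ht ω.1 + C'

lemma smSys {q M : ℕ} (e : Fin q → Fin M) (Ξ : Fin M → Fin 3 → k) (n : ℕ) (S : Finset (Place k))
    (ε : ℝ) (B : Set (Fin M → k)) : SmSys (Sml e Ξ n S ε B) := by
  refine ⟨⟨0, fun ω hω => absurd hω (Set.notMem_empty _)⟩, ?_, ?_⟩
  · rintro A B hAB ⟨C', h⟩
    exact ⟨C', fun ω hω => h ω (hAB hω)⟩
  · rintro A B ⟨C', h⟩ ⟨C'', h'⟩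
    refine ⟨max C' C'', ?_⟩
    rintro ω (hω | hω)
    · exact (h ω hω).trans (by linarith [le_max_left C' C''])
    · exact (h' ω hω).trans (by linarith [le_max_right C' C''])

lemma ne_zero {M : ℕ} {Ξ : Fin M → Fin 3 → k} {n : ℕ} (hn : 1 ≤ n) {B : Set (Fin M → k)}
    (ω : VV Ξ n B) (a : Fin M) : ω.1 a ≠ 0 := by
  obtain ⟨-, K, _, _, _, x, h1, h2, h4⟩ := ω.2
  rw [← h4]
  have : Module.Finite k K := Module.finite_of_finrank_pos (by omega)
  exact Algebra.norm_ne_zero_iff.mpr (h2 a)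

end FAMM

open FAMM in
theorem specFAM (hMAX : SS.SpecMAX) (hCRW : SpecCRW) (hLOB : SpecLOB) : SpecFAM := by
  intro k _ _ q M ℓ Ξ e hcfg n hn hq S B hB ε hε
  by_cases hun : Sml e Ξ n S ε B Set.univ
  · obtain ⟨C', h⟩ := hun
    refine ⟨C', ?_⟩
    intro K iF iN iA x h1 h2 h3
    have hmem : nv Ξ x ∈ VV Ξ n B := ⟨h3, K, iF, iN, iA, x, h1, h2, rfl⟩
    exact h ⟨nv Ξ x, hmem⟩ (Set.mem_univ _)
  exfalso
  have hsys := smSys e Ξ n S ε B
  obtain ⟨A, hA⟩ := hMAX k (VV Ξ n B) M (fun ω => ω.1) (Sml e Ξ n S ε B) hun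
  have hnz : ∀ (ω : VV Ξ n B) (a : Fin M), ω.1 a ≠ 0 := fun ω a => ne_zero (by omega) ω a
  set f : VV Ξ n B → Fin M → k := fun ω => ω.1 with hf
  have hM : 0 < M := Fin.pos (e ⟨0, by omega⟩)
  obtain ⟨D, hD⟩ := hB
  have hgr : ∃ D : ℝ, ∀ m : ℕ, 0 < m → (Module.finrank k (FS f A m) : ℝ) ≤ D * m := by
    refine ⟨D, fun m hm => le_trans ?_ (hD m hm)⟩
    have h1 := FS_le f A B (fun ω _ => ω.2.1) m
    exact_mod_cast h1
  obtain ⟨C₁, hC₁⟩ := hLOB k q M ℓ Ξ e hcfg n hn hq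
  obtain ⟨B', C₂, hB', hB''⟩ := hCRW k (VV Ξ n B) M f (Sml e Ξ n S ε B) hsys A hA hM
    (fun ω _ a => hnz ω a) hgr S (3 * n / 2 : ℝ) C₁ (fun ω v => ∑ i, vl v (e i) (f ω))
    (by positivity) (by
      intro ω _ v _
      obtain ⟨-, K, _, _, _, x, h5, h6, h8⟩ := ω.2
      obtain ⟨a', ha'⟩ := hC₁ K x h5 h6 v
      refine ⟨a', ?_⟩
      show ∑ i, vl v (e i) ω.1 ≤ (3 * n / 2 : ℝ) * vl v a' ω.1 + C₁
      rw [← h8]
      exact ha') ε hε
  have hsm : Sml e Ξ n S ε B {ω | ω ∈ A ∧ ω ∉ B'} := by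
    refine ⟨C₂, ?_⟩
    rintro ω ⟨hω, hωB⟩
    have h1 := hB'' ω hω hωB
    have h2 : (2 * (3 * n / 2 : ℝ) + ε) = (3 * n + ε) := by ring
    rw [h2] at h1
    exact h1
  apply hA.1
  refine hsys.2.1 A ({ω | ω ∈ A ∧ ω ∉ B'} ∪ B') ?_ (hsys.2.2 _ _ hsm hB')
  intro ω hω
  by_cases h : ω ∈ B'
  · exact Or.inr h
  · exact Or.inl ⟨hω, h⟩

end Pool.Agent.Lib.MP_d0e829_nt.SI
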