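import Pool.Agent.Lib.MP_d0e829_nt.SI.Spec
import Pool.Agent.Lib.MP_d0e829_nt.SS.SpecC3

/-!
# FNF: one-parameter families
-/

set_option autoImplicit false

open NumberField MvPolynomial
open Pool.Agent.Lib.MP_d0e829_nt.SS

namespace Pool.Agent.Lib.MP_d0e829_nt.SI

open scoped Classical

theorem specFNF (hLNX : SpecLNX) (hTRI : SS.SpecTRI) (hPRX : SpecPRX) (hFAM : SpecFAM) :
    SpecFNF := by
  intro k _ _ q ℓ hq hgp
  obtain ⟨M, Ξ, e, hcfg⟩ := hLNX k q ℓ hq hgp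
  refine ⟨M, Ξ, hcfg.ne, ?_⟩
  intro n hn S B hB ε hε
  have h0 : ∀ i, ℓ i ≠ 0 := fun i => by
    rw [← hcfg.eq i]; exact hcfg.ne (e i)
  have hx0 : ∀ (K : Type) [Field K] [NumberField K] [Algebra k K] (x : Fin 3 → K),
      (∀ a, evalForm (Ξ a) x ≠ 0) → x ≠ 0 := by
    intro K _ _ _ x hx h
    have hqpos : 0 < q := by omega
    apply hx (e ⟨0, hqpos⟩)
    rw [h]
    simp [evalForm]
  by_cases hqn : 2 * n + 1 ≤ q
  · obtain ⟨C₁, hC₁⟩ := hFAM k q M ℓ Ξ e hcfg n hn hqn S B hB ε hε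
    obtain ⟨C₂, hC₂⟩ := hPRX k q M ℓ Ξ e hcfg n hqn S
    refine ⟨((3 * n + ε) * C₂ + C₁ + C₂) / n, ?_⟩
    intro K _ _ _ x hK hx hxB
    have h1 := hC₁ K x hK hx hxB
    obtain ⟨h2, h3⟩ := hC₂ K x hK hx
    have hn0 : (0 : ℝ) < n := by
      have : 0 < n := by omega
      exact_mod_cast this
    have h4 : (3 * (n : ℝ) + ε) * ht (nv Ξ x) ≤ (3 * (n : ℝ) + ε) * (n * height x + C₂) :=
      mul_le_mul_of_nonneg_left h2 (by positivity)
    have h5 : (n : ℝ) * proximity S ℓ x ≤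
        n * ((3 * n + ε) * height x) + ((3 * n + ε) * C₂ + C₁ + C₂) := by
      nlinarith [h3, h1, h4]
    have h6 : (n : ℝ) * proximity S ℓ x ≤
        n * ((3 * n + ε) * height x + ((3 * n + ε) * C₂ + C₁ + C₂) / n) := by
      rw [mul_add, mul_div_cancel₀ _ hn0.ne']
      exact h5
    exact le_of_mul_le_mul_left h6 hn0
  · obtain ⟨C, hC⟩ := hTRI k S q ℓ h0
    refine ⟨C, ?_⟩
    intro K _ _ _ x hK hx hxB
    have hxn := hx0 K x hx
    have h1 := hC K x hxn (fun i => by rw [← hcfg.eq i]; exact hx (e i))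
    have h2 : 0 ≤ height x := height_nonneg x hxn
    have h3 : (q : ℝ) ≤ 3 * n := by
      have : q ≤ 3 * n := by omega
      exact_mod_cast this
    have h4 : (q : ℝ) * height x ≤ (3 * n + ε) * height x :=
      mul_le_mul_of_nonneg_right (by linarith) h2
    linarith

end Pool.Agent.Lib.MP_d0e829_nt.SI
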