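import Pool.Agent.Lib.MP_d0e829_nt.SI.Spec

/-!
# FNI: Theorem I, integral points
-/

set_option autoImplicit false

open NumberField MvPolynomial
open Pool.Agent.Lib.MP_d0e829_nt.SS

namespace Pool.Agent.Lib.MP_d0e829_nt.SI

open scoped Classical

namespace FNIM

/-- Equal absolute values above `v` give equal norms. -/
lemma norm_eq (hNCF : SpecNCF) {k : Type} [Field k] [NumberField k] {K : Type} [Field K]
    [NumberField K] [Algebra k K] (v : FinitePlace k) (z z' : K) (hz : z ≠ 0) (hz' : z' ≠ 0)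
    (h : ∀ w : Place K, LiesOver w (Sum.inr v : Place k) →
      Real.log (absV w z) = Real.log (absV w z')) :
    absV (Sum.inr v : Place k) (Algebra.norm k z) = absV (Sum.inr v : Place k) (Algebra.norm k z') := by
  have h1 := hNCF k K v z hz
  have h2 := hNCF k K v z' hz'
  have h3 : ∑ᶠ w ∈ {w : Place K | LiesOver w (Sum.inr v : Place k)}, Real.log (absV w z) =
      ∑ᶠ w ∈ {w : Place K | LiesOver w (Sum.inr v : Place k)}, Real.log (absV w z') :=
    finsum_mem_congr rfl fun w hw => h w hw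
  rw [h3, ← h2] at h1
  have n1 : Algebra.norm k z ≠ 0 := Algebra.norm_ne_zero_iff.mpr hz
  have n2 : Algebra.norm k z' ≠ 0 := Algebra.norm_ne_zero_iff.mpr hz'
  exact Real.log_injOn_pos (absV_pos _ n1) (absV_pos _ n2) h1

end FNIM

open FNIM in
/-- FNI -/
theorem specFNI (hLNX : SpecLNX) (hNCF : SpecNCF) (hUNT : SpecUNT) (hHTX : SpecHTX)
    (hABS : SpecABS) : SpecFNI := by
  intro k _ _ S q δ ℓ hgp hq C
  by_cases hδ : δ = 0
  · refine ⟨∅, 0, by simp, ?_⟩
    intro K _ _ _ x hfin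
    exfalso
    have hfd : FiniteDimensional k K := Module.Finite.right ℚ k K
    have : 0 < Module.finrank k K := Module.finrank_pos
    omega
  have hq3 : 3 ≤ q := by omega
  obtain ⟨M, Ξ, e, hcfg⟩ := hLNX k q ℓ hq3 hgp
  have hne : ∀ i, ℓ i ≠ 0 := fun i => by
    rw [← hcfg.eq i]
    exact hcfg.ne _
  obtain ⟨S', _, hinf, hunit⟩ := hUNT k S q δ ℓ hne C
  have hA : ∀ n : ℕ, ∃ (Z : Finset (Fin 3 → k)) (C' : ℝ), (∀ L ∈ Z, L ≠ 0) ∧ (1 ≤ n → n ≤ δ →
      ∀ (K : Type) [Field K] [NumberField K] [Algebra k K] (x : Fin 3 → K),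
        Module.finrank k K = n → x ≠ 0 → (∀ a, evalForm (Ξ a) x ≠ 0) →
        (∀ L ∈ Z, evalForm L x ≠ 0) → q * height x - C ≤ proximity S ℓ x → height x ≤ C') := by
    intro n
    by_cases hn : 1 ≤ n ∧ n ≤ δ
    · obtain ⟨hn1, hn2⟩ := hn
      obtain ⟨Z, C1, hZ0, hZ1⟩ := hABS k q M ℓ Ξ e hcfg n hn1 (by omega) S'
      obtain ⟨C2, hC2⟩ := hHTX k q M ℓ Ξ e hcfg n (by omega) S'
      refine ⟨Z, (C1 + C2) / n, hZ0, ?_⟩
      intro _ _ K _ _ _ x hfin hx hΞ hZ hprox
      have hℓ : ∀ i, evalForm (ℓ i) x ≠ 0 := fun i => by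
        rw [← hcfg.eq i]
        exact hΞ _
      have hmu := hunit K x (by omega) hx hℓ hprox
      have h1 : ht (nv Ξ x) ≤ C1 := by
        refine hZ1 K x hfin hΞ ?_ hZ
        intro v hv i j
        rcases v with v | v
        · exact absurd (hinf v) hv
        · refine norm_eq hNCF v _ _ (hℓ i) (hℓ j) fun w hw => ?_
          have e1 := hmu _ hv w hw i
          have e2 := hmu _ hv w hw j
          unfold mu at e1 e2
          linarith
      have h2 := hC2 K x hfin hΞ hmu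
      have hn0 : (0 : ℝ) < n := by exact_mod_cast hn1
      rw [le_div_iff₀ hn0]
      linarith
    · refine ⟨∅, 0, by simp, ?_⟩
      intro a b
      exact absurd ⟨a, b⟩ hn
  choose Zf Cf hZ0 hZ1 using hA
  refine ⟨(Finset.Icc 1 δ).biUnion Zf ∪ Finset.univ.image Ξ, ∑ n ∈ Finset.Icc 1 δ, |Cf n|, ?_, ?_⟩
  · intro L hL
    rw [Finset.mem_union, Finset.mem_biUnion, Finset.mem_image] at hL
    rcases hL with ⟨n, _, h⟩ | ⟨a, _, rfl⟩
    · exact hZ0 n L h
    · exact hcfg.ne a
  · intro K _ _ _ x hfin hx hZ hprox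
    have hfd : FiniteDimensional k K := Module.Finite.right ℚ k K
    have hpos : 0 < Module.finrank k K := Module.finrank_pos
    have hmem : Module.finrank k K ∈ Finset.Icc 1 δ := Finset.mem_Icc.mpr ⟨hpos, hfin⟩
    have h1 := hZ1 _ hpos hfin K x rfl hx
      (fun a => hZ _ (Finset.mem_union_right _ (Finset.mem_image_of_mem _ (Finset.mem_univ a))))
      (fun L hL => hZ L (Finset.mem_union_left _ (Finset.mem_biUnion.mpr ⟨_, hmem, hL⟩))) hprox
    refine h1.trans ((le_abs_self _).trans ?_)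
    exact Finset.single_le_sum (f := fun n => |Cf n|) (fun _ _ => abs_nonneg _) hmem

end Pool.Agent.Lib.MP_d0e829_nt.SI
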