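import Pool.Agent.Lib.MP_d0e829_nt.SI.Spec

/-! # Module GFI: a quotient of two forms with finitely many values is constant. -/

set_option autoImplicit false

open NumberField MvPolynomial
open Pool.Agent.Lib.MP_d0e829_nt.SS

namespace Pool.Agent.Lib.MP_d0e829_nt.SI

open scoped Classical

namespace GFIM

lemma sm_biUnion {Ω ι : Type} {Sm : Set Ω → Prop} (hSm : SmSys Sm) (E : Finset ι)
    (T : ι → Set Ω) (h : ∀ c ∈ E, Sm (T c)) : Sm (⋃ c ∈ E, T c) := by
  induction E using Finset.induction_on with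
  | empty =>
    have h0 : (⋃ c ∈ (∅ : Finset ι), T c) = ∅ := by simp
    rw [h0]
    exact hSm.1
  | insert a E ha ih =>
    rw [Finset.set_biUnion_insert]
    exact hSm.2.2 _ _ (h a (Finset.mem_insert_self a E))
      (ih fun c hc => h c (Finset.mem_insert_of_mem hc))

end GFIM

theorem specGFI : SpecGFI := by
  intro k _ Ω M f Sm hSm A hA m P Q hP hQ B E hB hE hval
  by_contra hcon
  push Not at hcon
  apply hA.1
  refine hSm.2.1 A (B ∪ ⋃ c ∈ hE.toFinset, {ω | ω ∈ A ∧ eval (f ω) (P - C c * Q) = 0}) ?_ ?_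
  · intro ω hω
    by_cases hωB : ω ∈ B
    · exact Or.inl hωB
    · right
      obtain ⟨h1, h2⟩ := hval ω hω hωB
      refine Set.mem_biUnion (x := eval (f ω) P / eval (f ω) Q) (hE.mem_toFinset.mpr h2) ?_
      refine ⟨hω, ?_⟩
      rw [map_sub, map_mul, eval_C, div_mul_cancel₀ _ h1, sub_self]
  · refine hSm.2.2 _ _ hB (GFIM.sm_biUnion hSm _ _ ?_)
    intro c _
    refine hA.2 m _ ?_ ?_
    · refine hP.sub ?_
      have := (isHomogeneous_C (Fin M) c).mul hQ
      rwa [zero_add] at this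
    · obtain ⟨ω, hω, hne⟩ := hcon c
      refine ⟨ω, hω, ?_⟩
      rw [map_sub, map_mul, eval_C]
      exact sub_ne_zero.mpr hne

end Pool.Agent.Lib.MP_d0e829_nt.SI
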