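import Pool.Agent.Lib.MP_d0e829_nt.SI.Spec

/-!
# Module GRW: linear growth
-/

set_option autoImplicit false

open MvPolynomial
open Pool.Agent.Lib.MP_d0e829_nt.SS

namespace Pool.Agent.Lib.MP_d0e829_nt.SI

namespace GRWM

variable {k R : Type} [Field k] [CommRing R] [Algebra k R]

/-- the reduced monomials of degree `m` -/
noncomputable def red {M : ℕ} (x : Fin M → R) (S T : R) (D : Fin M → ℕ) (m : ℕ)
    (p : Fin (m + 1) × (∀ a : Fin M, Fin (D a))) : R :=
  S ^ (p.1 : ℕ) * T ^ (m - p.1 - ∑ a, (p.2 a : ℕ)) * ∏ a, x a ^ (p.2 a : ℕ)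

/-- their span -/
noncomputable def W (k : Type) [Field k] {R : Type} [CommRing R] [Algebra k R] {M : ℕ} (x : Fin M → R)
    (S T : R) (D : Fin M → ℕ) (m : ℕ) : Submodule k R :=
  Submodule.span k (Set.range (red x S T D m))

theorem prod_pow_mem {N : ℕ} (S T : R) (y : Fin N → R)
    (hy : ∀ j, ∃ c : k, y j = c • S ∨ y j = c • T) (b : Fin N → ℕ) (s : Finset (Fin N)) :
    ∃ (c : k) (i l : ℕ), i + l = ∑ j ∈ s, b j ∧ ∏ j ∈ s, y j ^ b j = c • (S ^ i * T ^ l) := by
  classical
  induction s using Finset.induction_on with
  | empty => exact ⟨1, 0, 0, by simp, by simp⟩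
  | insert j s hj ih =>
    obtain ⟨c, i, l, hil, he⟩ := ih
    obtain ⟨d, hd⟩ := hy j
    rw [Finset.sum_insert hj, Finset.prod_insert hj, he]
    rcases hd with hd | hd
    · refine ⟨d ^ b j * c, b j + i, l, by omega, ?_⟩
      rw [hd, smul_pow, smul_mul_smul_comm, pow_add, mul_assoc]
    · refine ⟨d ^ b j * c, i, b j + l, by omega, ?_⟩
      rw [hd, smul_pow, smul_mul_smul_comm, pow_add]
      congr 1
      ring

/-- the relation in the form which is used -/
theorem rel {N : ℕ} (S T z : R) (y : Fin N → R) (hy : ∀ j, ∃ c : k, y j = c • S ∨ y j = c • T)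
    (D : ℕ) (P : MvPolynomial (Option (Fin N)) k) (hP : P.IsHomogeneous D)
    (hc : P.coeff (Finsupp.single none D) = 1)
    (h0 : aeval (fun o : Option (Fin N) => o.elim z y) P = 0) :
    z ^ D ∈ Submodule.span k {w : R | ∃ e i l : ℕ, e + i + l = D ∧ e < D ∧
      w = z ^ e * (S ^ i * T ^ l)} := by
  classical
  set g : Option (Fin N) → R := fun o => o.elim z y with hg
  have h1 : aeval g P = ∑ β ∈ P.support, P.coeff β • ∏ o, g o ^ β o := by
    rw [aeval_def, eval₂_eq']
    refine Finset.sum_congr rfl fun β _ => ?_
    rw [Algebra.smul_def]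
  have hmem : Finsupp.single none D ∈ P.support := by
    rw [mem_support_iff, hc]
    exact one_ne_zero
  rw [h0, ← Finset.add_sum_erase _ _ hmem, hc, one_smul] at h1
  have h2 : ∏ o, g o ^ (Finsupp.single none D : Option (Fin N) →₀ ℕ) o = z ^ D := by
    rw [Fintype.prod_option, Finsupp.single_eq_same]
    have : ∏ j, g (some j) ^ (Finsupp.single none D : Option (Fin N) →₀ ℕ) (some j) = 1 := by
      refine Finset.prod_eq_one fun j _ => ?_
      rw [Finsupp.single_eq_of_ne (by simp), pow_zero]
    rw [this, mul_one]
    rfl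
  rw [h2] at h1
  have h3 : z ^ D = -∑ β ∈ P.support.erase (Finsupp.single none D),
      P.coeff β • ∏ o, g o ^ β o := by
    rw [eq_neg_iff_add_eq_zero]
    exact h1.symm
  rw [h3]
  refine Submodule.neg_mem _ (Submodule.sum_mem _ fun β hβ => Submodule.smul_mem _ _ ?_)
  rw [Finset.mem_erase, mem_support_iff] at hβ
  have hdeg : β none + ∑ j, β (some j) = D := by
    have h4 := hP hβ.2
    rw [Finsupp.weight_apply, Finsupp.sum_fintype] at h4
    · simp only [Pi.one_apply, smul_eq_mul, mul_one] at h4
      rw [Fintype.sum_option] at h4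
      exact h4
    · intro i
      simp
  rw [Fintype.prod_option]
  obtain ⟨c, i, l, hil, he⟩ := prod_pow_mem (k := k) S T y hy (fun j => β (some j)) Finset.univ
  have he' : ∏ j, g (some j) ^ β (some j) = c • (S ^ i * T ^ l) := he
  have hgn : g none = z := rfl
  rw [he', hgn, mul_smul_comm]
  refine Submodule.smul_mem _ _ (Submodule.subset_span ⟨β none, i, l, by omega, ?_, rfl⟩)
  by_contra hlt
  apply hβ.1
  have h5 : ∑ j, β (some j) = 0 := by omega
  have h6 : β none = D := by omega
  ext o
  rcases o with _ | j
  · rw [h6, Finsupp.single_eq_same]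
  · rw [Finsupp.single_eq_of_ne (by simp)]
    exact (Finset.sum_eq_zero_iff.1 h5) j (Finset.mem_univ j)

theorem key {M : ℕ} (x : Fin M → R) (S T : R) (D : Fin M → ℕ)
    (hrel : ∀ a, x a ^ D a ∈ Submodule.span k {w : R | ∃ e i l : ℕ, e + i + l = D a ∧ e < D a ∧
      w = x a ^ e * (S ^ i * T ^ l)}) (m : ℕ) :
    ∀ (n : ℕ) (γ : Fin M → ℕ) (i l : ℕ), ∑ a, γ a = n → i + l + n = m →
      S ^ i * T ^ l * ∏ a, x a ^ γ a ∈ W k x S T D m := by
  classical
  intro n
  induction n using Nat.strong_induction_on with
  | _ n ih =>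
    intro γ i l hγ hm
    by_cases hall : ∀ a, γ a < D a
    · apply Submodule.subset_span
      refine ⟨(⟨i, by omega⟩, fun a => ⟨γ a, hall a⟩), ?_⟩
      simp only [red]
      rw [hγ]
      have : m - i - n = l := by omega
      rw [this]
    · push Not at hall
      obtain ⟨a, ha⟩ := hall
      set γ' : Fin M → ℕ := Function.update γ a (γ a - D a) with hγ'
      have hsplit : ∀ e : ℕ, ∏ b, x b ^ (Function.update γ a (γ a - D a + e)) b =
          x a ^ e * ∏ b, x b ^ γ' b := by
        intro e
        rw [← Finset.mul_prod_erase Finset.univ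
            (fun b => x b ^ (Function.update γ a (γ a - D a + e)) b) (Finset.mem_univ a),
          ← Finset.mul_prod_erase Finset.univ (fun b => x b ^ γ' b) (Finset.mem_univ a)]
        have h1 : ∏ b ∈ Finset.univ.erase a, x b ^ (Function.update γ a (γ a - D a + e)) b =
            ∏ b ∈ Finset.univ.erase a, x b ^ γ' b := by
          refine Finset.prod_congr rfl fun b hb => ?_
          have hba : b ≠ a := (Finset.mem_erase.1 hb).1
          rw [hγ', Function.update_of_ne hba, Function.update_of_ne hba]
        rw [h1, hγ', Function.update_self, Function.update_self, pow_add]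
        ring
      have hsum : ∀ e : ℕ, ∑ b, (Function.update γ a (γ a - D a + e)) b = n - D a + e := by
        intro e
        rw [← Finset.add_sum_erase _ _ (Finset.mem_univ a), Function.update_self]
        have h1 : ∑ b ∈ Finset.univ.erase a, (Function.update γ a (γ a - D a + e)) b =
            ∑ b ∈ Finset.univ.erase a, γ b := by
          refine Finset.sum_congr rfl fun b hb => ?_
          have hba : b ≠ a := (Finset.mem_erase.1 hb).1
          rw [Function.update_of_ne hba]
        have h2 : γ a + ∑ b ∈ Finset.univ.erase a, γ b = n := by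
          rw [Finset.add_sum_erase _ _ (Finset.mem_univ a)]
          exact hγ
        rw [h1]
        omega
      have hle : γ a ≤ n := by
        rw [← hγ]
        exact Finset.single_le_sum (f := γ) (fun _ _ => Nat.zero_le _) (Finset.mem_univ a)
      have hprod : ∏ b, x b ^ γ b = x a ^ D a * ∏ b, x b ^ γ' b := by
        rw [← hsplit (D a)]
        congr 1
        ext b
        by_cases hb : b = a
        · subst hb
          rw [Function.update_self]
          congr 1
          omega
        · rw [Function.update_of_ne hb]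
      rw [hprod]
      have hgoal : ∀ z ∈ Submodule.span k {w : R | ∃ e i l : ℕ, e + i + l = D a ∧ e < D a ∧
          w = x a ^ e * (S ^ i * T ^ l)},
          S ^ i * T ^ l * (z * ∏ b, x b ^ γ' b) ∈ W k x S T D m := by
        intro z hz
        induction hz using Submodule.span_induction with
        | mem z hz =>
          obtain ⟨e, i', l', h1, h2, rfl⟩ := hz
          have h3 := ih (n - D a + e) (by omega) (Function.update γ a (γ a - D a + e)) (i + i')
            (l + l') (hsum e) (by omega)
          rw [hsplit e] at h3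
          have h4 : S ^ i * T ^ l * (x a ^ e * (S ^ i' * T ^ l') * ∏ b, x b ^ γ' b) =
              S ^ (i + i') * T ^ (l + l') * (x a ^ e * ∏ b, x b ^ γ' b) := by
            rw [pow_add, pow_add]
            ring
          rw [h4]
          exact h3
        | zero => rw [zero_mul, mul_zero]; exact Submodule.zero_mem _
        | add z w _ _ hz hw => rw [add_mul, mul_add]; exact Submodule.add_mem _ hz hw
        | smul c z _ hz => rw [smul_mul_assoc, mul_smul_comm]; exact Submodule.smul_mem _ c hz
      exact hgoal _ (hrel a)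

end GRWM

open GRWM

theorem specGRW : SpecGRW := by
  classical
  intro k _ Ω M f A s t N J hJ hIE
  choose D P hD hP hc h0 using hIE
  let x : Fin M → (A → k) := fun a ω => f ω a
  have hy : ∀ j, ∃ c : k, x (J j) = c • x s ∨ x (J j) = c • x t := by
    intro j
    obtain ⟨c, hc⟩ := hJ j
    refine ⟨c, ?_⟩
    rcases hc with hc | hc
    · left
      ext ω
      exact hc ω.1 ω.2
    · right
      ext ω
      exact hc ω.1 ω.2
  have hrel : ∀ a, x a ^ D a ∈ Submodule.span k {w : A → k | ∃ e i l : ℕ, e + i + l = D a ∧
      e < D a ∧ w = x a ^ e * (x s ^ i * x t ^ l)} := by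
    intro a
    refine rel (x s) (x t) (x a) (fun j => x (J j)) hy (D a) (P a) (hP a) (hc a) ?_
    ext ω
    have h1 := h0 a ω.1 ω.2
    have h2 : (aeval (fun o : Option (Fin N) => o.elim (x a) fun j => x (J j)) (P a)) ω =
        eval (fun o : Option (Fin N) => o.elim (f ω a) (fun j => f ω (J j))) (P a) := by
      have h3 := congrArg (fun φ => φ (P a)) (comp_aeval (R := k)
        (f := fun o : Option (Fin N) => o.elim (x a) fun j => x (J j))
        (Pi.evalAlgHom k (fun _ : A => k) ω))
      have h4 : (aeval (fun o : Option (Fin N) => o.elim (x a) fun j => x (J j)) (P a)) ω =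
          aeval (fun o : Option (Fin N) => (Pi.evalAlgHom k (fun _ : A => k) ω)
            (o.elim (x a) fun j => x (J j))) (P a) := h3
      have h5 : (fun o : Option (Fin N) => (Pi.evalAlgHom k (fun _ : A => k) ω)
          (o.elim (x a) fun j => x (J j))) =
          fun o : Option (Fin N) => o.elim (f ω a) (fun j => f ω (J j)) := by
        funext o
        cases o <;> rfl
      rw [h4, h5]
      exact congrArg (fun φ : MvPolynomial (Option (Fin N)) k →+* k => φ (P a))
        (coe_aeval_eq_eval _)
    rw [h2, h1]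
    rfl
  refine ⟨2 * ∏ a, (D a : ℝ), fun m hm => ?_⟩
  have hle : FS f A m ≤ W k x (x s) (x t) D m := by
    rintro _ ⟨p, hp, rfl⟩
    have hp' : p.IsHomogeneous m := hp
    have h1 : (evA f A) p = ∑ β ∈ p.support, p.coeff β • ∏ a, x a ^ β a := by
      have : (evA f A) p = aeval x p := rfl
      rw [this, aeval_def, eval₂_eq']
      refine Finset.sum_congr rfl fun β _ => ?_
      rw [Algebra.smul_def]
    have h1' : (evA f A).toLinearMap p = ∑ β ∈ p.support, p.coeff β • ∏ a, x a ^ β a := h1
    rw [h1']
    refine Submodule.sum_mem _ fun β hβ => Submodule.smul_mem _ _ ?_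
    have hdeg : ∑ a, β a = m := by
      have h4 := hp' (mem_support_iff.1 hβ)
      rw [Finsupp.weight_apply, Finsupp.sum_fintype] at h4
      · simp only [Pi.one_apply, smul_eq_mul, mul_one] at h4
        exact h4
      · intro i
        simp
    have h5 := key (k := k) x (x s) (x t) D hrel m m (fun a => β a) 0 0 hdeg (by omega)
    rw [pow_zero, pow_zero, one_mul, one_mul] at h5
    exact h5
  have : FiniteDimensional k (W k x (x s) (x t) D m) :=
    FiniteDimensional.span_of_finite k (Set.finite_range _)
  have h1 : Module.finrank k (FS f A m) ≤ Module.finrank k (W k x (x s) (x t) D m) :=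
    Submodule.finrank_mono hle
  have h2 : Module.finrank k (W k x (x s) (x t) D m) ≤ (m + 1) * ∏ a, D a := by
    have h3 := finrank_range_le_card (R := k) (red x (x s) (x t) D m)
    rw [Fintype.card_prod, Fintype.card_fin, Fintype.card_pi] at h3
    simp only [Fintype.card_fin] at h3
    exact h3
  have h3 : (Module.finrank k (FS f A m) : ℝ) ≤ ((m + 1) * ∏ a, D a : ℕ) := by
    exact_mod_cast h1.trans h2
  refine h3.trans ?_
  push_cast
  have h4 : (0 : ℝ) ≤ ∏ a, (D a : ℝ) := Finset.prod_nonneg fun a _ => Nat.cast_nonneg _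
  have h5 : (1 : ℝ) ≤ m := by exact_mod_cast hm
  nlinarith

end Pool.Agent.Lib.MP_d0e829_nt.SI
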