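import Pool.Agent.Lib.MP_d0e829_nt.SI.Spec

/-! HTX: heights of integral points. -/

set_option autoImplicit false

open NumberField MvPolynomial
open Pool.Agent.Lib.MP_d0e829_nt.SS

namespace Pool.Agent.Lib.MP_d0e829_nt.SI

open scoped Classical

namespace HTXM

variable {k : Type} [Field k] [NumberField k] {K : Type} [Field K] [NumberField K] [Algebra k K]

omit [NumberField k] in
lemma support_mu (M : Fin 3 → k) {x : Fin 3 → K} (hx : evalForm M x ≠ 0) :
    (Function.support fun w : Place K => mu M w x).Finite := by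
  obtain ⟨_, hx0⟩ := evalForm_ne_zero_imp hx
  refine ((support_log_normV_finite hx0).union (support_log_absV_finite hx)).subset ?_
  intro w hw
  by_contra hcon
  simp only [Set.mem_union, Function.mem_support, not_or, not_not] at hcon
  apply hw
  simp only
  unfold mu
  rw [hcon.1, hcon.2, sub_zero]

omit [NumberField k] in
lemma finsum_mu (M : Fin 3 → k) {x : Fin 3 → K} (hx : evalForm M x ≠ 0) :
    ∑ᶠ w : Place K, mu M w x = height x := by
  obtain ⟨_, hx0⟩ := evalForm_ne_zero_imp hx
  unfold mu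
  rw [finsum_sub_distrib (support_log_normV_finite hx0) (support_log_absV_finite hx),
    product_formula hx, sub_zero]
  rfl

lemma height_eq (hSUP : SpecSUP) (S' : Finset (Place k)) (M : Fin 3 → k) {x : Fin 3 → K}
    (hx : evalForm M x ≠ 0)
    (h0 : ∀ v ∉ S', ∀ w : Place K, LiesOver w v → mu M w x = 0) :
    height x = ∑ v ∈ S', up v (fun w : Place K => mu M w x) := by
  have h := ((hSUP k K).2 (fun w : Place K => mu M w x) (support_mu M hx)).2
  rw [finsum_mu M hx] at h
  rw [← h]
  refine finsum_eq_sum_of_support_subset _ ?_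
  intro v hv
  by_contra hcon
  apply hv
  have hv' : v ∉ S' := by simpa using hcon
  show up v (fun w : Place K => mu M w x) = 0
  unfold up
  exact finsum_mem_eq_zero_of_forall_eq_zero (fun w hw => h0 v hv' w hw)

end HTXM

open HTXM in
/-- Heights of integral points. -/
theorem specHTX (hTRV : SS.SpecTRV) (hLOA : SpecLOA) (hSUP : SpecSUP) : SpecHTX := by
  intro k _ _ q M ℓ Ξ e hcfg n hnq S'
  obtain ⟨C, hC, hLOA'⟩ := hLOA k q M ℓ Ξ e hcfg n hnq
  have hq : 0 < q := by have := hcfg.three; omega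
  let i : Fin q := ⟨0, hq⟩
  obtain ⟨C₂, hC₂, hTRV'⟩ := (hTRV k M).1 S' (Pi.single (e i) 1)
  refine ⟨C₂ + S'.card * C, ?_⟩
  intro K _ _ _ x hn hx h0
  have : FiniteDimensional k K := FiniteDimensional.right ℚ k K
  have hdot : ∀ f : Fin M → k, (Pi.single (e i) (1 : k)) ⬝ᵥ f = f (e i) := by
    intro f
    rw [single_dotProduct, one_mul]
  have hne : (Pi.single (e i) (1 : k)) ⬝ᵥ (nv Ξ x) ≠ 0 := by
    rw [hdot]
    exact (Algebra.norm_ne_zero_iff).2 (hx (e i))
  have h1 := (hTRV' (nv Ξ x) hne).2 S' (Finset.Subset.refl _)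
  have hℓ : evalForm (ℓ i) x ≠ 0 := by
    rw [← hcfg.eq i]
    exact hx (e i)
  have h2 := height_eq hSUP S' (ℓ i) hℓ (fun v hv w hw => h0 v hv w hw i)
  have h3 : ∀ v ∈ S', (n : ℝ) * up v (fun w : Place K => mu (ℓ i) w x) ≤
      val v (Pi.single (e i) (1 : k)) (nv Ξ x) + C := by
    intro v _
    have h4 := (abs_le.1 (hLOA' K x hn hx v (e i))).1
    rw [hcfg.eq i] at h4
    have h5 : vl v (e i) (nv Ξ x) = val v (Pi.single (e i) (1 : k)) (nv Ξ x) := by
      unfold vl val
      rw [hdot]
    rw [h5] at h4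
    linarith
  have h6 := Finset.sum_le_sum h3
  rw [← Finset.mul_sum, ← h2, Finset.sum_add_distrib, Finset.sum_const, nsmul_eq_mul] at h6
  linarith

end Pool.Agent.Lib.MP_d0e829_nt.SI
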