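import Pool.Agent.Lib.MP_d0e829_nt.SI.Spec

/-! # Module HUL: the exponents are in the convex hull. -/

set_option autoImplicit false

open NumberField MvPolynomial
open Pool.Agent.Lib.MP_d0e829_nt.SS

namespace Pool.Agent.Lib.MP_d0e829_nt.SI

open scoped Classical

namespace HULM

variable {K : Type} [Field K] [NumberField K]

lemma absV_pow (v : Place K) (a : K) (n : ℕ) : absV v (a ^ n) = absV v a ^ n := by
  induction n with
  | zero => simp
  | succ n ih => rw [pow_succ, absV_mul, ih, pow_succ]

lemma absV_prod {ι : Type} (v : Place K) (s : Finset ι) (g : ι → K) :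
    absV v (∏ i ∈ s, g i) = ∏ i ∈ s, absV v (g i) := by
  induction s using Finset.induction_on with
  | empty => simp
  | insert a s ha ih => rw [Finset.prod_insert ha, Finset.prod_insert ha, absV_mul, ih]

lemma log_prod_pow {ι : Type} [Fintype ι] (v : Place K) (x : ι → K) (n : ι → ℕ)
    (hx : ∀ i, x i ≠ 0) :
    Real.log (absV v (∏ i, x i ^ n i)) = ∑ i, (n i : ℝ) * Real.log (absV v (x i)) := by
  rw [absV_prod, Real.log_prod (fun i _ => (absV_pos v (pow_ne_zero _ (hx i))).ne')]
  refine Finset.sum_congr rfl fun i _ => ?_
  rw [absV_pow, Real.log_pow]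

lemma prod_mapDomain {α β : Type} [Fintype α] [Fintype β] (ρ : α → β) (t : α →₀ ℕ) (y : β → K) :
    ∏ i, y i ^ (Finsupp.mapDomain ρ t) i = ∏ o, y (ρ o) ^ t o := by
  have h : eval y (monomial (Finsupp.mapDomain ρ t) (1 : K)) = eval (y ∘ ρ) (monomial t (1 : K)) := by
    rw [← rename_monomial, eval_rename]
  rw [eval_monomial, eval_monomial, one_mul, one_mul, Finsupp.prod_fintype _ _ (by simp),
    Finsupp.prod_fintype _ _ (by simp)] at h
  exact h

end HULM

open HULM

theorem specHUL (hUNI : SpecUNI) : SpecHUL := by
  intro k _ _ Ω M f Sm hSm A hA S U hU N J hJ hJU a ha hIE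
  by_cases haJ : ∃ j₀, J j₀ = a
  · obtain ⟨j₀, rfl⟩ := haJ
    refine ⟨Pi.single j₀ 1, ?_, ?_, ?_⟩
    · intro j
      by_cases h : j = j₀
      · subst h
        simp
      · rw [Pi.single_eq_of_ne h]
    · simp
    · intro ω _ ω₀ _ v
      rw [Finset.sum_eq_single j₀]
      · rw [Pi.single_eq_same, one_mul]
      · intro j _ hj
        rw [Pi.single_eq_of_ne hj, zero_mul]
      · intro h
        exact absurd (Finset.mem_univ j₀) h
  · push Not at haJ
    obtain ⟨D, P, hD, hP, hcoef, hvan⟩ := hIE
    set ρ : Option (Fin N) → Fin M := fun o => o.elim a J with hρdef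
    have hρ : Function.Injective ρ := by
      intro o o' h
      cases o with
      | none =>
        cases o' with
        | none => rfl
        | some j => exact absurd h.symm (haJ j)
      | some j =>
        cases o' with
        | none => exact absurd h (haJ j)
        | some j' => exact congrArg some (hJ h)
    have hρU : ∀ o, ρ o ∈ U := by
      intro o
      cases o with
      | none => exact ha
      | some j => exact hJU j
    have hQ : (rename ρ P).IsHomogeneous D := hP.rename_isHomogeneous
    have hQv : ∀ ω ∈ A, eval (f ω) (rename ρ P) = 0 := by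
      intro ω hω
      rw [eval_rename]
      have h1 : f ω ∘ ρ = fun o : Option (Fin N) => o.elim (f ω a) (fun j => f ω (J j)) := by
        funext o
        cases o <;> rfl
      rw [h1]
      exact hvan ω hω
    have hsupp : (rename ρ P).support = P.support.image (Finsupp.mapDomain ρ) :=
      support_rename_of_injective hρ
    have hsU : ∀ s ∈ (rename ρ P).support, ∀ i, s i ≠ 0 → i ∈ U := by
      intro s hs i hi
      rw [hsupp] at hs
      obtain ⟨t, _, rfl⟩ := Finset.mem_image.mp hs
      have h1 : i ∈ (Finsupp.mapDomain ρ t).support := Finsupp.mem_support_iff.mpr hi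
      have h2 := Finsupp.mapDomain_support h1
      obtain ⟨o, _, rfl⟩ := Finset.mem_image.mp h2
      exact hρU o
    have hαmem : Finsupp.single a D ∈ (rename ρ P).support := by
      rw [hsupp]
      refine Finset.mem_image.mpr ⟨Finsupp.single none D, ?_, Finsupp.mapDomain_single⟩
      rw [mem_support_iff, hcoef]
      exact one_ne_zero
    obtain ⟨β, hβ, hne, c, hc, hprod⟩ := hUNI k Ω M f Sm hSm A hA S U hU D (rename ρ P) hQ hsU
      hQv (Finsupp.single a D) hαmem
    rw [hsupp] at hβ
    obtain ⟨t, ht, rfl⟩ := Finset.mem_image.mp hβ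
    have hdeg : t none + ∑ j, t (some j) = D := by
      have h1 := hP (mem_support_iff.mp ht)
      rw [Finsupp.weight_apply, Finsupp.sum_fintype _ _ (by simp), Fintype.sum_option] at h1
      simpa using h1
    set b : ℕ := ∑ j, t (some j) with hb
    have hbpos : 0 < b := by
      rcases Nat.eq_zero_or_pos b with h0 | h0
      · exfalso
        apply hne
        have h1 : t = Finsupp.single none D := by
          ext o
          cases o with
          | none =>
            rw [Finsupp.single_eq_same]
            omega
          | some j =>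
            rw [Finsupp.single_eq_of_ne (by simp)]
            have h2 := (Finset.sum_eq_zero_iff.mp (hb.symm.trans h0)) j (Finset.mem_univ j)
            exact h2
        rw [h1, Finsupp.mapDomain_single]
        rfl
      · exact h0
    have hbR : (0 : ℝ) < (b : ℝ) := by exact_mod_cast hbpos
    have key : ∀ ω ∈ A, ∀ v : Place k, (b : ℝ) * Real.log (absV v (f ω a)) =
        Real.log (absV v c) + ∑ j, (t (some j) : ℝ) * Real.log (absV v (f ω (J j))) := by
      intro ω hω v
      have h1 := hprod ω hω
      have hU1 := (hU ω hω).1
      have hLHS : ∏ i, f ω i ^ (Finsupp.single a D) i = f ω a ^ D := by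
        rw [Finset.prod_eq_single a]
        · rw [Finsupp.single_eq_same]
        · intro i _ hi
          rw [Finsupp.single_eq_of_ne hi, pow_zero]
        · intro h
          exact absurd (Finset.mem_univ a) h
      rw [hLHS, prod_mapDomain] at h1
      have hx : ∀ o, f ω (ρ o) ≠ 0 := fun o => hU1 _ (hρU o)
      have h2 := congrArg (fun z => Real.log (absV v z)) h1
      simp only [absV_mul, absV_pow] at h2
      rw [Real.log_pow, Real.log_mul (absV_pos v hc).ne'
        (absV_pos v (Finset.prod_ne_zero_iff.mpr fun o _ => pow_ne_zero _ (hx o))).ne',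
        log_prod_pow v (fun o => f ω (ρ o)) (fun o => t o) hx, Fintype.sum_option] at h2
      have h3 : (D : ℝ) = (t none : ℝ) + (b : ℝ) := by
        rw [← hdeg]
        push_cast
        ring
      rw [h3] at h2
      have h4 : ρ none = a := rfl
      have h5 : ∀ j, ρ (some j) = J j := fun j => rfl
      simp only [h4, h5] at h2
      linarith
    refine ⟨fun j => (t (some j) : ℝ) / b, fun j => by positivity, ?_, ?_⟩
    · rw [← Finset.sum_div, hb]
      push_cast
      refine div_self ?_
      have : ((∑ j, t (some j) : ℕ) : ℝ) ≠ 0 := by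
        rw [← hb]
        exact hbR.ne'
      push_cast at this
      exact this
    · intro ω hω ω₀ hω₀ v
      have h1 := key ω hω v
      have h2 := key ω₀ hω₀ v
      have h3 : ∑ j, (t (some j) : ℝ) / b * (Real.log (absV v (f ω (J j))) -
          Real.log (absV v (f ω₀ (J j)))) = (∑ j, (t (some j) : ℝ) * Real.log (absV v (f ω (J j))) -
          ∑ j, (t (some j) : ℝ) * Real.log (absV v (f ω₀ (J j)))) / b := by
        rw [← Finset.sum_sub_distrib, Finset.sum_div]
        refine Finset.sum_congr rfl fun j _ => ?_
        ring
      rw [h3, eq_div_iff hbR.ne']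
      linarith

end Pool.Agent.Lib.MP_d0e829_nt.SI
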