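import Pool.Agent.Lib.MP_d0e829_nt.SI.Spec

/-! # Module KRO: coordinates with proportional absolute values are proportional. -/

set_option autoImplicit false

open NumberField MvPolynomial
open Pool.Agent.Lib.MP_d0e829_nt.SS

namespace Pool.Agent.Lib.MP_d0e829_nt.SI

open scoped Classical

namespace KROM

variable {K : Type} [Field K] [NumberField K]

lemma nrm_one (v : Place K) {u : K} (hu : absV v u = 1) : nrm v ![u, 1] = 1 := by
  refine le_antisymm (nrm_le v _ zero_le_one ?_) ?_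
  · intro j
    fin_cases j
    · exact hu.le
    · exact (absV_one v).le
  · have h := absV_le_nrm v ![u, 1] 1
    have h1 : absV v ((![u, 1] : Fin 2 → K) 1) = 1 := absV_one v
    rwa [h1] at h

lemma ht_zero {u : K} (hu : ∀ v : Place K, absV v u = 1) : ht ![u, 1] = 0 := by
  unfold ht
  rw [finsum_congr (fun v => by rw [nrm_one v (hu v), Real.log_one] : ∀ v : Place K,
    Real.log (nrm v ![u, 1]) = 0), finsum_zero]

lemma absV_inv (v : Place K) {a : K} (ha : a ≠ 0) : absV v a⁻¹ = (absV v a)⁻¹ := by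
  have h : absV v a * absV v a⁻¹ = 1 := by
    rw [← absV_mul, mul_inv_cancel₀ ha, absV_one]
  exact eq_inv_of_mul_eq_one_right h

end KROM

open KROM

theorem specKRO (hNTH : SpecNTH) (hGFI : SpecGFI) : SpecKRO := by
  intro k _ _ Ω M f Sm hSm A hA i j hne ω₀ hω₀ hlog
  obtain ⟨hi0, hj0⟩ := hne ω₀ hω₀
  set r : k := f ω₀ i / f ω₀ j with hr
  have hr0 : r ≠ 0 := div_ne_zero hi0 hj0
  have hval : ∀ ω ∈ A, ω ∉ (∅ : Set Ω) → eval (f ω) (X j : MvPolynomial (Fin M) k) ≠ 0 ∧
      eval (f ω) (X i : MvPolynomial (Fin M) k) / eval (f ω) (X j : MvPolynomial (Fin M) k) ∈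
        (fun u : k => u * r) '' {u : k | ht ![u, 1] ≤ 0} := by
    intro ω hω _
    obtain ⟨hi, hj⟩ := hne ω hω
    rw [eval_X, eval_X]
    refine ⟨hj, f ω i / f ω j / r, ?_, div_mul_cancel₀ _ hr0⟩
    have hq0 : f ω i / f ω j / r ≠ 0 := div_ne_zero (div_ne_zero hi hj) hr0
    refine (ht_zero (u := f ω i / f ω j / r) fun v => ?_).le
    have h1 := hlog ω hω v
    have e1 : absV v (f ω i / f ω j) = absV v (f ω i) / absV v (f ω j) := by
      rw [div_eq_mul_inv, absV_mul, absV_inv v hj, div_eq_mul_inv]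
    have e2 : absV v (f ω₀ i / f ω₀ j) = absV v (f ω₀ i) / absV v (f ω₀ j) := by
      rw [div_eq_mul_inv, absV_mul, absV_inv v hj0, div_eq_mul_inv]
    have e3 : absV v (f ω i / f ω j / r) =
        absV v (f ω i) / absV v (f ω j) / (absV v (f ω₀ i) / absV v (f ω₀ j)) := by
      rw [div_eq_mul_inv, absV_mul, absV_inv v hr0, ← div_eq_mul_inv, e1, hr, e2]
    have p1 := absV_pos v hi
    have p2 := absV_pos v hj
    have p3 := absV_pos v hi0
    have p4 := absV_pos v hj0
    have h2 : Real.log (absV v (f ω i / f ω j / r)) = 0 := by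
      rw [e3, Real.log_div (div_pos p1 p2).ne' (div_pos p3 p4).ne', Real.log_div p1.ne' p2.ne',
        Real.log_div p3.ne' p4.ne']
      linarith
    exact Real.eq_one_of_pos_of_log_eq_zero (absV_pos v hq0) h2
  obtain ⟨c, hc⟩ := hGFI k Ω M f Sm hSm A hA 1 (X i) (X j) (isHomogeneous_X _ _)
    (isHomogeneous_X _ _) ∅ ((fun u : k => u * r) '' {u : k | ht ![u, 1] ≤ 0}) hSm.1
    ((hNTH k 0).image _) hval
  refine ⟨c, fun ω hω => ?_⟩
  have h := hc ω hω
  rwa [eval_X, eval_X] at h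

end Pool.Agent.Lib.MP_d0e829_nt.SI
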