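import Pool.Agent.Lib.MP_d0e829_nt.SI.Spec

/-! Module LNX: auxiliary lines. -/

set_option autoImplicit false

open NumberField MvPolynomial
open Pool.Agent.Lib.MP_d0e829_nt.SS

namespace Pool.Agent.Lib.MP_d0e829_nt.SI

open scoped Classical

theorem specLNX : SpecLNX := by
  intro k _ q ℓ hq hgp
  have hli : ∀ a b : Fin q, a ≠ b → LinearIndependent k ![ℓ a, ℓ b] := by
    intro a b hab
    obtain ⟨c, hca, hcb⟩ := exists_third hq a b
    exact pair_of_triple (hgp a b c hab hca.symm hcb.symm)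
  have hne : ∀ a : Fin q, ℓ a ≠ 0 := by
    intro a
    obtain ⟨c, hca, -⟩ := exists_third hq a a
    have h := (hli a c hca.symm).ne_zero 0
    simpa using h
  have hM : ∀ t : Fin q × Fin q × Fin q × Fin q, ∃ M : Fin 3 → k, M ≠ 0 ∧
      (t.1 ≠ t.2.1 → t.2.2.1 ≠ t.2.2.2 → ∃ α β γ η : k,
        M = α • ℓ t.1 + β • ℓ t.2.1 ∧ M = γ • ℓ t.2.2.1 + η • ℓ t.2.2.2) := by
    rintro ⟨a, b, c, d⟩
    by_cases hab : a ≠ b ∧ c ≠ d
    · obtain ⟨M, α, β, γ, η, hM0, h1, h2⟩ := exists_common (hli a b hab.1) (hli c d hab.2)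
      exact ⟨M, hM0, fun _ _ => ⟨α, β, γ, η, h1, h2⟩⟩
    · refine ⟨ℓ a, hne a, fun h1 h2 => ?_⟩
      exact absurd ⟨h1, h2⟩ hab
  choose M hM0 hMc using hM
  let ι := Fin q ⊕ (Fin q × Fin q × Fin q × Fin q)
  let E : ι ≃ Fin (Fintype.card ι) := Fintype.equivFin ι
  let Ξ : Fin (Fintype.card ι) → Fin 3 → k := fun a => Sum.elim ℓ M (E.symm a)
  refine ⟨Fintype.card ι, Ξ, fun i => E (Sum.inl i), ⟨hq, hgp, ?_, ?_, ?_, ?_⟩⟩
  · intro i j hij
    exact Sum.inl_injective (E.injective hij)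
  · intro i
    change Sum.elim ℓ M (E.symm (E (Sum.inl i))) = ℓ i
    rw [Equiv.symm_apply_apply]
    rfl
  · intro a
    change Sum.elim ℓ M (E.symm a) ≠ 0
    rcases E.symm a with i | t
    · exact hne i
    · exact hM0 t
  · intro a b c d hab hcd
    obtain ⟨α, β, γ, η, h1, h2⟩ := hMc (a, b, c, d) hab hcd
    refine ⟨E (Sum.inr (a, b, c, d)), α, β, γ, η, ?_, ?_⟩
    · change Sum.elim ℓ M (E.symm (E (Sum.inr (a, b, c, d)))) = _
      rw [Equiv.symm_apply_apply]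
      exact h1
    · change Sum.elim ℓ M (E.symm (E (Sum.inr (a, b, c, d)))) = _
      rw [Equiv.symm_apply_apply]
      exact h2

end Pool.Agent.Lib.MP_d0e829_nt.SI
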