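import Pool.Agent.Lib.MP_d0e829_nt.SI.Spec

/-!
MP_d0e829_nt, module LOA of the hive SI: local terms of the vector of norms and local proximities.
-/

set_option autoImplicit false

open NumberField MvPolynomial
open Pool.Agent.Lib.MP_d0e829_nt.SS

namespace Pool.Agent.Lib.MP_d0e829_nt.SI

open scoped Classical

namespace LOAM

section

variable {k : Type} [Field k] [NumberField k] {K : Type} [Field K] [NumberField K] [Algebra k K]

theorem logN (hNCI : SpecNCI) (hNCF : SpecNCF) (v : Place k) {z : K} (hz : z ≠ 0) :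
    Real.log (absV v (Algebra.norm k z)) =
      Module.finrank k K * up v (fun w : Place K => Real.log (absV w z)) := by
  cases v with
  | inl v => exact hNCI k K v z hz
  | inr v => exact hNCF k K v z hz

variable (K) in
/-- the places above `v` -/
noncomputable def ab (v : Place k) : Finset (Place K) := (finite_above (K := K) v).1.toFinset

theorem up_eq (v : Place k) (g : Place K → ℝ) : up v g = ∑ w ∈ ab K v, g w := by
  unfold up ab
  exact finsum_mem_eq_finite_toFinset_sum _ (finite_above v).1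

theorem card_ab (v : Place k) : (ab K v).card ≤ Module.finrank k K := by
  unfold ab
  rw [← Set.ncard_eq_toFinset_card _ (finite_above (K := K) v).1]
  exact (finite_above (K := K) v).2

end

/-- some index is good at all places of a small set -/
theorem exists_good {q n : ℕ} (hq : 2 ≤ q) (hn : 2 * n + 1 ≤ q) {α : Type} (G : Finset α)
    (hG : G.card ≤ n) (f : Fin q → α → ℝ) (err : α → ℝ)
    (h : ∀ w i j l, i ≠ j → i ≠ l → j ≠ l → f i w ≤ err w ∨ f j w ≤ err w ∨ f l w ≤ err w) :
    ∃ i, ∀ w ∈ G, f i w ≤ err w := by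
  have hsel : ∀ w : α, ∃ a b, a ≠ b ∧ f b w ≤ f a w ∧
      ∀ i, i ≠ a → i ≠ b → f i w ≤ err w := by
    intro w
    exact top_two hq (fun i => f i w) (err w) (fun i j l hij hil hjl => h w i j l hij hil hjl)
  choose a b _ _ hrest using hsel
  have hcard : (G.image a ∪ G.image b).card < (Finset.univ : Finset (Fin q)).card := by
    rw [Finset.card_univ, Fintype.card_fin]
    have h1 := Finset.card_union_le (G.image a) (G.image b)
    have h2 : (G.image a).card ≤ G.card := Finset.card_image_le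
    have h3 : (G.image b).card ≤ G.card := Finset.card_image_le
    omega
  obtain ⟨i, _, hi⟩ := Finset.exists_mem_notMem_of_card_lt_card hcard
  refine ⟨i, fun w hw => hrest w i ?_ ?_⟩
  · intro hia
    exact hi (Finset.mem_union_left _ (hia ▸ Finset.mem_image_of_mem a hw))
  · intro hib
    exact hi (Finset.mem_union_right _ (hib ▸ Finset.mem_image_of_mem b hw))

end LOAM

open LOAM in
theorem specLOA (hNCI : SpecNCI) (hNCF : SpecNCF) : SpecLOA := by
  intro k _ _ q M ℓ Ξ e hcfg n hnq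
  have h3 : ∀ i j l : Fin q, ∃ A : Finset k, i ≠ j → i ≠ l → j ≠ l → ∀ A' : Finset k, A ⊆ A' →
      ∀ (K : Type) [Field K] [NumberField K] [Algebra k K] (w : Place K) (x : Fin 3 → K),
      evalForm (ℓ i) x ≠ 0 → evalForm (ℓ j) x ≠ 0 → evalForm (ℓ l) x ≠ 0 →
      mu (ℓ i) w x ≤ err A' w ∨ mu (ℓ j) w x ≤ err A' w ∨ mu (ℓ l) w x ≤ err A' w := by
    intro i j l
    by_cases hd : i ≠ j ∧ i ≠ l ∧ j ≠ l
    · obtain ⟨A, hA⟩ := exists_three_lines (hcfg.gp i j l hd.1 hd.2.1 hd.2.2)
      exact ⟨A, fun _ _ _ => hA⟩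
    · exact ⟨∅, fun h1 h2 h3 => absurd ⟨h1, h2, h3⟩ hd⟩
  choose A3 hA3 using h3
  set A : Finset k :=
    (Finset.univ : Finset (Fin q × Fin q × Fin q)).biUnion (fun t => A3 t.1 t.2.1 t.2.2) ∪
      (Finset.univ : Finset (Fin M × Fin 3)).image (fun t => Ξ t.1 t.2) with hA
  have hA3' : ∀ i j l, A3 i j l ⊆ A := by
    intro i j l y hy
    refine Finset.mem_union_left _ ?_
    exact Finset.mem_biUnion.mpr ⟨(i, j, l), Finset.mem_univ _, hy⟩
  have hAΞ : ∀ a j, Ξ a j ∈ A := by
    intro a j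
    exact Finset.mem_union_right _ (Finset.mem_image.mpr ⟨(a, j), Finset.mem_univ _, rfl⟩)
  obtain ⟨E₀, hE₀⟩ := exists_bound_err A
  set E := max E₀ 0 with hE
  have hE0 : 0 ≤ E := le_max_right _ _
  have hn0 : (0 : ℝ) ≤ n := Nat.cast_nonneg n
  refine ⟨n * E, mul_nonneg hn0 hE0, ?_⟩
  intro K _ _ _ x hn hx v a
  have hEK : ∑ᶠ w : Place K, err A w ≤ E := (hE₀ K).trans (le_max_left _ _)
  have hsumE : ∑ w ∈ ab K v, err A w ≤ E :=
    (sum_le_finsum (fun w => err_nonneg A w) (support_err_finite A) (ab K v)).trans hEK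
  have hℓx : ∀ i, evalForm (ℓ i) x ≠ 0 := fun i => by
    rw [← hcfg.eq i]; exact hx _
  have hfd : FiniteDimensional k K := Module.Finite.of_restrictScalars_finite ℚ k K
  have hN0 : ∀ a, nv Ξ x a ≠ 0 := fun a => by
    simp only [nv]
    exact (Algebra.norm_ne_zero_iff).mpr (hx a)
  set X : ℝ := n * ∑ w ∈ ab K v, Real.log (normV w x) with hX
  -- the absolute value of a norm
  have hlog : ∀ a, Real.log (absV v (nv Ξ x a)) = X - n * ∑ w ∈ ab K v, mu (Ξ a) w x := by
    intro a
    have h1 := logN hNCI hNCF v (hx a)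
    rw [hn, up_eq] at h1
    have h2 : Real.log (absV v (nv Ξ x a)) =
        n * ∑ w ∈ ab K v, Real.log (absV w (evalForm (Ξ a) x)) := h1
    rw [h2, hX, ← mul_sub, ← Finset.sum_sub_distrib]
    congr 1
    refine Finset.sum_congr rfl fun w _ => ?_
    unfold mu
    ring
  have hup : up v (fun w : Place K => mu (Ξ a) w x) = ∑ w ∈ ab K v, mu (Ξ a) w x := up_eq v _
  have hgoal : vl v a (nv Ξ x) - n * up v (fun w : Place K => mu (Ξ a) w x) =
      Real.log (nrm v (nv Ξ x)) - X := by
    unfold vl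
    rw [hlog a, hup]
    ring
  rw [hgoal, abs_le]
  have hbdd : BddAbove (Set.range fun b => absV v (nv Ξ x b)) := (Set.finite_range _).bddAbove
  constructor
  · -- lower bound
    obtain ⟨i, hi⟩ := exists_good (by have := hcfg.three; omega) hnq (ab K v)
      ((card_ab v).trans hn.le) (fun i w => mu (ℓ i) w x) (fun w => err A w)
      (fun w i j l hij hil hjl => hA3 i j l hij hil hjl A (hA3' i j l) K w x (hℓx i) (hℓx j)
        (hℓx l))
    have h1 : absV v (nv Ξ x (e i)) ≤ nrm v (nv Ξ x) := le_ciSup hbdd (e i)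
    have h2 := Real.log_le_log (absV_pos v (hN0 (e i))) h1
    rw [hlog (e i)] at h2
    have h4 : ∑ w ∈ ab K v, mu (Ξ (e i)) w x ≤ E := by
      rw [hcfg.eq i]
      exact (Finset.sum_le_sum fun w hw => hi w hw).trans hsumE
    have h5 : (n : ℝ) * ∑ w ∈ ab K v, mu (Ξ (e i)) w x ≤ n * E :=
      mul_le_mul_of_nonneg_left h4 hn0
    linarith
  · -- upper bound
    have : Nonempty (Fin M) := ⟨a⟩
    obtain ⟨b, hb⟩ := exists_eq_ciSup_of_finite (f := fun a => absV v (nv Ξ x a))
    have h1 : nrm v (nv Ξ x) = absV v (nv Ξ x b) := hb.symm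
    rw [h1, hlog b]
    have h4 : - E ≤ ∑ w ∈ ab K v, mu (Ξ b) w x := by
      have h5 : - ∑ w ∈ ab K v, err A w ≤ ∑ w ∈ ab K v, mu (Ξ b) w x := by
        rw [← Finset.sum_neg_distrib]
        refine Finset.sum_le_sum fun w _ => ?_
        have := mu_add_err_nonneg (fun j => hAΞ b j) w (hx b)
        linarith
      linarith
    have h5 : (n : ℝ) * (-E) ≤ n * ∑ w ∈ ab K v, mu (Ξ b) w x :=
      mul_le_mul_of_nonneg_left h4 hn0
    linarith

end Pool.Agent.Lib.MP_d0e829_nt.SI
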