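import Pool.Agent.Lib.MP_d0e829_nt.SI.Spec

/-!
# LOB: the local inequality
-/

set_option autoImplicit false

open NumberField MvPolynomial
open Pool.Agent.Lib.MP_d0e829_nt.SS

namespace Pool.Agent.Lib.MP_d0e829_nt.SI

namespace LOBM

lemma sum_pair_le {α : Type} [DecidableEq α] (F : α → ℝ) (B : ℝ) (G : Finset α)
    (h : ∀ w ∈ G, ∀ w' ∈ G, w ≠ w' → F w + F w' ≤ B) (hc : 2 ≤ G.card) :
    ∑ w ∈ G, F w ≤ G.card * B / 2 := by
  have h1 : ∀ w ∈ G, ∑ w' ∈ G.erase w, (F w + F w')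
      = ((G.card : ℝ) - 1) * F w + (∑ u ∈ G, F u - F w) := by
    intro w hw
    rw [Finset.sum_add_distrib, Finset.sum_const, Finset.card_erase_of_mem hw, nsmul_eq_mul,
      Nat.cast_sub (by omega), ← Finset.sum_erase_add G F hw]
    push_cast
    ring
  have h2 : ∑ w ∈ G, ∑ w' ∈ G.erase w, (F w + F w') ≤ ∑ w ∈ G, ((G.card : ℝ) - 1) * B := by
    refine Finset.sum_le_sum fun w hw => ?_
    calc ∑ w' ∈ G.erase w, (F w + F w') ≤ ∑ _w' ∈ G.erase w, B := by
          refine Finset.sum_le_sum fun w' hw' => ?_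
          have h3 := Finset.mem_erase.mp hw'
          exact h w hw w' h3.2 h3.1.symm
      _ = ((G.card : ℝ) - 1) * B := by
          rw [Finset.sum_const, Finset.card_erase_of_mem hw, nsmul_eq_mul,
            Nat.cast_sub (by omega)]
          push_cast
          ring
  rw [Finset.sum_congr rfl h1, Finset.sum_add_distrib, Finset.sum_sub_distrib, ← Finset.mul_sum,
    Finset.sum_const, Finset.sum_const, nsmul_eq_mul, nsmul_eq_mul] at h2
  have h4 : (2 : ℝ) ≤ (G.card : ℝ) := by exact_mod_cast hc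
  have h5 : 0 < (G.card : ℝ) - 1 := by linarith
  have h6 : ((G.card : ℝ) - 1) * (2 * ∑ w ∈ G, F w) ≤ ((G.card : ℝ) - 1) * (G.card * B) := by
    nlinarith [h2]
  have h7 := le_of_mul_le_mul_left h6 h5
  linarith

lemma comb {α : Type} [DecidableEq α] (G : Finset α) (n : ℕ) (hn : 2 ≤ n) (hg : G.card ≤ n)
    (P Q : α → ℝ) (V c : ℝ) (hV : 0 ≤ V) (hc : 0 ≤ c) (hP : ∀ w ∈ G, P w ≤ V + c)
    (hQ : ∀ w ∈ G, Q w ≤ V + c)
    (hpair : ∀ w ∈ G, ∀ w' ∈ G, w ≠ w' → Q w + Q w' ≤ V + c) :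
    ∑ w ∈ G, P w + ∑ w ∈ G, Q w ≤ (3 * n / 2 : ℝ) * V + 2 * n * c := by
  have hn' : (2 : ℝ) ≤ n := by exact_mod_cast hn
  have hg' : (G.card : ℝ) ≤ n := by exact_mod_cast hg
  have hPs : ∑ w ∈ G, P w ≤ G.card * (V + c) := by
    calc ∑ w ∈ G, P w ≤ ∑ _w ∈ G, (V + c) := Finset.sum_le_sum hP
      _ = G.card * (V + c) := by rw [Finset.sum_const, nsmul_eq_mul]
  have hQs : ∑ w ∈ G, Q w ≤ G.card * (V + c) := by
    calc ∑ w ∈ G, Q w ≤ ∑ _w ∈ G, (V + c) := Finset.sum_le_sum hQ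
      _ = G.card * (V + c) := by rw [Finset.sum_const, nsmul_eq_mul]
  have hVc : 0 ≤ V + c := by linarith
  rcases Nat.lt_or_ge G.card 2 with h | h
  · have h1 : (G.card : ℝ) ≤ 1 := by exact_mod_cast Nat.lt_succ_iff.mp h
    have h2 : (G.card : ℝ) * (V + c) ≤ 1 * (V + c) := mul_le_mul_of_nonneg_right h1 hVc
    have h3 : (3 : ℝ) * V ≤ (3 * n / 2 : ℝ) * V := mul_le_mul_of_nonneg_right (by linarith) hV
    have h4 : (4 : ℝ) * c ≤ 2 * n * c := mul_le_mul_of_nonneg_right (by linarith) hc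
    linarith
  · have h1 := sum_pair_le Q (V + c) G hpair h
    have h2 : (G.card : ℝ) * (V + c) ≤ n * (V + c) := mul_le_mul_of_nonneg_right hg' hVc
    have h3 : 0 ≤ (n : ℝ) * c := by positivity
    nlinarith

end LOBM

open LOBM

theorem specLOB (hLOA : SpecLOA) : SpecLOB := by
  classical
  intro k _ _ q M ℓ Ξ e hcfg n hn2 hq
  obtain ⟨C₀, hC₀, hLOA⟩ := hLOA k q M ℓ Ξ e hcfg n hq
  have hq3 := hcfg.three
  -- the joining lines
  have hJ : ∀ a b c d : Fin q, ∃ (h : Fin M) (α β γ η : k), a ≠ b → c ≠ d →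
      Ξ h = α • ℓ a + β • ℓ b ∧ Ξ h = γ • ℓ c + η • ℓ d := by
    intro a b c d
    by_cases hcase : a ≠ b ∧ c ≠ d
    · obtain ⟨h, α, β, γ, η, h1, h2⟩ := hcfg.join a b c d hcase.1 hcase.2
      exact ⟨h, α, β, γ, η, fun _ _ => ⟨h1, h2⟩⟩
    · exact ⟨e a, 0, 0, 0, 0, fun h1 h2 => absurd ⟨h1, h2⟩ hcase⟩
  choose jh jα jβ jγ jη hj using hJ
  -- three lines
  have h3 : ∀ i j l : Fin q, ∃ A : Finset k, i ≠ j → i ≠ l → j ≠ l → ∀ A' : Finset k, A ⊆ A' →
      ∀ (K : Type) [Field K] [NumberField K] [Algebra k K] (w : Place K) (x : Fin 3 → K),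
      evalForm (ℓ i) x ≠ 0 → evalForm (ℓ j) x ≠ 0 → evalForm (ℓ l) x ≠ 0 →
      mu (ℓ i) w x ≤ err A' w ∨ mu (ℓ j) w x ≤ err A' w ∨ mu (ℓ l) w x ≤ err A' w := by
    intro i j l
    by_cases hd : i ≠ j ∧ i ≠ l ∧ j ≠ l
    · obtain ⟨A, hA⟩ := exists_three_lines (hcfg.gp i j l hd.1 hd.2.1 hd.2.2)
      exact ⟨A, fun _ _ _ => hA⟩
    · exact ⟨∅, fun h1 h2 h3 => absurd ⟨h1, h2, h3⟩ hd⟩
  choose A3 hA3 using h3
  set A : Finset k :=
    (Finset.univ : Finset (Fin q × Fin q × Fin q × Fin q)).biUnion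
        (fun t => {jα t.1 t.2.1 t.2.2.1 t.2.2.2, jβ t.1 t.2.1 t.2.2.1 t.2.2.2,
          jγ t.1 t.2.1 t.2.2.1 t.2.2.2, jη t.1 t.2.1 t.2.2.1 t.2.2.2}) ∪
      (Finset.univ : Finset (Fin q × Fin q × Fin q)).biUnion (fun t => A3 t.1 t.2.1 t.2.2) ∪
      (Finset.univ : Finset (Fin M × Fin 3)).image (fun t => Ξ t.1 t.2) with hA
  have hAj : ∀ a b c d, jα a b c d ∈ A ∧ jβ a b c d ∈ A ∧ jγ a b c d ∈ A ∧ jη a b c d ∈ A := by
    intro a b c d
    have hsub : ∀ y ∈ ({jα a b c d, jβ a b c d, jγ a b c d, jη a b c d} : Finset k), y ∈ A := by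
      intro y hy
      refine Finset.mem_union_left _ (Finset.mem_union_left _ ?_)
      exact Finset.mem_biUnion.mpr ⟨(a, b, c, d), Finset.mem_univ _, hy⟩
    refine ⟨hsub _ (by simp), hsub _ (by simp), hsub _ (by simp), hsub _ (by simp)⟩
  have hA3' : ∀ i j l, A3 i j l ⊆ A := by
    intro i j l y hy
    refine Finset.mem_union_left _ (Finset.mem_union_right _ ?_)
    exact Finset.mem_biUnion.mpr ⟨(i, j, l), Finset.mem_univ _, hy⟩
  have hAΞ : ∀ a j, Ξ a j ∈ A := by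
    intro a j
    exact Finset.mem_union_right _ (Finset.mem_image.mpr ⟨(a, j), Finset.mem_univ _, rfl⟩)
  obtain ⟨E₀, hE₀⟩ := exists_bound_err A
  set E := max E₀ 0 with hE
  have hE0 : 0 ≤ E := le_max_right _ _
  refine ⟨2 * n * (C₀ + 2 * n * E) + n * q * E + q * C₀, ?_⟩
  intro K _ _ _ x hdeg hx v
  have hfd : FiniteDimensional k K := Module.Finite.of_restrictScalars_finite ℚ k K
  have hn0 : (0 : ℝ) ≤ n := by positivity
  set f : Fin M → k := nv Ξ x with hf
  have hf0 : ∀ a, f a ≠ 0 := by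
    intro a
    exact Algebra.norm_ne_zero_iff.mpr (hx a)
  have hℓx : ∀ i, evalForm (ℓ i) x ≠ 0 := by
    intro i
    rw [← hcfg.eq i]
    exact hx (e i)
  -- the maximum
  have hM : Nonempty (Fin M) := ⟨e ⟨0, by omega⟩⟩
  obtain ⟨a₀, ha₀⟩ := Finite.exists_max (fun a : Fin M => vl v a f)
  have hvl0 : ∀ a, 0 ≤ vl v a f := by
    intro a
    unfold vl
    have := Real.log_le_log (absV_pos v (hf0 a)) (absV_le_nrm v f a)
    linarith
  set V := vl v a₀ f with hV
  have hV0 : 0 ≤ V := hvl0 a₀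
  refine ⟨a₀, ?_⟩
  -- the places above `v`
  have hfin : {w : Place K | LiesOver w v}.Finite := (finite_above (K := K) v).1
  set G : Finset (Place K) := hfin.toFinset with hG
  have hGcard : G.card ≤ n := by
    rw [← Set.ncard_eq_toFinset_card _ hfin, ← hdeg]
    exact (finite_above (K := K) v).2
  have hup : ∀ g : Place K → ℝ, up v g = ∑ w ∈ G, g w := by
    intro g
    unfold up
    rw [finsum_mem_eq_finite_toFinset_sum _ hfin]
  have hEK : ∑ᶠ w : Place K, err A w ≤ E := (hE₀ K).trans (le_max_left _ _)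
  have hsumE : ∀ T : Finset (Place K), ∑ w ∈ T, err A w ≤ E := fun T =>
    (sum_le_finsum (fun w => err_nonneg A w) (support_err_finite A) T).trans hEK
  -- bound for subsets
  have hsub : ∀ (a : Fin M) (G' : Finset (Place K)), G' ⊆ G →
      n * ∑ w ∈ G', mu (Ξ a) w x ≤ V + C₀ + n * E := by
    intro a G' hG'
    have h1 := hLOA K x hdeg hx v a
    rw [hup, abs_le] at h1
    have h2 : vl v a f ≤ V := ha₀ a
    have h4 : -E ≤ ∑ w ∈ G \ G', mu (Ξ a) w x := by
      have h5 : -∑ w ∈ G \ G', err A w ≤ ∑ w ∈ G \ G', mu (Ξ a) w x := by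
        rw [← Finset.sum_neg_distrib]
        refine Finset.sum_le_sum fun w _ => ?_
        have := mu_add_err_nonneg (fun j => hAΞ a j) w (hx a)
        linarith
      have := hsumE (G \ G')
      linarith
    have h6 : ∑ w ∈ G \ G', mu (Ξ a) w x + ∑ w ∈ G', mu (Ξ a) w x = ∑ w ∈ G, mu (Ξ a) w x :=
      Finset.sum_sdiff hG'
    have h7 : (n : ℝ) * ∑ w ∈ G, mu (Ξ a) w x ≤ V + C₀ := by linarith [h1.1]
    have h8 : (n : ℝ) * ∑ w ∈ G, mu (Ξ a) w x
        = n * ∑ w ∈ G \ G', mu (Ξ a) w x + n * ∑ w ∈ G', mu (Ξ a) w x := by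
      rw [← mul_add, h6]
    have h9 : (n : ℝ) * (-E) ≤ n * ∑ w ∈ G \ G', mu (Ξ a) w x := mul_le_mul_of_nonneg_left h4 hn0
    linarith
  -- the two largest terms
  have hsel : ∀ w : Place K, ∃ a b, a ≠ b ∧ mu (ℓ b) w x ≤ mu (ℓ a) w x ∧
      ∀ i, i ≠ a → i ≠ b → mu (ℓ i) w x ≤ err A w := by
    intro w
    refine top_two (by omega) (fun i => mu (ℓ i) w x) (err A w) ?_
    intro i j l hij hil hjl
    exact hA3 i j l hij hil hjl A (hA3' i j l) K w x (hℓx i) (hℓx j) (hℓx l)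
  choose a b hab hle hrest using hsel
  have hlocal : ∀ w : Place K, ∑ i, mu (ℓ i) w x
      ≤ mu (ℓ (a w)) w x + mu (ℓ (b w)) w x + q * err A w := by
    intro w
    have hb' : b w ∈ Finset.univ.erase (a w) :=
      Finset.mem_erase.mpr ⟨(hab w).symm, Finset.mem_univ _⟩
    rw [← Finset.add_sum_erase Finset.univ _ (Finset.mem_univ (a w)),
      ← Finset.add_sum_erase (Finset.univ.erase (a w)) _ hb']
    have h3 : ∑ i ∈ (Finset.univ.erase (a w)).erase (b w), mu (ℓ i) w x ≤ q * err A w := by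
      calc ∑ i ∈ (Finset.univ.erase (a w)).erase (b w), mu (ℓ i) w x
          ≤ ∑ _i ∈ (Finset.univ.erase (a w)).erase (b w), err A w := by
            refine Finset.sum_le_sum fun i hi => ?_
            have hi1 := Finset.mem_erase.mp hi
            have hi2 := Finset.mem_erase.mp hi1.2
            exact hrest w i hi2.1 hi1.1
        _ = (((Finset.univ.erase (a w)).erase (b w)).card : ℝ) * err A w := by
            rw [Finset.sum_const, nsmul_eq_mul]
        _ ≤ q * err A w := by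
            refine mul_le_mul_of_nonneg_right ?_ (err_nonneg A w)
            have : ((Finset.univ.erase (a w)).erase (b w)).card ≤ q := by
              calc _ ≤ (Finset.univ : Finset (Fin q)).card :=
                    Finset.card_le_card ((Finset.erase_subset _ _).trans (Finset.erase_subset _ _))
                _ = q := by rw [Finset.card_univ, Fintype.card_fin]
            exact_mod_cast this
    linarith
  -- the sum of the local terms
  have hlin : ∀ i, vl v (e i) f ≤ n * ∑ w ∈ G, mu (ℓ i) w x + C₀ := by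
    intro i
    have h1 := hLOA K x hdeg hx v (e i)
    rw [hup, abs_le, hcfg.eq i] at h1
    linarith [h1.2]
  have htot : ∑ i, vl v (e i) f ≤ ∑ w ∈ G, n * mu (ℓ (a w)) w x + ∑ w ∈ G, n * mu (ℓ (b w)) w x
      + (n * q * E + q * C₀) := by
    calc ∑ i, vl v (e i) f ≤ ∑ i, (n * ∑ w ∈ G, mu (ℓ i) w x + C₀) :=
          Finset.sum_le_sum fun i _ => hlin i
      _ = n * ∑ w ∈ G, ∑ i, mu (ℓ i) w x + q * C₀ := by
          rw [Finset.sum_add_distrib, ← Finset.mul_sum, Finset.sum_comm, Finset.sum_const,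
            Finset.card_univ, Fintype.card_fin, nsmul_eq_mul]
      _ ≤ n * ∑ w ∈ G, (mu (ℓ (a w)) w x + mu (ℓ (b w)) w x + q * err A w) + q * C₀ := by
          have := mul_le_mul_of_nonneg_left
            (Finset.sum_le_sum (s := G) fun w _ => hlocal w) hn0
          linarith
      _ = ∑ w ∈ G, n * mu (ℓ (a w)) w x + ∑ w ∈ G, n * mu (ℓ (b w)) w x
          + (n * q * ∑ w ∈ G, err A w + q * C₀) := by
          rw [Finset.sum_add_distrib, Finset.sum_add_distrib, ← Finset.mul_sum, ← Finset.mul_sum,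
            ← Finset.mul_sum]
          ring
      _ ≤ _ := by
          have h1 : (n : ℝ) * q * ∑ w ∈ G, err A w ≤ n * q * E :=
            mul_le_mul_of_nonneg_left (hsumE G) (by positivity)
          linarith
  -- single places
  have hone : ∀ w ∈ G, n * mu (ℓ (a w)) w x ≤ V + (C₀ + 2 * n * E) := by
    intro w hw
    have h1 := hsub (e (a w)) {w} (Finset.singleton_subset_iff.mpr hw)
    rw [Finset.sum_singleton, hcfg.eq] at h1
    have h2 : 0 ≤ (n : ℝ) * E := by positivity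
    linarith
  have hone' : ∀ w ∈ G, n * mu (ℓ (b w)) w x ≤ V + (C₀ + 2 * n * E) := by
    intro w hw
    exact (mul_le_mul_of_nonneg_left (hle w) hn0).trans (hone w hw)
  have hpair : ∀ w ∈ G, ∀ w' ∈ G, w ≠ w' →
      n * mu (ℓ (b w)) w x + n * mu (ℓ (b w')) w' x ≤ V + (C₀ + 2 * n * E) := by
    intro w hw w' hw' hne
    obtain ⟨e1, e2⟩ := hj (a w) (b w) (a w') (b w') (hab w) (hab w')
    obtain ⟨m1, m2, m3, m4⟩ := hAj (a w) (b w) (a w') (b w')
    have i1 : mu (ℓ (b w)) w x ≤ mu (Ξ (jh (a w) (b w) (a w') (b w'))) w x + err A w :=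
      min_mu_le m1 m2 e1 w x (hℓx _) (hℓx _) (hx _) (hle w) le_rfl
    have i2 : mu (ℓ (b w')) w' x ≤ mu (Ξ (jh (a w) (b w) (a w') (b w'))) w' x + err A w' :=
      min_mu_le m3 m4 e2 w' x (hℓx _) (hℓx _) (hx _) (hle w') le_rfl
    have hs : ({w, w'} : Finset (Place K)) ⊆ G := by
      intro y hy
      rcases Finset.mem_insert.mp hy with h | h
      · rw [h]; exact hw
      · rw [Finset.mem_singleton.mp h]; exact hw'
    have i3 := hsub (jh (a w) (b w) (a w') (b w')) {w, w'} hs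
    have i4 := hsumE {w, w'}
    rw [Finset.sum_pair hne] at i3 i4
    have i5 : (n : ℝ) * (mu (ℓ (b w)) w x + mu (ℓ (b w')) w' x)
        ≤ n * ((mu (Ξ (jh (a w) (b w) (a w') (b w'))) w x
          + mu (Ξ (jh (a w) (b w) (a w') (b w'))) w' x) + E) :=
      mul_le_mul_of_nonneg_left (by linarith) hn0
    linarith
  have hfinal := comb G n hn2 hGcard (fun w => n * mu (ℓ (a w)) w x)
    (fun w => n * mu (ℓ (b w)) w x) V (C₀ + 2 * n * E) hV0 (by positivity) hone hone' hpair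
  linarith

end Pool.Agent.Lib.MP_d0e829_nt.SI
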