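import Pool.Agent.Lib.MP_d0e829_nt.SI.Spec

set_option autoImplicit false

open NumberField MvPolynomial
open Pool.Agent.Lib.MP_d0e829_nt.SS

namespace Pool.Agent.Lib.MP_d0e829_nt.SI

open scoped Classical

namespace NCFM

open UniqueFactorizationMonoid in
/-- the relative norm of an ideal at `p` -/
lemma mult_relNorm {k : Type} [Field k] [NumberField k] {K : Type} [Field K] [NumberField K]
    [Algebra k K] (v : FinitePlace k) (T : Finset (FinitePlace K))
    (hT : ∀ w : FinitePlace K, w ∈ T ↔
      w.maximalIdeal.asIdeal.comap (algebraMap (𝓞 k) (𝓞 K)) = v.maximalIdeal.asIdeal)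
    (I : Ideal (𝓞 K)) (hI : I ≠ ⊥) :
    (multiplicity v.maximalIdeal.asIdeal (Ideal.relNorm (𝓞 k) I) : ℝ) *
        Real.log (Ideal.absNorm v.maximalIdeal.asIdeal) =
      ∑ w ∈ T, (multiplicity w.maximalIdeal.asIdeal I : ℝ) *
        Real.log (Ideal.absNorm w.maximalIdeal.asIdeal) := by
  have hfinK : ∀ (w : FinitePlace K) (J : Ideal (𝓞 K)), J ≠ ⊥ →
      FiniteMultiplicity w.maximalIdeal.asIdeal J := fun w J hJ =>
    FiniteMultiplicity.of_prime_left w.maximalIdeal.prime hJ
  have hfink : ∀ (J : Ideal (𝓞 k)), J ≠ ⊥ →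
      FiniteMultiplicity v.maximalIdeal.asIdeal J := fun J hJ =>
    FiniteMultiplicity.of_prime_left v.maximalIdeal.prime hJ
  have key : (I ≠ ⊥ ∧ (multiplicity v.maximalIdeal.asIdeal (Ideal.relNorm (𝓞 k) I) : ℝ) *
        Real.log (Ideal.absNorm v.maximalIdeal.asIdeal) =
      ∑ w ∈ T, (multiplicity w.maximalIdeal.asIdeal I : ℝ) *
        Real.log (Ideal.absNorm w.maximalIdeal.asIdeal)) := by
    have hI' := Ideal.prod_normalizedFactors_eq_self hI
    rw [← hI']
    refine Multiset.prod_induction (fun J : Ideal (𝓞 K) => (J ≠ ⊥ ∧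
      (multiplicity v.maximalIdeal.asIdeal (Ideal.relNorm (𝓞 k) J) : ℝ) *
        Real.log (Ideal.absNorm v.maximalIdeal.asIdeal) =
      ∑ w ∈ T, (multiplicity w.maximalIdeal.asIdeal J : ℝ) *
        Real.log (Ideal.absNorm w.maximalIdeal.asIdeal))) _ ?_ ?_ ?_
    · rintro x y ⟨hx, hx'⟩ ⟨hy, hy'⟩
      have hxy : x * y ≠ ⊥ := mul_ne_zero hx hy
      refine ⟨hxy, ?_⟩
      have hnx : Ideal.relNorm (𝓞 k) x ≠ ⊥ := fun h => hx (Ideal.relNorm_eq_bot_iff.1 h)
      have hny : Ideal.relNorm (𝓞 k) y ≠ ⊥ := fun h => hy (Ideal.relNorm_eq_bot_iff.1 h)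
      rw [map_mul, multiplicity_mul v.maximalIdeal.prime (hfink _ (mul_ne_zero hnx hny))]
      push_cast
      rw [add_mul, hx', hy', ← Finset.sum_add_distrib]
      refine Finset.sum_congr rfl fun w _ => ?_
      rw [multiplicity_mul w.maximalIdeal.prime (hfinK w _ hxy)]
      push_cast
      ring
    · refine ⟨one_ne_zero, ?_⟩
      have h1 : multiplicity v.maximalIdeal.asIdeal (1 : Ideal (𝓞 k)) = 0 :=
        multiplicity_eq_zero.2 fun h => v.maximalIdeal.prime.not_isUnit (isUnit_of_dvd_one h)
      rw [map_one, h1]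
      simp only [Nat.cast_zero, zero_mul]
      symm
      refine Finset.sum_eq_zero fun w _ => ?_
      have h2 : multiplicity w.maximalIdeal.asIdeal (1 : Ideal (𝓞 K)) = 0 :=
        multiplicity_eq_zero.2 fun h => w.maximalIdeal.prime.not_isUnit (isUnit_of_dvd_one h)
      rw [h2]; simp
    · intro Q hQ
      have hQ' : Q ≠ ⊥ := ne_zero_of_mem_normalizedFactors hQ
      refine ⟨hQ', ?_⟩
      rw [Ideal.mem_normalizedFactors_iff hI] at hQ
      have hQm : Q.IsMaximal := Ring.DimensionLEOne.maximalOfPrime hQ' hQ.1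
      set q := Ideal.under (𝓞 k) Q with hq
      have hq0 : q ≠ ⊥ := Ideal.IsIntegral.comap_ne_bot _ hQ'
      rw [Ideal.relNorm_eq_pow_of_isMaximal Q q]
      have hqprime : Prime q := Ideal.prime_of_isPrime hq0 inferInstance
      have hqm : q.IsMaximal := inferInstance
      by_cases hqv : q = v.maximalIdeal.asIdeal
      · -- `Q` lies above `v`
        set w0 : FinitePlace K := FinitePlace.mk ⟨Q, hQm.isPrime, hQ'⟩ with hw0
        have hw0Q : w0.maximalIdeal.asIdeal = Q := by
          rw [hw0, FinitePlace.maximalIdeal_mk]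
        have hw0T : w0 ∈ T := by
          rw [hT, hw0Q, ← hqv]
        rw [Finset.sum_eq_single w0]
        · rw [hw0Q, ← hqv]
          have h1 : multiplicity q (q ^ Q.inertiaDeg (𝓞 k)) = Q.inertiaDeg (𝓞 k) :=
            multiplicity_pow_self hq0 hqprime.not_isUnit _
          have h2 : multiplicity Q Q = 1 :=
            multiplicity_self
          have h3 := Ideal.absNorm_pow_inertiaDeg (p := q) (q := Q)
          rw [h1, h2, ← h3]
          push_cast
          rw [Real.log_pow]
          ring
        · intro w _ hw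
          have h1 : multiplicity w.maximalIdeal.asIdeal Q = 0 := by
            refine multiplicity_eq_zero.2 fun h => hw ?_
            have h2 : Q ≤ w.maximalIdeal.asIdeal := Ideal.dvd_iff_le.1 h
            have h3 : Q = w.maximalIdeal.asIdeal :=
              hQm.eq_of_le w.maximalIdeal.isPrime.ne_top h2
            rw [← FinitePlace.maximalIdeal_inj]
            apply IsDedekindDomain.HeightOneSpectrum.ext
            rw [hw0Q, h3]
          rw [h1]; simp
        · intro h; exact absurd hw0T h
      · have h1 : multiplicity v.maximalIdeal.asIdeal (q ^ Q.inertiaDeg (𝓞 k)) = 0 := by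
          refine multiplicity_eq_zero.2 fun h => hqv ?_
          have h2 := v.maximalIdeal.prime.dvd_of_dvd_pow h
          exact hqm.eq_of_le v.maximalIdeal.isPrime.ne_top (Ideal.dvd_iff_le.1 h2)
        rw [h1]
        simp only [Nat.cast_zero, zero_mul]
        symm
        refine Finset.sum_eq_zero fun w hw => ?_
        have h2 : multiplicity w.maximalIdeal.asIdeal Q = 0 := by
          refine multiplicity_eq_zero.2 fun h => hqv ?_
          have h3 : Q ≤ w.maximalIdeal.asIdeal := Ideal.dvd_iff_le.1 h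
          have h4 : Q = w.maximalIdeal.asIdeal :=
            hQm.eq_of_le w.maximalIdeal.isPrime.ne_top h3
          rw [hq, h4]
          exact (hT w).1 hw
        rw [h2]; simp
  exact key.2

/-- the valuation of an integer -/
lemma log_place {K : Type} [Field K] [NumberField K] (w : FinitePlace K) {x : 𝓞 K} (hx : x ≠ 0) :
    Real.log (w x) = -((multiplicity w.maximalIdeal.asIdeal (Ideal.span {x}) : ℝ) *
      Real.log (Ideal.absNorm w.maximalIdeal.asIdeal)) := by
  have h := FinitePlace.apply_mul_absNorm_pow_eq_one w hx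
  have hx' : (x : K) ≠ 0 := by
    simpa using hx
  have h1 : 0 < w (x : K) := FinitePlace.pos_iff.2 hx'
  have h2 : ((Ideal.absNorm w.maximalIdeal.asIdeal : ℝ) ^
      multiplicity w.maximalIdeal.asIdeal (Ideal.span {x})) ≠ 0 := by
    intro h0
    rw [h0, mul_zero] at h
    exact zero_ne_one h
  have h3 := congrArg Real.log h
  rw [Real.log_mul h1.ne' h2, Real.log_pow, Real.log_one] at h3
  linarith

/-- the norm formula for integers -/
lemma log_norm_int {k : Type} [Field k] [NumberField k] {K : Type} [Field K] [NumberField K]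
    [Algebra k K] (v : FinitePlace k) (T : Finset (FinitePlace K))
    (hT : ∀ w : FinitePlace K, w ∈ T ↔
      w.maximalIdeal.asIdeal.comap (algebraMap (𝓞 k) (𝓞 K)) = v.maximalIdeal.asIdeal)
    {z : 𝓞 K} (hz : z ≠ 0) :
    Real.log (v (Algebra.norm k (z : K))) = ∑ w ∈ T, Real.log (w (z : K)) := by
  have hI : Ideal.span {z} ≠ ⊥ := mt Submodule.span_singleton_eq_bot.mp hz
  have h1 := mult_relNorm v T hT (Ideal.span {z}) hI
  rw [Ideal.relNorm_singleton] at h1
  have hn : Algebra.intNorm (𝓞 k) (𝓞 K) z ≠ 0 := by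
    intro h0
    apply hI
    rw [← Ideal.relNorm_eq_bot_iff (R := 𝓞 k), Ideal.relNorm_singleton, h0]
    simp
  have h2 : ((Algebra.intNorm (𝓞 k) (𝓞 K) z : 𝓞 k) : k) = Algebra.norm k (z : K) :=
    Algebra.algebraMap_intNorm (A := 𝓞 k) (K := k) (L := K) (B := 𝓞 K) z
  rw [← h2, log_place v hn, h1, ← Finset.sum_neg_distrib]
  exact Finset.sum_congr rfl fun w _ => (log_place w hz).symm

end NCFM

open NCFM in
theorem specNCF : SpecNCF := by
  intro k _ _ K _ _ _ v z hz
  obtain ⟨hfin, -⟩ := finite_fin (K := K) v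
  set T : Finset (FinitePlace K) := hfin.toFinset with hTdef
  have hT : ∀ w : FinitePlace K, w ∈ T ↔
      w.maximalIdeal.asIdeal.comap (algebraMap (𝓞 k) (𝓞 K)) = v.maximalIdeal.asIdeal := by
    intro w; rw [hTdef, Set.Finite.mem_toFinset]; rfl
  -- the formula without weights
  have main : Real.log (v (Algebra.norm k z)) = ∑ w ∈ T, Real.log (w z) := by
    obtain ⟨a, b, hb, hab⟩ := IsFractionRing.div_surjective (A := 𝓞 K) z
    have hb0 : b ≠ 0 := nonZeroDivisors.ne_zero hb
    have ha0 : a ≠ 0 := by
      rintro rfl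
      apply hz
      rw [← hab]; simp
    have ha' : (a : K) ≠ 0 := by simpa using ha0
    have hb' : (b : K) ≠ 0 := by simpa using hb0
    have hab' : z = (a : K) / (b : K) := hab.symm
    have hna : Algebra.norm k (a : K) ≠ 0 := by
      have : FiniteDimensional k K := Module.Finite.of_restrictScalars_finite ℚ k K
      exact Algebra.norm_ne_zero_iff.2 ha'
    have hnb : Algebra.norm k (b : K) ≠ 0 := by
      have : FiniteDimensional k K := Module.Finite.of_restrictScalars_finite ℚ k K
      exact Algebra.norm_ne_zero_iff.2 hb'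
    have hdiv : Algebra.norm k ((a : K) / (b : K)) =
        Algebra.norm k (a : K) / Algebra.norm k (b : K) := by
      rw [eq_div_iff hnb, ← map_mul, div_mul_cancel₀ _ hb']
    have hv : v (Algebra.norm k (a : K) / Algebra.norm k (b : K)) =
        v (Algebra.norm k (a : K)) / v (Algebra.norm k (b : K)) := map_div₀ v _ _
    rw [hab', hdiv, hv, Real.log_div (FinitePlace.pos_iff.2 hna).ne'
      (FinitePlace.pos_iff.2 hnb).ne', log_norm_int v T hT ha0, log_norm_int v T hT hb0,
      ← Finset.sum_sub_distrib]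
    refine Finset.sum_congr rfl fun w _ => ?_
    have hw : w ((a : K) / (b : K)) = w (a : K) / w (b : K) := map_div₀ w _ _
    rw [hw, Real.log_div (FinitePlace.pos_iff.2 ha').ne' (FinitePlace.pos_iff.2 hb').ne']
  have hset : {w : Place K | LiesOver w (Sum.inr v : Place k)} =
      ((T.image Sum.inr : Finset (Place K)) : Set (Place K)) := by
    ext w
    simp only [Set.mem_setOf_eq, Finset.coe_image, Set.mem_image, Finset.mem_coe]
    constructor
    · intro h
      cases w with
      | inl w => exact absurd h (by simp [LiesOver])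
      | inr w => exact ⟨w, (hT w).2 h, rfl⟩
    · rintro ⟨w', hw', rfl⟩
      exact (hT w').1 hw'
  have hsum : (∑ᶠ w ∈ {w : Place K | LiesOver w (Sum.inr v : Place k)}, Real.log (absV w z)) =
      ∑ w ∈ T, Real.log (absV (Sum.inr w : Place K) z) := by
    rw [hset, finsum_mem_coe_finset, Finset.sum_image (fun a _ b _ h => Sum.inr_injective h)]
  have hnz : Algebra.norm k z ≠ 0 := by
    have : FiniteDimensional k K := Module.Finite.of_restrictScalars_finite ℚ k K
    exact Algebra.norm_ne_zero_iff.2 hz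
  rw [hsum, log_absV _ hnz]
  have h1 : ∀ w ∈ T, Real.log (absV (Sum.inr w : Place K) z) =
      1 / (Module.finrank ℚ K : ℝ) * Real.log (w z) := by
    intro w _
    rw [log_absV _ hz]
    rfl
  rw [Finset.sum_congr rfl h1, ← Finset.mul_sum, ← main]
  have h2 : weight (Sum.inr v : Place k) = 1 / (Module.finrank ℚ k : ℝ) := rfl
  have h3 : rawAbs (Sum.inr v : Place k) (Algebra.norm k z) = v (Algebra.norm k z) := rfl
  rw [h2, h3]
  have h4 : (Module.finrank ℚ k : ℝ) * Module.finrank k K = Module.finrank ℚ K := by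
    exact_mod_cast Module.finrank_mul_finrank ℚ k K
  have h5 := finrank_pos' (K := k)
  have h6 : (0 : ℝ) < Module.finrank k K := by
    have : FiniteDimensional k K := Module.Finite.of_restrictScalars_finite ℚ k K
    exact_mod_cast Module.finrank_pos
  rw [← h4]
  field_simp

end Pool.Agent.Lib.MP_d0e829_nt.SI
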