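import Pool.Agent.Lib.MP_d0e829_nt.SS.MainSUB
import Pool.Agent.Lib.MP_d0e829_nt.SS.MAX
import Pool.Agent.Lib.MP_d0e829_nt.SS.TRV
import Pool.Agent.Lib.MP_d0e829_nt.SS.SUBI
import Pool.Agent.Lib.MP_d0e829_nt.SS.FCH
import Pool.Agent.Lib.MP_d0e829_nt.SS.IRR
import Pool.Agent.Lib.MP_d0e829_nt.SS.FIL
import Pool.Agent.Lib.MP_d0e829_nt.SS.GRO
import Pool.Agent.Lib.MP_d0e829_nt.SS.CRV
import Pool.Agent.Lib.MP_d0e829_nt.SS.TRI
import Pool.Agent.Lib.MP_d0e829_nt.SI.NCI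
import Pool.Agent.Lib.MP_d0e829_nt.SI.NCF
import Pool.Agent.Lib.MP_d0e829_nt.SI.CRW
import Pool.Agent.Lib.MP_d0e829_nt.SI.LNX
import Pool.Agent.Lib.MP_d0e829_nt.SI.LOA
import Pool.Agent.Lib.MP_d0e829_nt.SI.LOB
import Pool.Agent.Lib.MP_d0e829_nt.SI.SUP
import Pool.Agent.Lib.MP_d0e829_nt.SI.PRX
import Pool.Agent.Lib.MP_d0e829_nt.SI.FAM
import Pool.Agent.Lib.MP_d0e829_nt.SI.FNF

/-!
# One-parameter families, without hypotheses
-/

set_option autoImplicit false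

open Pool.Agent.Lib.MP_d0e829_nt.SS

namespace Pool.Agent.Lib.MP_d0e829_nt.SI

namespace MainF

theorem crv : SS.SpecCRV :=
  specCRV (specSUBI sub specTRV) (specFIL specIRR) specGRO specTRV

theorem loa : SpecLOA := specLOA specNCI specNCF

theorem lob : SpecLOB := specLOB loa

theorem crw : SpecCRW := specCRW crv specFCH

end MainF

/-- Theorem F: one-parameter families. -/
theorem families : SpecFNF :=
  specFNF specLNX specTRI (specPRX specNCI specNCF MainF.loa specSUP)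
    (specFAM specMAX MainF.crw MainF.lob)

end Pool.Agent.Lib.MP_d0e829_nt.SI
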