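import Pool.Agent.Lib.MP_d0e829_nt.SI.Spec

/-! # Module NTH: Northcott's theorem. -/

set_option autoImplicit false

open NumberField MvPolynomial
open Pool.Agent.Lib.MP_d0e829_nt.SS

namespace Pool.Agent.Lib.MP_d0e829_nt.SI

open scoped Classical

namespace NTHM

variable {K : Type} [Field K] [NumberField K]

lemma nrm_eq_rpow (w : Place K) (x : Fin 2 → K) :
    nrm w x = (⨆ j, rawAbs w (x j)) ^ weight w := by
  obtain ⟨j, hj⟩ := exists_eq_ciSup_of_finite (f := fun j => rawAbs w (x j))
  have hle : ∀ i, rawAbs w (x i) ≤ ⨆ j, rawAbs w (x j) := fun i =>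
    le_ciSup (f := fun j => rawAbs w (x j)) (Set.finite_range _).bddAbove i
  apply le_antisymm
  · refine ciSup_le fun i => ?_
    exact Real.rpow_le_rpow (rawAbs_nonneg _ _) (hle i) (weight_pos w).le
  · rw [← hj]
    exact absV_le_nrm w x j

/-- the height is the logarithmic height of Mathlib divided by the degree -/
theorem ht_eq_logHeight {x : Fin 2 → K} (hx : x ≠ 0) :
    ht x = Height.logHeight x / Module.finrank ℚ K := by
  have hd := finrank_pos' (K := K)
  have hpos : ∀ w : Place K, 0 < ⨆ j, rawAbs w (x j) := by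
    intro w
    obtain ⟨j, hj⟩ := Function.ne_iff.mp hx
    exact (rawAbs_pos w hj).trans_le
      (le_ciSup (f := fun j => rawAbs w (x j)) (Set.finite_range _).bddAbove j)
  have hlog : ∀ w : Place K, Real.log (nrm w x) = weight w * Real.log (⨆ j, rawAbs w (x j)) := by
    intro w
    rw [nrm_eq_rpow, Real.log_rpow (hpos w)]
  have hposI : ∀ w : InfinitePlace K, 0 < ⨆ j, w (x j) := fun w => hpos (Sum.inl w)
  have hposF : ∀ w : FinitePlace K, 0 < ⨆ j, w (x j) := fun w => hpos (Sum.inr w)
  have hF : 0 < ∏ᶠ w : FinitePlace K, ⨆ j, w (x j) :=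
    finprod_induction (fun t : ℝ => 0 < t) one_pos (fun _ _ => mul_pos) hposF
  have hI : 0 < ∏ w : InfinitePlace K, (⨆ j, w (x j)) ^ w.mult :=
    Finset.prod_pos fun w _ => pow_pos (hposI w) _
  rw [Height.logHeight_eq_log_mulHeight, NumberField.mulHeight_eq hx, Real.log_mul hI.ne' hF.ne',
    Real.log_prod (fun w _ => (pow_pos (hposI w) _).ne'), Real.log_finprod hposF]
  unfold ht
  rw [finsum_sum_type _ (support_log_nrm_finite hx), finsum_eq_sum_of_fintype, add_div,
    Finset.sum_div, div_eq_inv_mul (∑ᶠ w : FinitePlace K, Real.log (⨆ j, w (x j))),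
    mul_finsum]
  congr 1
  · refine Finset.sum_congr rfl fun w _ => ?_
    rw [hlog, Real.log_pow]
    simp only [weight, rawAbs]
    ring
  · refine finsum_congr fun w => ?_
    rw [hlog]
    simp only [weight, rawAbs]
    ring

end NTHM

theorem specNTH : SpecNTH := by
  intro k _ _ C
  have hd := finrank_pos' (K := k)
  refine (NumberField.finite_setOfPred_logHeight₁_le (K := k)
    (C * Module.finrank ℚ k)).subset ?_
  intro u hu
  have hx : (![u, 1] : Fin 2 → k) ≠ 0 := by
    intro h
    have h1 := congrFun h 1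
    simp at h1
  have hu' : ht ![u, 1] ≤ C := hu
  rw [NTHM.ht_eq_logHeight hx, div_le_iff₀ hd] at hu'
  show Height.logHeight₁ u ≤ _
  rw [Height.logHeight₁_eq_logHeight]
  exact hu'

end Pool.Agent.Lib.MP_d0e829_nt.SI
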