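import Pool.Agent.Lib.MP_d0e829_nt.SI.Spec

/-!
# MP_d0e829_nt, module PIA: products of lines span the forms
-/

set_option autoImplicit false

open NumberField MvPolynomial
open Pool.Agent.Lib.MP_d0e829_nt.SS

namespace Pool.Agent.Lib.MP_d0e829_nt.SI

open scoped Classical

namespace PIAM

variable {F : Type} [Field F] {ι : Type}

/-- combinations of the three variables -/
lemma exists_X {m : ℕ} {p : MvPolynomial (Fin 3) F} (hp : p.IsHomogeneous (m + 1)) :
    ∃ s : Fin 3 → MvPolynomial (Fin 3) F, (∀ c, (s c).IsHomogeneous m) ∧ p = ∑ c, X c * s c := by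
  have key : ∀ T : Finset (Fin 3 →₀ ℕ), T ⊆ p.support → ∃ s : Fin 3 → MvPolynomial (Fin 3) F,
      (∀ c, (s c).IsHomogeneous m) ∧ ∑ d ∈ T, monomial d (coeff d p) = ∑ c, X c * s c := by
    intro T
    induction T using Finset.induction_on with
    | empty => intro _; exact ⟨fun _ => 0, fun _ => isHomogeneous_zero _ _ _, by simp⟩
    | insert d T hd ih =>
      intro hT
      obtain ⟨s, hs, hsum⟩ := ih (fun x hx => hT (Finset.mem_insert_of_mem hx))
      have hdp : d ∈ p.support := hT (Finset.mem_insert_self _ _)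
      have hdeg : d.degree = m + 1 := by
        by_contra hne
        exact (mem_support_iff.1 hdp) (hp.coeff_eq_zero hne)
      obtain ⟨c, hc⟩ : ∃ c, d c ≠ 0 := by
        by_contra hcon
        push Not at hcon
        have : d = 0 := by ext c; simpa using hcon c
        rw [this] at hdeg
        simp at hdeg
      have hle : Finsupp.single c 1 ≤ d := by
        intro x
        by_cases h : x = c
        · subst h; simp; omega
        · rw [Finsupp.single_apply, if_neg (Ne.symm h)]; exact Nat.zero_le _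
      have hd2 : Finsupp.single c 1 + (d - Finsupp.single c 1) = d := add_tsub_cancel_of_le hle
      refine ⟨Function.update s c (s c + monomial (d - Finsupp.single c 1) (coeff d p)), ?_, ?_⟩
      · intro x
        by_cases h : x = c
        · subst h
          rw [Function.update_self]
          refine (hs x).add (isHomogeneous_monomial _ ?_)
          have h2 := congrArg Finsupp.degree hd2
          rw [map_add, hdeg, Finsupp.degree_single] at h2
          omega
        · rw [Function.update_of_ne h]; exact hs x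
      · rw [Finset.sum_insert hd, hsum]
        have h1 : ∀ x, X x * Function.update s c (s c + monomial (d - Finsupp.single c 1) (coeff d p)) x
            = X x * s x + (if x = c then X c * monomial (d - Finsupp.single c 1) (coeff d p) else 0) := by
          intro x
          by_cases h : x = c
          · subst h
            rw [Function.update_self, if_pos rfl, mul_add]
          · rw [Function.update_of_ne h, if_neg h, add_zero]
        rw [Finset.sum_congr rfl (fun x _ => h1 x), Finset.sum_add_distrib, Finset.sum_ite_eq' Finset.univ c,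
          if_pos (Finset.mem_univ _), add_comm]
        congr 1
        rw [X, monomial_mul, one_mul, hd2]
  obtain ⟨s, hs, h⟩ := key p.support (Finset.Subset.refl _)
  exact ⟨s, hs, by rw [← h]; exact as_sum p⟩

lemma exists_lin {u v w : Fin 3 → F} (h : LinearIndependent F ![u, v, w]) {m : ℕ}
    {p : MvPolynomial (Fin 3) F} (hp : p.IsHomogeneous (m + 1)) :
    ∃ a b c : MvPolynomial (Fin 3) F, a.IsHomogeneous m ∧ b.IsHomogeneous m ∧ c.IsHomogeneous m ∧
      p = lin u * a + lin v * b + lin w * c := by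
  obtain ⟨s, hs, hsum⟩ := exists_X hp
  set M : Matrix (Fin 3) (Fin 3) F := Matrix.of ![u, v, w] with hM
  have hu : IsUnit M := Matrix.linearIndependent_rows_iff_isUnit.1 h
  obtain ⟨N, hN⟩ : ∃ N : Matrix (Fin 3) (Fin 3) F, N * M = 1 := by
    obtain ⟨U, hU⟩ := hu
    exact ⟨(U⁻¹ : (Matrix (Fin 3) (Fin 3) F)ˣ), by rw [← hU]; exact U.inv_mul⟩
  have hX : ∀ c, (X c : MvPolynomial (Fin 3) F) = ∑ t, C (N c t) * lin (M t) := by
    intro c
    have h1 : ∀ t, C (N c t) * lin (M t) = ∑ j, C (N c t * M t j) * X j := by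
      intro t
      unfold lin
      rw [Finset.mul_sum]
      refine Finset.sum_congr rfl fun j _ => ?_
      rw [C_mul]
      ring
    rw [Finset.sum_congr rfl (fun t _ => h1 t), Finset.sum_comm]
    have h2 : ∀ j, ∑ t, C (N c t * M t j) * (X j : MvPolynomial (Fin 3) F) = C ((1 : Matrix (Fin 3) (Fin 3) F) c j) * X j := by
      intro j
      rw [← Finset.sum_mul, ← map_sum, ← hN, Matrix.mul_apply]
    rw [Finset.sum_congr rfl (fun j _ => h2 j), Finset.sum_eq_single c]
    · simp
    · intro j _ hj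
      rw [Matrix.one_apply_ne (Ne.symm hj)]; simp
    · simp
  have h3 : p = ∑ t, lin (M t) * ∑ c, C (N c t) * s c := by
    rw [hsum]
    simp only [Finset.mul_sum]
    rw [Finset.sum_comm]
    refine Finset.sum_congr rfl fun c _ => ?_
    conv_lhs => rw [hX c, Finset.sum_mul]
    refine Finset.sum_congr rfl fun t _ => by ring
  have h4 : ∀ t, (∑ c, C (N c t) * s c).IsHomogeneous m := by
    intro t
    refine IsHomogeneous.sum _ _ _ fun c _ => ?_
    have := (isHomogeneous_C (Fin 3) (N c t)).mul (hs c)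
    rwa [zero_add] at this
  refine ⟨_, _, _, h4 0, h4 1, h4 2, ?_⟩
  rw [h3, Fin.sum_univ_three]
  rfl

/-- the conclusion -/
def Good (ℓ : ι → Fin 3 → F) (J : Finset ι) (m : ℕ) (p : MvPolynomial (Fin 3) F) : Prop :=
  ∃ r : Finset ι → MvPolynomial (Fin 3) F, (∀ A, (r A).IsHomogeneous m) ∧
    p = ∑ A ∈ J.powersetCard (J.card - 2), (∏ j ∈ A, lin (ℓ j)) * r A

lemma good_zero (ℓ : ι → Fin 3 → F) (J : Finset ι) (m : ℕ) : Good ℓ J m 0 :=
  ⟨fun _ => 0, fun _ => isHomogeneous_zero _ _ _, by simp⟩

lemma good_add {ℓ : ι → Fin 3 → F} {J : Finset ι} {m : ℕ} {p q : MvPolynomial (Fin 3) F}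
    (hp : Good ℓ J m p) (hq : Good ℓ J m q) : Good ℓ J m (p + q) := by
  obtain ⟨r, hr, rfl⟩ := hp
  obtain ⟨s, hs, rfl⟩ := hq
  refine ⟨fun A => r A + s A, fun A => (hr A).add (hs A), ?_⟩
  rw [← Finset.sum_add_distrib]
  exact Finset.sum_congr rfl fun A _ => by ring

lemma good_sum {ℓ : ι → Fin 3 → F} {J : Finset ι} {m : ℕ} {κ : Type} (T : Finset κ)
    (p : κ → MvPolynomial (Fin 3) F) (h : ∀ t ∈ T, Good ℓ J m (p t)) : Good ℓ J m (∑ t ∈ T, p t) := by
  induction T using Finset.induction_on with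
  | empty => rw [Finset.sum_empty]; exact good_zero ℓ J m
  | insert a T ha ih =>
    rw [Finset.sum_insert ha]
    exact good_add (h a (Finset.mem_insert_self _ _)) (ih fun t ht => h t (Finset.mem_insert_of_mem ht))

lemma good_single {ℓ : ι → Fin 3 → F} {J : Finset ι} {m : ℕ} {A : Finset ι} (hA : A ⊆ J)
    (hc : A.card = J.card - 2) {r : MvPolynomial (Fin 3) F} (hr : r.IsHomogeneous m) :
    Good ℓ J m ((∏ j ∈ A, lin (ℓ j)) * r) := by
  refine ⟨fun B => if B = A then r else 0, fun B => ?_, ?_⟩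
  · dsimp only
    split_ifs
    · exact hr
    · exact isHomogeneous_zero _ _ _
  · rw [Finset.sum_eq_single A]
    · simp
    · intro B _ hB; simp [hB]
    · intro h; exact absurd (Finset.mem_powersetCard.2 ⟨hA, hc⟩) h

lemma pia_main (ℓ : ι → Fin 3 → F) : ∀ (n : ℕ) (J : Finset ι), J.card = n + 3 →
    (∀ i ∈ J, ∀ j ∈ J, ∀ l ∈ J, i ≠ j → i ≠ l → j ≠ l → LinearIndependent F ![ℓ i, ℓ j, ℓ l]) →
    ∀ (m : ℕ) (p : MvPolynomial (Fin 3) F), p.IsHomogeneous (m + (n + 1)) → Good ℓ J m p := by
  intro n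
  induction n with
  | zero =>
    intro J hJ hl m p hp
    obtain ⟨i, j, l, hij, hil, hjl, rfl⟩ := Finset.card_eq_three.1 (by simpa using hJ)
    obtain ⟨a, b, c, ha, hb, hc, rfl⟩ := exists_lin (hl i (by simp) j (by simp) l (by simp) hij hil hjl)
      (by simpa using hp)
    have e : ∀ x ∈ ({i, j, l} : Finset ι), ∀ r : MvPolynomial (Fin 3) F, r.IsHomogeneous m →
        Good ℓ {i, j, l} m (lin (ℓ x) * r) := by
      intro x hx r hr
      have := good_single (ℓ := ℓ) (J := {i, j, l}) (A := {x}) (by simpa using hx)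
        (by rw [hJ]; simp) hr
      simpa using this
    exact good_add (good_add (e i (by simp) a ha) (e j (by simp) b hb)) (e l (by simp) c hc)
  | succ n ih =>
    intro J hJ hl m p hp
    obtain ⟨j₀, hj₀⟩ : J.Nonempty := Finset.card_pos.1 (by omega)
    have hcE : (J.erase j₀).card = n + 3 := by rw [Finset.card_erase_of_mem hj₀]; omega
    obtain ⟨r, hr, hsum⟩ := ih (J.erase j₀) hcE
      (fun i hi j hj l hl' => hl i (Finset.mem_of_mem_erase hi) j (Finset.mem_of_mem_erase hj) l
        (Finset.mem_of_mem_erase hl')) (m + 1) p (by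
          have : m + 1 + (n + 1) = m + (n + 1 + 1) := by ring
          rwa [this])
    rw [hsum]
    refine good_sum _ _ fun A hA => ?_
    rw [Finset.mem_powersetCard, hcE] at hA
    obtain ⟨hA1, hA2⟩ := hA
    have hc2 : ((J.erase j₀) \ A).card = 2 := by
      rw [Finset.card_sdiff_of_subset hA1, hcE, hA2]; omega
    obtain ⟨a, b, hab, hAB⟩ := Finset.card_eq_two.1 hc2
    have ha : a ∈ (J.erase j₀) \ A := by rw [hAB]; simp
    have hb : b ∈ (J.erase j₀) \ A := by rw [hAB]; simp
    rw [Finset.mem_sdiff, Finset.mem_erase] at ha hb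
    obtain ⟨s0, sa, sb, h0, h1, h2, hrA⟩ := exists_lin
      (hl j₀ hj₀ a ha.1.2 b hb.1.2 (Ne.symm ha.1.1) (Ne.symm hb.1.1) hab) (hr A)
    rw [hrA]
    have e : ∀ x ∈ J, x ∉ A → ∀ s : MvPolynomial (Fin 3) F, s.IsHomogeneous m →
        Good ℓ J m ((∏ j ∈ A, lin (ℓ j)) * (lin (ℓ x) * s)) := by
      intro x hx hxA s hs
      have := good_single (ℓ := ℓ) (J := J) (A := insert x A)
        (Finset.insert_subset hx (hA1.trans (Finset.erase_subset _ _)))
        (by rw [Finset.card_insert_of_notMem hxA, hA2, hJ]; omega) hs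
      rw [Finset.prod_insert hxA] at this
      have e2 : (∏ j ∈ A, lin (ℓ j)) * (lin (ℓ x) * s) = lin (ℓ x) * (∏ j ∈ A, lin (ℓ j)) * s := by ring
      rw [e2]; exact this
    rw [mul_add, mul_add]
    exact good_add (good_add (e j₀ hj₀ (fun h => (Finset.mem_erase.1 (hA1 h)).1 rfl) s0 h0)
      (e a ha.1.2 ha.2 sa h1)) (e b hb.1.2 hb.2 sb h2)

end PIAM

open PIAM in
theorem specPIA : SpecPIA := by
  intro F _ ι ℓ J hl hJ m p hp
  obtain ⟨n, hn⟩ : ∃ n, J.card = n + 3 := ⟨J.card - 3, by omega⟩
  refine pia_main ℓ n J hn hl m p ?_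
  rw [hn] at hp
  simpa using hp

end Pool.Agent.Lib.MP_d0e829_nt.SI
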