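import Pool.Agent.Lib.MP_d0e829_nt.SI.Spec

/-!
# MP_d0e829_nt, SI, SEG: the multihomogeneous span (helper94)
-/

set_option autoImplicit false

open NumberField MvPolynomial
open Pool.Agent.Lib.MP_d0e829_nt.SS

namespace Pool.Agent.Lib.MP_d0e829_nt.SI

open scoped Classical

namespace SEGM

variable {F : Type} [Field F] {R : Type} [CommRing R] [Algebra F R]

lemma lin_hom (c : Fin 3 → F) : (lin c : MvPolynomial (Fin 3) F).IsHomogeneous 1 := by
  unfold lin
  refine IsHomogeneous.sum _ _ _ fun j _ => ?_
  have h := (isHomogeneous_C (Fin 3) (c j)).mul (isHomogeneous_X F j)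
  simpa using h

lemma prod_hom {ι : Type} (ℓ : ι → Fin 3 → F) (A : Finset ι) :
    (∏ j ∈ A, (lin (ℓ j) : MvPolynomial (Fin 3) F)).IsHomogeneous A.card := by
  have h := IsHomogeneous.prod A (fun j => (lin (ℓ j) : MvPolynomial (Fin 3) F)) (fun _ => 1)
    (fun j _ => lin_hom (ℓ j))
  simpa using h

lemma mul_mem {n : ℕ} (φ : Fin (n + 1) → (MvPolynomial (Fin 3) F →ₐ[F] R)) (m : ℕ) (z : R)
    (hz : z ∈ Wm (fun t : Fin n => φ t.castSucc) m) (q : MvPolynomial (Fin 3) F)
    (hq : q.IsHomogeneous m) : z * φ (Fin.last n) q ∈ Wm φ m := by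
  induction hz using Submodule.span_induction with
  | mem x hx =>
    obtain ⟨p, hp, rfl⟩ := hx
    refine Submodule.subset_span ⟨Fin.snoc p q, fun t => ?_, ?_⟩
    · refine Fin.lastCases ?_ (fun i => ?_) t
      · simpa using hq
      · simpa using hp i
    · rw [Fin.prod_univ_castSucc]
      simp
  | zero => simp
  | add x y _ _ hx hy => rw [add_mul]; exact Submodule.add_mem _ hx hy
  | smul a x _ hx => rw [smul_mul_assoc]; exact Submodule.smul_mem _ _ hx

end SEGM

open SEGM

theorem specSEG (hPIA : SpecPIA) : SpecSEG := by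
  intro F _ ι ℓ R _ _ n
  induction n with
  | zero =>
    intro φ J hJ _ m _ y hy
    obtain ⟨j, rfl⟩ := Finset.card_eq_one.1 (by simpa using hJ)
    induction hy using Submodule.span_induction with
    | mem x hx =>
      obtain ⟨p, hp, rfl⟩ := hx
      refine ⟨fun _ => 1, fun _ => ?_, by simp⟩
      exact Submodule.subset_span ⟨fun t => t.elim0, fun t => t.elim0, by simp⟩
    | zero => exact ⟨fun _ => 0, fun _ => Submodule.zero_mem _, by simp⟩
    | add x y _ _ hx hy =>
      obtain ⟨v, hv, hv'⟩ := hx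
      obtain ⟨w, hw, hw'⟩ := hy
      exact ⟨fun j => v j + w j, fun j => Submodule.add_mem _ (hv j) (hw j), by
        rw [hv', hw', ← Finset.sum_add_distrib]
        exact Finset.sum_congr rfl fun j _ => by ring⟩
    | smul a x _ hx =>
      obtain ⟨v, hv, hv'⟩ := hx
      exact ⟨fun j => a • v j, fun j => Submodule.smul_mem _ _ (hv j), by
        rw [hv', Finset.smul_sum]
        exact Finset.sum_congr rfl fun j _ => by rw [mul_smul_comm]⟩
  | succ n ih =>
    intro φ J hJ hgp m hm y hy
    induction hy using Submodule.span_induction with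
    | mem x hx =>
      obtain ⟨p, hp, rfl⟩ := hx
      obtain ⟨r, hr, hr'⟩ := hPIA F ι ℓ J hgp (by omega) (m - 2 * n) (p (Fin.last n)) (by
        have h := hp (Fin.last n)
        have e : m - 2 * n + (J.card - 2) = m + 1 := by omega
        rwa [e])
      have hc : ∀ A ∈ J.powersetCard (J.card - 2), A ⊆ J ∧ A.card = 2 * n + 1 := fun A hA => by
        rw [Finset.mem_powersetCard] at hA
        exact ⟨hA.1, by omega⟩
      have hih : ∀ A ∈ J.powersetCard (J.card - 2), ∃ u : ι → R,
          (∀ j, u j ∈ Wm (fun t : Fin n => φ t.castSucc) m) ∧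
          ∏ t : Fin n, φ t.castSucc (p t.castSucc) =
            ∑ j ∈ A, (∏ t : Fin n, φ t.castSucc (lin (ℓ j))) * u j := by
        intro A hA
        obtain ⟨hA1, hA2⟩ := hc A hA
        exact ih (fun t : Fin n => φ t.castSucc) A hA2
          (fun i hi j hj l hl => hgp i (hA1 hi) j (hA1 hj) l (hA1 hl)) m (by omega) _
          (Submodule.subset_span ⟨fun t => p t.castSucc, fun t => hp _, rfl⟩)
      choose! u hu hu' using hih
      refine ⟨fun j => ∑ A ∈ (J.powersetCard (J.card - 2)).filter (fun A => j ∈ A),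
        u A j * φ (Fin.last n) ((∏ i ∈ A.erase j, lin (ℓ i)) * r A), fun j => ?_, ?_⟩
      · refine Submodule.sum_mem _ fun A hA => ?_
        rw [Finset.mem_filter] at hA
        obtain ⟨hA1, hA2⟩ := hc A hA.1
        refine mul_mem φ m _ (hu A hA.1 j) _ ?_
        have h := (prod_hom ℓ (A.erase j)).mul (hr A)
        rw [Finset.card_erase_of_mem hA.2, hA2] at h
        have e : 2 * n + 1 - 1 + (m - 2 * n) = m := by omega
        rwa [e] at h
      · rw [Fin.prod_univ_castSucc, hr', map_sum, Finset.mul_sum]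
        have h1 : ∀ A ∈ J.powersetCard (J.card - 2),
            (∏ t : Fin n, φ t.castSucc (p t.castSucc)) *
              φ (Fin.last n) ((∏ j ∈ A, lin (ℓ j)) * r A) =
            ∑ j ∈ J, if j ∈ A then (∏ t, φ t (lin (ℓ j))) *
              (u A j * φ (Fin.last n) ((∏ i ∈ A.erase j, lin (ℓ i)) * r A)) else 0 := by
          intro A hA
          obtain ⟨hA1, hA2⟩ := hc A hA
          rw [← Finset.sum_filter, Finset.filter_mem_eq_inter, Finset.inter_eq_right.2 hA1,
            hu' A hA, Finset.sum_mul]
          refine Finset.sum_congr rfl fun j hj => ?_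
          rw [← Finset.mul_prod_erase A (fun j => (lin (ℓ j) : MvPolynomial (Fin 3) F)) hj,
            mul_assoc (lin (ℓ j)), map_mul (φ (Fin.last n)) (lin (ℓ j)), Fin.prod_univ_castSucc]
          ring
        rw [Finset.sum_congr rfl h1, Finset.sum_comm]
        refine Finset.sum_congr rfl fun j _ => ?_
        rw [← Finset.sum_filter, Finset.mul_sum]
    | zero => exact ⟨fun _ => 0, fun _ => Submodule.zero_mem _, by simp⟩
    | add x y _ _ hx hy =>
      obtain ⟨v, hv, hv'⟩ := hx
      obtain ⟨w, hw, hw'⟩ := hy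
      exact ⟨fun j => v j + w j, fun j => Submodule.add_mem _ (hv j) (hw j), by
        rw [hv', hw', ← Finset.sum_add_distrib]
        exact Finset.sum_congr rfl fun j _ => by ring⟩
    | smul a x _ hx =>
      obtain ⟨v, hv, hv'⟩ := hx
      exact ⟨fun j => a • v j, fun j => Submodule.smul_mem _ _ (hv j), by
        rw [hv', Finset.smul_sum]
        exact Finset.sum_congr rfl fun j _ => by rw [mul_smul_comm]⟩

end Pool.Agent.Lib.MP_d0e829_nt.SI
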