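import Pool.Agent.Lib.MP_d0e829_nt.SI.Spec

/-!
# Module UBD: the sum of the local terms over `S` for units
-/

set_option autoImplicit false

open NumberField MvPolynomial
open Pool.Agent.Lib.MP_d0e829_nt.SS

namespace Pool.Agent.Lib.MP_d0e829_nt.SI

open scoped Classical

namespace UBDM

variable {k : Type} [Field k] [NumberField k]

lemma absV_pow (w : Place k) (a : k) (n : ℕ) : absV w (a ^ n) = absV w a ^ n := by
  induction n with
  | zero => simp
  | succ n ih => rw [pow_succ, absV_mul, ih, pow_succ]

lemma absV_prod {ι : Type} (w : Place k) (s : Finset ι) (f : ι → k) :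
    absV w (∏ i ∈ s, f i) = ∏ i ∈ s, absV w (f i) := by
  induction s using Finset.induction_on with
  | empty => simp
  | insert a s ha ih => rw [Finset.prod_insert ha, Finset.prod_insert ha, absV_mul, ih]

lemma sum_le_finsum {α : Type} {g : α → ℝ} (hg : (Function.support g).Finite) (h0 : ∀ a, 0 ≤ g a)
    (S : Finset α) : ∑ a ∈ S, g a ≤ ∑ᶠ a, g a := by
  rw [finsum_eq_sum_of_support_subset (s := S ∪ hg.toFinset) g]
  · exact Finset.sum_le_sum_of_subset_of_nonneg Finset.subset_union_left fun a _ _ => h0 a
  · intro a ha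
    rw [Finset.coe_union]
    right
    simpa using ha

/-- the constant at the place `v` -/
noncomputable def kp {N : ℕ} (P : MvPolynomial (Option (Fin N)) k) (D : ℕ) (v : Place k) : ℝ :=
  sw v * Real.log ((P.support.erase (Finsupp.single none D)).card : ℝ) +
    ∑ s ∈ P.support.erase (Finsupp.single none D), |Real.log (absV v (P.coeff s))|

lemma kp_nonneg {N : ℕ} (P : MvPolynomial (Option (Fin N)) k) (D : ℕ) (v : Place k) :
    0 ≤ kp P D v :=
  add_nonneg (mul_nonneg (sw_nonneg v) (Real.log_natCast_nonneg _))
    (Finset.sum_nonneg fun s _ => abs_nonneg _)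

lemma kp_fin {N : ℕ} (P : MvPolynomial (Option (Fin N)) k) (D : ℕ) :
    (Function.support fun v : Place k => kp P D v).Finite := by
  have h : (⋃ s ∈ (P.support : Set (Option (Fin N) →₀ ℕ)),
      Function.support fun v : Place k => Real.log (absV v (P.coeff s))).Finite :=
    P.support.finite_toSet.biUnion fun _ hs => support_log_absV_finite (mem_support_iff.mp hs)
  refine (support_sw_finite.union h).subset ?_
  intro v hv
  by_contra hcon
  rw [Set.mem_union, not_or] at hcon
  obtain ⟨h1, h2⟩ := hcon
  rw [Function.mem_support, not_not] at h1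
  apply hv
  show kp P D v = 0
  unfold kp
  rw [h1, zero_mul, zero_add]
  refine Finset.sum_eq_zero fun s hs => ?_
  rw [abs_eq_zero]
  by_contra h3
  apply h2
  exact Set.mem_biUnion (Finset.mem_of_mem_erase hs) h3

lemma loc {N : ℕ} (v : Place k) (P : MvPolynomial (Option (Fin N)) k) (D : ℕ) (hD : 0 < D)
    (hP : P.IsHomogeneous D) (hc : P.coeff (Finsupp.single none D) = 1)
    (g : Option (Fin N) → k) (hg : eval g P = 0) (y : ℝ) (hy : 0 < y)
    (hgy : ∀ j, absV v (g (some j)) = y) : absV v (g none) ≤ Real.exp (kp P D v) * y := by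
  have he : 1 ≤ Real.exp (kp P D v) := Real.one_le_exp (kp_nonneg P D v)
  rcases le_or_gt (absV v (g none)) y with hzy | hzy
  · exact hzy.trans (le_mul_of_one_le_left hy.le he)
  have hz : 0 < absV v (g none) := hy.trans hzy
  set z := absV v (g none) with hzdef
  have hmem : Finsupp.single none D ∈ P.support := by
    rw [mem_support_iff, hc]
    exact one_ne_zero
  -- the monomials
  have hmon : ∀ s ∈ P.support.erase (Finsupp.single none D),
      absV v (∏ o, g o ^ s o) ≤ z ^ (D - 1) * y := by
    intro s hs
    rw [Finset.mem_erase] at hs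
    obtain ⟨hs1, hs2⟩ := hs
    have hdeg : s none + ∑ j, s (some j) = D := by
      have h2 := hP (mem_support_iff.mp hs2)
      rw [← h2, Finsupp.weight_apply, Finsupp.sum_fintype]
      · rw [Fintype.sum_option]
        simp
      · intro i; simp
    have hb : 1 ≤ ∑ j, s (some j) := by
      rw [Nat.one_le_iff_ne_zero]
      intro h0
      apply hs1
      rw [Finset.sum_eq_zero_iff] at h0
      ext o
      rcases o with _ | j
      · rw [Finsupp.single_eq_same]
        rw [← hdeg]
        have : ∑ j, s (some j) = 0 := Finset.sum_eq_zero h0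
        omega
      · rw [h0 j (Finset.mem_univ j)]
        simp
    rw [absV_prod, Fintype.prod_option, absV_pow]
    have e1 : ∏ j, absV v (g (some j) ^ s (some j)) = y ^ ∑ j, s (some j) := by
      rw [← Finset.prod_pow_eq_pow_sum]
      refine Finset.prod_congr rfl fun j _ => ?_
      rw [absV_pow, hgy]
    rw [e1]
    set b := ∑ j, s (some j) with hbdef
    have e2 : y ^ b = y ^ (b - 1) * y := by
      rw [← pow_succ]
      congr 1
      omega
    have e3 : z ^ (D - 1) = z ^ s none * z ^ (b - 1) := by
      rw [← pow_add]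
      congr 1
      omega
    rw [e2, e3, mul_assoc]
    refine mul_le_mul_of_nonneg_left ?_ (pow_nonneg hz.le _)
    exact mul_le_mul_of_nonneg_right (pow_le_pow_left₀ hy.le hzy.le _) hy.le
  -- the relation
  rw [eval_eq', ← Finset.add_sum_erase _ _ hmem, hc, one_mul] at hg
  have e4 : ∏ o, g o ^ (Finsupp.single none D : Option (Fin N) →₀ ℕ) o = g none ^ D := by
    rw [Fintype.prod_option, Finsupp.single_eq_same]
    simp
  rw [e4] at hg
  have e5 : g none ^ D = - ∑ s ∈ P.support.erase (Finsupp.single none D),
      coeff s P * ∏ o, g o ^ s o := eq_neg_of_add_eq_zero_left hg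
  have e6 : z ^ D = absV v (∑ s ∈ P.support.erase (Finsupp.single none D),
      coeff s P * ∏ o, g o ^ s o) := by
    rw [hzdef, ← absV_pow, e5, absV_neg]
  rcases Finset.eq_empty_or_nonempty (P.support.erase (Finsupp.single none D)) with h0 | h0
  · rw [h0, Finset.sum_empty, absV_zero] at e6
    exact absurd e6 (pow_pos hz D).ne'
  have hcard : (0 : ℝ) < ((P.support.erase (Finsupp.single none D)).card : ℝ) := by
    exact_mod_cast Finset.card_pos.mpr h0
  have hB : 0 ≤ Real.exp (∑ s ∈ P.support.erase (Finsupp.single none D),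
      |Real.log (absV v (P.coeff s))|) * (z ^ (D - 1) * y) := by positivity
  have h1 := absV_sum_le v (P.support.erase (Finsupp.single none D))
    (fun s => coeff s P * ∏ o, g o ^ s o) hB (by
      intro s hs
      rw [absV_mul]
      refine mul_le_mul ?_ (hmon s hs) (absV_nonneg _ _) (Real.exp_pos _).le
      have hpos := absV_pos v (mem_support_iff.mp (Finset.mem_of_mem_erase hs))
      calc absV v (coeff s P) = Real.exp (Real.log (absV v (coeff s P))) :=
            (Real.exp_log hpos).symm
        _ ≤ _ := by
            apply Real.exp_le_exp.mpr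
            exact (le_abs_self _).trans
              (Finset.single_le_sum (f := fun s => |Real.log (absV v (coeff s P))|)
                (fun _ _ => abs_nonneg _) hs))
  rw [← e6] at h1
  have h2 : ((P.support.erase (Finsupp.single none D)).card : ℝ) ^ sw v *
      (Real.exp (∑ s ∈ P.support.erase (Finsupp.single none D),
        |Real.log (absV v (P.coeff s))|) * (z ^ (D - 1) * y)) =
      z ^ (D - 1) * (Real.exp (kp P D v) * y) := by
    unfold kp
    rw [Real.exp_add, Real.rpow_def_of_pos hcard, mul_comm (Real.log _) (sw v)]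
    ring
  rw [h2] at h1
  have h3 : z ^ D = z ^ (D - 1) * z := by
    rw [← pow_succ]
    congr 1
    omega
  rw [h3] at h1
  exact le_of_mul_le_mul_left h1 (pow_pos hz _)

end UBDM

open UBDM in
theorem specUBD : SpecUBD := by
  intro k _ _ Ω M f A S U hU N J hJ hIE
  choose D P hD hP hc hrel using hIE
  set κ : Place k → ℝ := fun v => ∑ a, kp (P a) (D a) v with hκ
  have hκ0 : ∀ v, 0 ≤ κ v := fun v => Finset.sum_nonneg fun a _ => kp_nonneg (P a) (D a) v
  have hκf : (Function.support κ).Finite := by
    refine (Set.finite_iUnion fun a => kp_fin (P a) (D a)).subset ?_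
    intro v hv
    by_contra hcon
    apply hv
    show ∑ a, kp (P a) (D a) v = 0
    refine Finset.sum_eq_zero fun a _ => ?_
    by_contra h
    exact hcon (Set.mem_iUnion.2 ⟨a, h⟩)
  refine ⟨∑ᶠ v, κ v, ?_⟩
  intro ω hω i hi
  obtain ⟨hne, hun⟩ := hU ω hω
  have hfi : f ω i ≠ 0 := hne i hi
  have hf0 : f ω ≠ 0 := by
    intro h
    apply hfi
    rw [h]
    rfl
  -- the local inequality
  have hloc : ∀ v ∉ S, vl v i (f ω) ≤ κ v := by
    intro v hv
    have hy : 0 < absV v (f ω i) := absV_pos v hfi
    have h1 : nrm v (f ω) ≤ Real.exp (κ v) * absV v (f ω i) := by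
      refine nrm_le v (f ω) (by positivity) ?_
      intro a
      have h2 := loc v (P a) (D a) (hD a) (hP a) (hc a) _ (hrel a ω hω) (absV v (f ω i)) hy
        (fun j => hun v hv (J j) (hJ j) i hi)
      refine h2.trans (mul_le_mul_of_nonneg_right ?_ hy.le)
      rw [Real.exp_le_exp]
      exact Finset.single_le_sum (f := fun a => kp (P a) (D a) v)
        (fun a _ => kp_nonneg (P a) (D a) v) (Finset.mem_univ a)
    have h3 := Real.log_le_log (nrm_pos v hf0) h1
    rw [Real.log_mul (Real.exp_pos _).ne' hy.ne', Real.log_exp] at h3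
    unfold vl
    linarith
  have hvf : (Function.support fun v : Place k => vl v i (f ω)).Finite := by
    refine ((support_log_nrm_finite hf0).union (support_log_absV_finite hfi)).subset ?_
    intro v hv
    by_contra hcon
    rw [Set.mem_union, not_or, Function.mem_support, not_not, Function.mem_support, not_not] at hcon
    apply hv
    show vl v i (f ω) = 0
    unfold vl
    rw [hcon.1, hcon.2, sub_zero]
  have htot : ∑ᶠ v : Place k, vl v i (f ω) = ht (f ω) := by
    unfold vl
    rw [finsum_sub_distrib (support_log_nrm_finite hf0) (support_log_absV_finite hfi),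
      product_formula hfi, sub_zero]
    rfl
  rw [← htot, finsum_eq_sum_of_support_subset (s := S ∪ hvf.toFinset) _ (by
    intro v hv
    rw [Finset.coe_union]
    right
    simpa using hv)]
  have hsub : S ⊆ S ∪ hvf.toFinset := Finset.subset_union_left
  rw [← Finset.sum_sdiff hsub]
  have h4 : ∑ v ∈ (S ∪ hvf.toFinset) \ S, vl v i (f ω) ≤ ∑ᶠ v, κ v := by
    refine (Finset.sum_le_sum fun v hv => hloc v (Finset.mem_sdiff.1 hv).2).trans ?_
    exact UBDM.sum_le_finsum hκf hκ0 _
  linarith

end Pool.Agent.Lib.MP_d0e829_nt.SI
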