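import Pool.Agent.Lib.MP_d0e829_nt.SI.Spec
import Pool.Agent.Lib.MP_d0e829_nt.SS.SpecE

/-!
# UNT: `S`-integral points are units outside a fixed finite set
-/

set_option autoImplicit false

open NumberField MvPolynomial
open Pool.Agent.Lib.MP_d0e829_nt.SS

namespace Pool.Agent.Lib.MP_d0e829_nt.SI

open scoped Classical NNReal WithZero

namespace UNTM

/-- The logarithm of the absolute value at a finite place is an integral multiple of the logarithm
of the norm of the prime ideal. -/
lemma log_fin {K : Type} [Field K] [NumberField K] (w : FinitePlace K) {z : K} (hz : z ≠ 0) :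
    ∃ m : ℤ, Real.log (w z) = m * Real.log (Ideal.absNorm w.maximalIdeal.asIdeal) := by
  have hv : w.maximalIdeal.valuation K z ≠ 0 := by
    simpa using hz
  refine ⟨Multiplicative.toAdd (WithZero.unzero hv), ?_⟩
  rw [← w.norm_embedding_eq, FinitePlace.norm_embedding, HeightOneSpectrum.adicAbv_def,
    WithZeroMulInt.toNNReal_neg_apply _ hv]
  push_cast
  rw [Real.log_zpow]

/-- `absNorm p ≤ absNorm P` for `P` above `p`. -/
lemma absNorm_le {k : Type} [Field k] [NumberField k] {K : Type} [Field K] [NumberField K]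
    [Algebra k K] (v : FinitePlace k) (w : FinitePlace K)
    (h : LiesOver (Sum.inr w : Place K) (Sum.inr v : Place k)) :
    Real.log (Ideal.absNorm v.maximalIdeal.asIdeal) ≤
      Real.log (Ideal.absNorm w.maximalIdeal.asIdeal) ∧
      0 ≤ Real.log (Ideal.absNorm v.maximalIdeal.asIdeal) := by
  have h' : w.maximalIdeal.asIdeal.comap (algebraMap (𝓞 k) (𝓞 K)) = v.maximalIdeal.asIdeal := h
  have hlo : w.maximalIdeal.asIdeal.LiesOver v.maximalIdeal.asIdeal := ⟨h'.symm⟩
  have h3 := Ideal.absNorm_pow_inertiaDeg (p := v.maximalIdeal.asIdeal)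
    (q := w.maximalIdeal.asIdeal)
  have h4 : 1 ≤ (w.maximalIdeal.asIdeal).inertiaDeg (𝓞 k) :=
    Ideal.inertiaDeg_pos w.maximalIdeal.asIdeal (𝓞 k)
  have h5 : Ideal.absNorm v.maximalIdeal.asIdeal ≠ 0 := by
    rw [Ne, Ideal.absNorm_eq_zero_iff]
    exact v.maximalIdeal.ne_bot
  have h6 : (1 : ℝ) ≤ Ideal.absNorm v.maximalIdeal.asIdeal := by
    exact_mod_cast Nat.one_le_iff_ne_zero.2 h5
  refine ⟨?_, Real.log_nonneg h6⟩
  rw [← h3]
  push_cast
  rw [Real.log_pow]
  have h7 := Real.log_nonneg h6
  have h8 : (1 : ℝ) ≤ (w.maximalIdeal.asIdeal).inertiaDeg (𝓞 k) := by exact_mod_cast h4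
  nlinarith

/-- Finitely many finite places with bounded norm. -/
lemma finite_norm {k : Type} [Field k] [NumberField k] (B : ℝ) :
    {v : FinitePlace k | Real.log (Ideal.absNorm v.maximalIdeal.asIdeal) ≤ B}.Finite := by
  have h1 := Ideal.finite_setOfPred_absNorm_le (S := 𝓞 k) ⌊Real.exp B⌋₊
  have hinj : Function.Injective (fun v : FinitePlace k => v.maximalIdeal.asIdeal) := by
    intro w₁ w₂ h
    apply FinitePlace.maximalIdeal_injective
    exact IsDedekindDomain.HeightOneSpectrum.ext h
  refine (h1.preimage hinj.injOn).subset ?_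
  intro v hv
  have h5 : Ideal.absNorm v.maximalIdeal.asIdeal ≠ 0 := by
    rw [Ne, Ideal.absNorm_eq_zero_iff]
    exact v.maximalIdeal.ne_bot
  have h6 : (0 : ℝ) < Ideal.absNorm v.maximalIdeal.asIdeal := by
    exact_mod_cast Nat.pos_of_ne_zero h5
  exact Nat.le_floor ((Real.log_le_iff_le_exp h6).1 hv)

/-- A place above `S` which lies above the finite place `v` forces `v ∈ S`. -/
lemma notMem_above {k : Type} [Field k] [NumberField k] {K : Type} [Field K] [NumberField K]
    [Algebra k K] {S : Finset (Place k)} {v : FinitePlace k} (hv : (Sum.inr v : Place k) ∉ S)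
    {w : Place K} (h : LiesOver w (Sum.inr v : Place k)) : w ∉ placesAbove K S := by
  rintro ⟨v', hv', h'⟩
  cases w with
  | inl w => exact h
  | inr w =>
    cases v' with
    | inl v' => exact h'
    | inr v' =>
      have e1 : w.maximalIdeal.asIdeal.comap (algebraMap (𝓞 k) (𝓞 K)) = v.maximalIdeal.asIdeal := h
      have e2 : w.maximalIdeal.asIdeal.comap (algebraMap (𝓞 k) (𝓞 K)) = v'.maximalIdeal.asIdeal := h'
      have e3 : v' = v := by
        apply FinitePlace.maximalIdeal_injective
        exact IsDedekindDomain.HeightOneSpectrum.ext (e2.symm.trans e1)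
      rw [e3] at hv'
      exact hv hv'

/-- The bound for the local terms outside `S`. -/
lemma mu_le {k : Type} [Field k] [NumberField k] (S : Finset (Place k)) {q : ℕ}
    (ℓ : Fin q → Fin 3 → k) (h0 : ∀ i, ℓ i ≠ 0) {A : Finset k} (hA : ∀ i j, ℓ i j ∈ A)
    {E : ℝ} {K : Type} [Field K] [NumberField K] [Algebra k K]
    (hE : ∑ᶠ w : Place K, err A w ≤ E) (x : Fin 3 → K) (hx : x ≠ 0)
    (hℓx : ∀ i, evalForm (ℓ i) x ≠ 0) {C₀ : ℝ} (hp : q * height x - C₀ ≤ proximity S ℓ x)
    {w₀ : Place K} (hw₀ : w₀ ∉ placesAbove K S) (i₀ : Fin q) :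
    mu (ℓ i₀) w₀ x ≤ C₀ + 2 * q * E := by
  have hfin : (placesAbove K S).Finite := placesAbove_finite S
  set W := hfin.toFinset with hW
  have hw₀W : w₀ ∉ W := by
    rw [hW, Set.Finite.mem_toFinset]
    exact hw₀
  have hsumE : ∀ T : Finset (Place K), ∑ w ∈ T, err A w ≤ E := fun T =>
    (sum_le_finsum (fun w => err_nonneg A w) (support_err_finite A) T).trans hE
  have hglob : ∀ (i : Fin q) (T : Finset (Place K)), ∑ w ∈ T, mu (ℓ i) w x ≤ height x + E := by
    intro i T
    exact (sum_mu_le (fun j => hA i j) (hℓx i) T).trans (by linarith)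
  have hprox : proximity S ℓ x = ∑ i, ∑ w ∈ W,
      (mu (ℓ i) w x + Real.log (normV w fun j => algebraMap k K (ℓ i j))) := by
    unfold proximity
    refine Finset.sum_congr rfl fun i _ => ?_
    rw [finsum_mem_eq_finite_toFinset_sum _ hfin]
    refine Finset.sum_congr rfl fun w _ => ?_
    have hn0 : (fun j => algebraMap k K (ℓ i j)) ≠ 0 := by
      intro h
      apply h0 i
      funext j
      have := congrFun h j
      simpa using this
    have p1 := normV_pos w hx
    have p2 := normV_pos w hn0
    have p3 := absV_pos w (hℓx i)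
    rw [Real.log_div (mul_pos p1 p2).ne' p3.ne', Real.log_mul p1.ne' p2.ne']
    unfold mu
    ring
  have hnorm : ∀ i (w : Place K), Real.log (normV w fun j => algebraMap k K (ℓ i j)) ≤ err A w := by
    intro i w
    have := log_normV_le_err (fun j => hA i j) w
    have h2 := log_kap_nonneg w
    linarith
  have hi : ∀ i, ∑ w ∈ W, (mu (ℓ i) w x + Real.log (normV w fun j => algebraMap k K (ℓ i j))) ≤
      height x + 2 * E - if i = i₀ then mu (ℓ i₀) w₀ x else 0 := by
    intro i
    rw [Finset.sum_add_distrib]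
    have h2 : ∑ w ∈ W, Real.log (normV w fun j => algebraMap k K (ℓ i j)) ≤ E :=
      (Finset.sum_le_sum fun w _ => hnorm i w).trans (hsumE W)
    by_cases h : i = i₀
    · rw [if_pos h]
      subst h
      have h1 := hglob i (insert w₀ W)
      rw [Finset.sum_insert hw₀W] at h1
      linarith
    · rw [if_neg h]
      have h1 := hglob i W
      linarith
  have hsum : proximity S ℓ x ≤ ∑ i, (height x + 2 * E - if i = i₀ then mu (ℓ i₀) w₀ x else 0) := by
    rw [hprox]
    exact Finset.sum_le_sum fun i _ => hi i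
  rw [Finset.sum_sub_distrib, Finset.sum_const, Finset.card_univ, Fintype.card_fin, nsmul_eq_mul,
    Finset.sum_ite_eq' Finset.univ i₀ (fun _ => mu (ℓ i₀) w₀ x), if_pos (Finset.mem_univ _)] at hsum
  linarith

/-- The value `mu` at a finite place is an integral multiple of a fixed number. -/
lemma mu_int {k : Type} [Field k] {K : Type} [Field K] [NumberField K]
    [Algebra k K] (M : Fin 3 → k) (w : FinitePlace K) (x : Fin 3 → K) (hx : x ≠ 0)
    (h : evalForm M x ≠ 0) : ∃ m : ℤ, mu M (Sum.inr w : Place K) x =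
      m * (Real.log (Ideal.absNorm w.maximalIdeal.asIdeal) / Module.finrank ℚ K) := by
  obtain ⟨j, hj⟩ := exists_normV_eq (Sum.inr w : Place K) x
  have hxj : x j ≠ 0 := by
    intro h0
    have h1 := normV_pos (Sum.inr w : Place K) hx
    rw [hj, h0, absV_zero] at h1
    exact lt_irrefl _ h1
  obtain ⟨a, ha⟩ := log_fin w hxj
  obtain ⟨b, hb⟩ := log_fin w h
  refine ⟨a - b, ?_⟩
  unfold mu
  rw [hj, log_absV _ hxj, log_absV _ h]
  show weight (Sum.inr w : Place K) * Real.log (w (x j)) -
    weight (Sum.inr w : Place K) * Real.log (w (evalForm M x)) = _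
  rw [ha, hb]
  simp only [weight]
  push_cast
  ring

end UNTM

open UNTM in
theorem specUNT (hEFV : SS.SpecEFV) : SpecUNT := by
  intro k _ _ S q δ ℓ h0 C₀
  let A : Finset k := (Finset.univ : Finset (Fin q × Fin 3)).image (fun t => ℓ t.1 t.2)
  have hA : ∀ i j, ℓ i j ∈ A := fun i j =>
    Finset.mem_image.mpr ⟨(i, j), Finset.mem_univ _, rfl⟩
  obtain ⟨E₀, hE₀⟩ := exists_bound_err A
  set E := max E₀ 0 with hE
  have hE0 : 0 ≤ E := le_max_right _ _
  set C₁ : ℝ := max (C₀ + 2 * q * E) 0 with hC₁
  have hC10 : 0 ≤ C₁ := le_max_right _ _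
  -- the finite places where some constant is not a unit
  have hf1 : ∀ a : k, (Function.support fun v : Place k => Real.log (absV v a)).Finite := by
    intro a
    rcases eq_or_ne a 0 with h | h
    · subst h
      simp
    · exact support_log_absV_finite h
  have hf2 : (⋃ a ∈ A, Function.support fun v : Place k => Real.log (absV v a)).Finite :=
    Set.Finite.biUnion A.finite_toSet fun a _ => hf1 a
  have hf3 := finite_norm (k := k) (δ * Module.finrank ℚ k * C₁)
  have hf4 : (Sum.inl '' (Set.univ : Set (InfinitePlace k)) : Set (Place k)).Finite :=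
    (Set.toFinite _).image _
  let S' : Finset (Place k) := S ∪ hf4.toFinset ∪ hf2.toFinset ∪ (hf3.image Sum.inr).toFinset
  refine ⟨S', ?_, ?_, ?_⟩
  · intro v hv
    simp only [S', Finset.mem_union]
    exact Or.inl (Or.inl (Or.inl hv))
  · intro v
    simp only [S', Finset.mem_union]
    refine Or.inl (Or.inl (Or.inr ?_))
    rw [Set.Finite.mem_toFinset]
    exact ⟨v, trivial, rfl⟩
  intro K _ _ _ x hδ hx hℓx hp v hv w hw i
  simp only [S', Finset.mem_union, Set.Finite.mem_toFinset, not_or] at hv
  obtain ⟨⟨⟨hvS, hv1⟩, hv2⟩, hv3⟩ := hv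
  cases v with
  | inl v => exact absurd ⟨v, trivial, rfl⟩ hv1
  | inr v =>
    cases w with
    | inl w => exact hw.elim
    | inr w =>
      have hEK : ∑ᶠ w : Place K, err A w ≤ E := (hE₀ K).trans (le_max_left _ _)
      have h1 : mu (ℓ i) (Sum.inr w : Place K) x ≤ C₁ :=
        (mu_le S ℓ h0 hA hEK x hx hℓx hp (notMem_above hvS hw) i).trans (le_max_left _ _)
      -- the error term vanishes at `w`
      have hone : ∀ a ∈ A, a ≠ 0 → absV (Sum.inr w : Place K) (algebraMap k K a) = 1 := by
        intro a ha ha0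
        have e1 : Real.log (absV (Sum.inr v : Place k) a) = 0 := by
          by_contra hcon
          exact hv2 (Set.mem_iUnion₂.2 ⟨a, ha, hcon⟩)
        rw [log_absV _ ha0] at e1
        have e2 : Real.log (v a) = 0 := by
          rcases mul_eq_zero.1 e1 with h | h
          · exact absurd h (weight_pos _).ne'
          · exact h
        have e3 : 0 < v a := FinitePlace.pos_iff.mpr ha0
        have e4 : v a = 1 := Real.eq_one_of_pos_of_log_eq_zero e3 e2
        have e5 := hEFV k K v w hw a
        rw [e4, one_pow] at e5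
        unfold absV
        show (w (algebraMap k K a)) ^ _ = (1 : ℝ)
        rw [e5, Real.one_rpow]
      have herr : err A (Sum.inr w : Place K) = 0 := by
        unfold err
        have e1 : kap (Sum.inr w : Place K) = 1 := rfl
        rw [e1, Real.log_one, zero_add]
        refine Finset.sum_eq_zero fun a ha => ?_
        rcases eq_or_ne a 0 with h | h
        · subst h
          simp
        · rw [hone a ha h]
          simp
      have h2 : 0 ≤ mu (ℓ i) (Sum.inr w : Place K) x := by
        have := mu_add_err_nonneg (fun j => hA i j) (Sum.inr w : Place K) (hℓx i)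
        rw [herr, add_zero] at this
        exact this
      obtain ⟨m, hm⟩ := mu_int (ℓ i) w x hx (hℓx i)
      obtain ⟨h3, h4⟩ := absNorm_le v w hw
      have hd := finrank_pos' (K := K)
      have hdk := finrank_pos' (K := k)
      have h5 : δ * Module.finrank ℚ k * C₁ < Real.log (Ideal.absNorm v.maximalIdeal.asIdeal) := by
        by_contra hcon
        push Not at hcon
        exact hv3 ⟨v, hcon, rfl⟩
      have h6 : (Module.finrank ℚ K : ℝ) ≤ δ * Module.finrank ℚ k := by
        have : FiniteDimensional k K := Module.Finite.of_restrictScalars_finite ℚ k K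
        have e1 := Module.finrank_mul_finrank ℚ k K
        rw [← e1]
        push_cast
        have : (Module.finrank k K : ℝ) ≤ δ := by exact_mod_cast hδ
        nlinarith
      have h7 : C₁ < Real.log (Ideal.absNorm w.maximalIdeal.asIdeal) / Module.finrank ℚ K := by
        rw [lt_div_iff₀ hd]
        nlinarith
      by_contra hne
      have h8 : 0 < mu (ℓ i) (Sum.inr w : Place K) x := lt_of_le_of_ne h2 (Ne.symm hne)
      have h9 : 0 < Real.log (Ideal.absNorm w.maximalIdeal.asIdeal) / Module.finrank ℚ K :=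
        lt_of_le_of_lt hC10 h7
      have h10 : (0 : ℝ) < m := by
        rw [hm] at h8
        exact (mul_pos_iff_of_pos_right h9).1 h8
      have h11 : (1 : ℝ) ≤ m := by exact_mod_cast (Int.cast_pos.1 h10 : 0 < m)
      rw [hm] at h1
      nlinarith

end Pool.Agent.Lib.MP_d0e829_nt.SI
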