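import Pool.Agent.Lib.MP_d0e829_nt.SS.MainSUB
import Pool.Agent.Lib.MP_d0e829_nt.SS.MAX
import Pool.Agent.Lib.MP_d0e829_nt.SS.TRV
import Pool.Agent.Lib.MP_d0e829_nt.SS.SUBI
import Pool.Agent.Lib.MP_d0e829_nt.SS.FCH
import Pool.Agent.Lib.MP_d0e829_nt.SS.IRR
import Pool.Agent.Lib.MP_d0e829_nt.SS.FIL
import Pool.Agent.Lib.MP_d0e829_nt.SS.GRO
import Pool.Agent.Lib.MP_d0e829_nt.SS.CRV
import Pool.Agent.Lib.MP_d0e829_nt.SS.EFV
import Pool.Agent.Lib.MP_d0e829_nt.SI.NCI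
import Pool.Agent.Lib.MP_d0e829_nt.SI.NCF
import Pool.Agent.Lib.MP_d0e829_nt.SI.PIA
import Pool.Agent.Lib.MP_d0e829_nt.SI.SEG
import Pool.Agent.Lib.MP_d0e829_nt.SI.DET
import Pool.Agent.Lib.MP_d0e829_nt.SI.NRM
import Pool.Agent.Lib.MP_d0e829_nt.SI.NTH
import Pool.Agent.Lib.MP_d0e829_nt.SI.GFI
import Pool.Agent.Lib.MP_d0e829_nt.SI.KRO
import Pool.Agent.Lib.MP_d0e829_nt.SI.UNI
import Pool.Agent.Lib.MP_d0e829_nt.SI.HUL
import Pool.Agent.Lib.MP_d0e829_nt.SI.CVX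
import Pool.Agent.Lib.MP_d0e829_nt.SI.GRW
import Pool.Agent.Lib.MP_d0e829_nt.SI.UBD
import Pool.Agent.Lib.MP_d0e829_nt.SI.CRW
import Pool.Agent.Lib.MP_d0e829_nt.SI.LNX
import Pool.Agent.Lib.MP_d0e829_nt.SI.LOA
import Pool.Agent.Lib.MP_d0e829_nt.SI.LOB
import Pool.Agent.Lib.MP_d0e829_nt.SI.UNT
import Pool.Agent.Lib.MP_d0e829_nt.SI.SUP
import Pool.Agent.Lib.MP_d0e829_nt.SI.HTX
import Pool.Agent.Lib.MP_d0e829_nt.SI.ABS
import Pool.Agent.Lib.MP_d0e829_nt.SI.FNI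

/-!
# Integral points, without hypotheses
-/

set_option autoImplicit false

open Pool.Agent.Lib.MP_d0e829_nt.SS

namespace Pool.Agent.Lib.MP_d0e829_nt.SI

namespace MainI

theorem crv : SS.SpecCRV :=
  specCRV (specSUBI sub specTRV) (specFIL specIRR) specGRO specTRV

theorem loa : SpecLOA := specLOA specNCI specNCF

theorem lob : SpecLOB := specLOB loa

theorem crw : SpecCRW := specCRW crv specFCH

theorem uni : SpecUNI := specUNI sub specNTH specGFI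

theorem nrm' : SpecNRM := specNRM (specDET (specSEG specPIA))

theorem abs' : SpecABS :=
  specABS specMAX nrm' (specKRO specNTH specGFI) (specHUL uni) specCVX specGRW specUBD crw lob

end MainI

/-- Theorem I: integral points. -/
theorem integral : SpecFNI :=
  specFNI specLNX specNCF (specUNT specEFV) (specHTX specTRV MainI.loa specSUP) MainI.abs'

end Pool.Agent.Lib.MP_d0e829_nt.SI
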