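import Pool.Agent.Lib.MP_d0e829_nt.SI.Spec

/-! # Module NCI: norms at infinite places -/

set_option autoImplicit false

open NumberField MvPolynomial
open Pool.Agent.Lib.MP_d0e829_nt.SS

namespace Pool.Agent.Lib.MP_d0e829_nt.SI

open scoped Classical

namespace NCIM

variable {k : Type} [Field k] [NumberField k] {K : Type} [Field K] [NumberField K] [Algebra k K]

/-- The embeddings extending `φ`. -/
lemma fiber (φ : k →+* ℂ) (z : K) (hz : z ≠ 0) :
    ∑ ψ ∈ (Finset.univ : Finset (K →+* ℂ)).filter (fun ψ => ψ.comp (algebraMap k K) = φ),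
      Real.log ‖ψ z‖ = Real.log ‖φ (Algebra.norm k z)‖ := by
  let : Algebra k ℂ := φ.toAlgebra
  have : FiniteDimensional k K := Module.Finite.of_restrictScalars_finite ℚ k K
  have h1 : φ (Algebra.norm k z) = ∏ τ : K →ₐ[k] ℂ, τ z := Algebra.norm_eq_prod_embeddings k ℂ z
  rw [h1, norm_prod, Real.log_prod (fun τ _ => by
    rw [norm_ne_zero_iff]; exact fun h => hz ((map_eq_zero (τ : K →+* ℂ)).mp h))]
  symm
  refine Finset.sum_bij (fun (τ : K →ₐ[k] ℂ) _ => (τ : K →+* ℂ)) ?_ ?_ ?_ ?_
  · intro τ _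
    rw [Finset.mem_filter]
    refine ⟨Finset.mem_univ _, ?_⟩
    ext r
    exact τ.commutes r
  · intro τ _ τ' _ h
    ext x
    exact congrArg (fun f : K →+* ℂ => f x) h
  · intro ψ hψ
    rw [Finset.mem_filter] at hψ
    refine ⟨⟨ψ, fun r => ?_⟩, Finset.mem_univ _, ?_⟩
    · exact congrArg (fun f : k →+* ℂ => f r) hψ.2
    · ext x; rfl
  · intro τ _; rfl

/-- The sum over all embeddings above `v`, grouped by their restriction to `k`. -/
lemma sum_down (v : InfinitePlace k) (z : K) (hz : z ≠ 0) :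
    ∑ ψ ∈ (Finset.univ : Finset (K →+* ℂ)).filter
        (fun ψ => InfinitePlace.mk (ψ.comp (algebraMap k K)) = v), Real.log ‖ψ z‖ =
      v.mult * Real.log (v (Algebra.norm k z)) := by
  rw [← Finset.sum_fiberwise_of_maps_to (g := fun ψ : K →+* ℂ => ψ.comp (algebraMap k K))
    (t := (Finset.univ : Finset (k →+* ℂ)).filter (fun φ => InfinitePlace.mk φ = v))
    (fun ψ hψ => by
      rw [Finset.mem_filter] at hψ ⊢
      exact ⟨Finset.mem_univ _, hψ.2⟩)]
  have h1 : ∀ φ ∈ (Finset.univ : Finset (k →+* ℂ)).filter (fun φ => InfinitePlace.mk φ = v),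
      ∑ ψ ∈ ((Finset.univ : Finset (K →+* ℂ)).filter
        (fun ψ => InfinitePlace.mk (ψ.comp (algebraMap k K)) = v)).filter
          (fun ψ => ψ.comp (algebraMap k K) = φ), Real.log ‖ψ z‖ =
      Real.log (v (Algebra.norm k z)) := by
    intro φ hφ
    rw [Finset.mem_filter] at hφ
    have e1 : v (Algebra.norm k z) = ‖φ (Algebra.norm k z)‖ := by
      rw [← hφ.2]; rfl
    rw [e1, ← fiber φ z hz]
    refine Finset.sum_congr ?_ fun _ _ => rfl
    ext ψ
    simp only [Finset.mem_filter, Finset.mem_univ, true_and]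
    constructor
    · exact fun h => h.2
    · intro h; exact ⟨by rw [h]; exact hφ.2, h⟩
  rw [Finset.sum_congr rfl h1, Finset.sum_const, nsmul_eq_mul]
  congr 2
  exact InfinitePlace.card_filter_mk_eq v

/-- The same sum, grouped by the places of `K`. -/
lemma sum_up (v : InfinitePlace k) (z : K) :
    ∑ ψ ∈ (Finset.univ : Finset (K →+* ℂ)).filter
        (fun ψ => InfinitePlace.mk (ψ.comp (algebraMap k K)) = v), Real.log ‖ψ z‖ =
      ∑ w ∈ (Finset.univ : Finset (InfinitePlace K)).filter
        (fun w => w.comap (algebraMap k K) = v), (w.mult : ℝ) * Real.log (w z) := by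
  rw [← Finset.sum_fiberwise_of_maps_to (g := fun ψ : K →+* ℂ => InfinitePlace.mk ψ)
    (t := (Finset.univ : Finset (InfinitePlace K)).filter
      (fun w => w.comap (algebraMap k K) = v))
    (fun ψ hψ => by
      rw [Finset.mem_filter] at hψ ⊢
      exact ⟨Finset.mem_univ _, hψ.2⟩)]
  refine Finset.sum_congr rfl fun w hw => ?_
  rw [Finset.mem_filter] at hw
  have h1 : ((Finset.univ : Finset (K →+* ℂ)).filter
      (fun ψ => InfinitePlace.mk (ψ.comp (algebraMap k K)) = v)).filter
        (fun ψ => InfinitePlace.mk ψ = w) =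
      (Finset.univ : Finset (K →+* ℂ)).filter (fun ψ => InfinitePlace.mk ψ = w) := by
    ext ψ
    simp only [Finset.mem_filter, Finset.mem_univ, true_and]
    constructor
    · exact fun h => h.2
    · intro h
      refine ⟨?_, h⟩
      have := hw.2
      rw [← h] at this
      exact this
  rw [h1]
  have h2 : ∀ ψ ∈ (Finset.univ : Finset (K →+* ℂ)).filter (fun ψ => InfinitePlace.mk ψ = w),
      Real.log ‖ψ z‖ = Real.log (w z) := by
    intro ψ hψ
    rw [Finset.mem_filter] at hψ
    rw [← hψ.2]; rfl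
  rw [Finset.sum_congr rfl h2, Finset.sum_const, nsmul_eq_mul]
  congr 2
  exact InfinitePlace.card_filter_mk_eq w

lemma log_absI {F : Type} [Field F] [NumberField F] (w : InfinitePlace F) {a : F} (ha : a ≠ 0) :
    Real.log (absV (Sum.inl w : Place F) a) =
      (w.mult : ℝ) / Module.finrank ℚ F * Real.log (w a) := by
  show Real.log ((w a : ℝ) ^ ((w.mult : ℝ) / Module.finrank ℚ F)) = _
  rw [Real.log_rpow (InfinitePlace.pos_iff.mpr ha)]

end NCIM

open NCIM in
theorem specNCI : SpecNCI := by
  intro k _ _ K _ _ _ v z hz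
  have : FiniteDimensional k K := Module.Finite.of_restrictScalars_finite ℚ k K
  have hN : Algebra.norm k z ≠ 0 := Algebra.norm_ne_zero_iff.mpr hz
  have hset : {w : Place K | LiesOver w (Sum.inl v : Place k)} =
      (((Finset.univ : Finset (InfinitePlace K)).filter
        (fun w => w.comap (algebraMap k K) = v)).map
          ⟨Sum.inl, Sum.inl_injective⟩ : Finset (Place K)) := by
    ext w
    cases w with
    | inl w => simp [LiesOver]
    | inr w => simp [LiesOver]
  rw [hset, finsum_mem_coe_finset, Finset.sum_map]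
  have e1 : ∀ w ∈ (Finset.univ : Finset (InfinitePlace K)).filter
      (fun w => w.comap (algebraMap k K) = v),
      Real.log (absV ((⟨Sum.inl, Sum.inl_injective⟩ : InfinitePlace K ↪ Place K) w) z) =
        ((Module.finrank ℚ K : ℝ))⁻¹ * ((w.mult : ℝ) * Real.log (w z)) := by
    intro w _
    show Real.log (absV (Sum.inl w : Place K) z) = _
    rw [log_absI w hz]; ring
  rw [Finset.sum_congr rfl e1, ← Finset.mul_sum, ← sum_up v z, sum_down v z hz, log_absI v hN]
  have hd : (Module.finrank ℚ k : ℝ) * Module.finrank k K = Module.finrank ℚ K := by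
    exact_mod_cast Module.finrank_mul_finrank ℚ k K
  have hk : (Module.finrank ℚ k : ℝ) ≠ 0 := by
    exact_mod_cast (Module.finrank_pos (R := ℚ) (M := k)).ne'
  have hK : (Module.finrank k K : ℝ) ≠ 0 := by
    exact_mod_cast (Module.finrank_pos (R := k) (M := K)).ne'
  rw [← hd]
  field_simp

end Pool.Agent.Lib.MP_d0e829_nt.SI
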