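import Pool.Agent.Lib.MP_d0e829_nt.SS.SpecC3
import Pool.Agent.Lib.MP_d0e829_nt.Main

/-!
# All degrees: integral points and one-parameter families (specifications of the modules)

`k` number field, `S` finite set of places, `ℓ : Fin q → Fin 3 → k` lines in general position.
THEOREM I (`SpecFNI`).  If `3 δ + 1 ≤ q`, then for every `C` there are finitely many lines over `k` and
`C'` such that every point of degree `≤ δ` off these lines with `m_{D,S} ≥ q h - C` (an `S`-integral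
point) has height `≤ C'`.
THEOREM F (`SpecFNF`).  For every set of points of degree `≤ δ` whose vectors of norms lie on curves
(linear growth of the Hilbert function) `m_{D,S} ≤ (3 δ + ε) h + C` off finitely many lines over `k`.

A point `x ∈ K³`, `[K : k] = n`, gives the vector `nv Ξ x ∈ k^M` of the norms `N_{K/k}(Ξ_a(x))`, where
`Ξ` is a finite list of lines over `k` (the `ℓ_i = Ξ_(e i)` and lines joining two nodes).
`Gen`, `SmSys`, `FS`, `val`, `lin` are those of `SS/CDefs.lean`, `err`, `mu` those of `Err.lean`, `Local.lean`.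

Conventions.  Module `XXX` is the file `SI/XXX.lean`; it imports only `SI.Spec`; namespace
`Pool.Agent.Lib.MP_d0e829_nt.SI`; it proves `theorem specXXX (hYYY : SpecYYY) .. : SpecXXX`, hypotheses in
the order of `USES`; own lemmas in a namespace `XXXM`.  All docstrings are complete proofs.
-/

set_option autoImplicit false

open NumberField MvPolynomial
open Pool.Agent.Lib.MP_d0e829_nt.SS

namespace Pool.Agent.Lib.MP_d0e829_nt.SI

open scoped Classical

/-- lines in general position -/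
def GP {F ι : Type} [Field F] (ℓ : ι → Fin 3 → F) : Prop :=
  ∀ i j l, i ≠ j → i ≠ l → j ≠ l → LinearIndependent F ![ℓ i, ℓ j, ℓ l]

/-- the vector of norms -/
noncomputable def nv {k K : Type} [Field k] [Field K] [Algebra k K] {M : ℕ} (Ξ : Fin M → Fin 3 → k)
    (x : Fin 3 → K) : Fin M → k := fun a => Algebra.norm k (evalForm (Ξ a) x)

/-- `log ‖f‖_v - log |f_a|_v` -/
noncomputable def vl {k : Type} [Field k] [NumberField k] {M : ℕ} (v : Place k) (a : Fin M)
    (f : Fin M → k) : ℝ := Real.log (nrm v f) - Real.log (absV v (f a))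

/-! ## Norms at the places -/

/-- NCI (160 lines).  USES nothing.  Norms at infinite places.

PROOF.  `n = [K : k]`, `[K : ℚ] = n [k : ℚ]` (`Module.finrank_mul_finrank`).  `φ = v.embedding`; `K` and `ℂ` are
`k`-algebras through `φ` (as in `ncard_inf_le` of `Count.lean`).  `φ (N z) = ∏_τ τ z` over the
`τ : K →ₐ[k] ℂ` (`Algebra.norm_eq_prod_embeddings`), so `log (v (N z)) = ∑_τ log ‖τ z‖`.  The map
`τ ↦ InfinitePlace.mk τ` goes onto the places `w` with `w.comap (algebraMap k K) = v`; `‖τ z‖ = w z`.  Claim: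
`mult v * (number of τ with mk τ = w) = mult w`.  The embeddings with `mk = w` are `ψ` and `conj ψ`,
`ψ = w.embedding` (equal if and only if `w` is real).  If `v` is real, `φ` is real and both extend `φ`:
`1` for `w` real, `2` for `w` complex.  If `v` is complex then `w` is complex and exactly one of `ψ`, `conj ψ`
extends `φ` (the restriction of `ψ` to `k` is `φ` or `conj φ ≠ φ`): `2 * 1 = 2`.  So
`mult v * log (v (N z)) = ∑_{w | v} mult w * log (w z)`; divide by `[k : ℚ]`.  The places above `inl v` are all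
infinite (`LiesOver`). -/
def SpecNCI : Prop := ∀ (k : Type) [Field k] [NumberField k] (K : Type) [Field K] [NumberField K]
  [Algebra k K] (v : InfinitePlace k) (z : K), z ≠ 0 →
  Real.log (absV (Sum.inl v : Place k) (Algebra.norm k z)) =
    Module.finrank k K * ∑ᶠ w ∈ {w : Place K | LiesOver w (Sum.inl v : Place k)},
      Real.log (absV w z)

/-- NCF (250 lines).  USES nothing.  Norms at finite places.

PROOF.  Let `z ∈ 𝓞 K`, `z ≠ 0` first (then quotients: both sides are additive in `z`, and every `z ∈ K` is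
`a / b` with `a, b ∈ 𝓞 K`).  `p = v.maximalIdeal.asIdeal`, `v a = (absNorm p)^(- ord_p a)` (`FinitePlace`,
`adicAbv`).  `Ideal.relNorm (𝓞 k) (span {z}) = span {intNorm z}` (`Ideal.relNorm_singleton`), `relNorm` is
multiplicative and `relNorm P = p'^(f(P))`, `p' = P ∩ 𝓞 k` (`Ideal.relNorm_eq_pow_of_isMaximal`), so
`ord_p (N z) = ∑_{P | p} f(P) ord_P z` (factor `span {z}` into primes).  `absNorm P = (absNorm p)^f(P)`
(`Ideal.absNorm_pow_inertiaDeg`, see `SS/EFV.lean`).  So `v (N z) = ∏_{P | p} w_P z`; the places above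
`inr v` are the `inr w` with `w.maximalIdeal ∩ 𝓞 k = p` (finitely many: `finite_fin` of `Count.lean`).  The
exponents are `1 / [k : ℚ]` and `1 / [K : ℚ]`.  ALTERNATIVE: induction on the factorisation of the ideal
`span {z}`: the function `I ↦ log (absNorm-part at p of relNorm I)` and `I ↦ ∑_{P | p} ord_P I log (absNorm P)`
are additive and agree on primes. -/
def SpecNCF : Prop := ∀ (k : Type) [Field k] [NumberField k] (K : Type) [Field K] [NumberField K]
  [Algebra k K] (v : FinitePlace k) (z : K), z ≠ 0 →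
  Real.log (absV (Sum.inr v : Place k) (Algebra.norm k z)) =
    Module.finrank k K * ∑ᶠ w ∈ {w : Place K | LiesOver w (Sum.inr v : Place k)},
      Real.log (absV w z)

/-! ## The integral equation -/

/-- PIA (120 lines).  USES nothing.

PROOF.  Induction on `J.card`, for all `m`.  `J.card = 3`: the `A` are the one element sets; the three
`lin (ℓ j)` are linearly independent, so every `X_c` is a combination of them, and every form of degree
`m + 1` is `∑_c X_c s_c` with forms `s_c` of degree `m` (or: the monomials of degree `m + 1 ≥ 1` are divisible by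
some `X_c`).  Step: `J = insert j₀ J'`, `p` of degree `(m + 1) + (J'.card - 2)`: `p = ∑_{A ⊆ J'} Π_A r_A`,
`r_A` of degree `m + 1`.  `J' ∖ A = {a, b}`; `ℓ j₀, ℓ a, ℓ b` are linearly independent, so
`r_A = lin (ℓ j₀) s₀ + lin (ℓ a) s_a + lin (ℓ b) s_b` (case 3), and
`Π_A r_A = Π_(A ∪ {j₀}) s₀ + Π_(A ∪ {a}) s_a + Π_(A ∪ {b}) s_b`.  Collect the terms for every subset of `J` with
`J.card - 2` elements.  (It may be convenient to prove that `p` is in the submodule of the sums.) -/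
def SpecPIA : Prop := ∀ (F : Type) [Field F] (ι : Type) (ℓ : ι → Fin 3 → F) (J : Finset ι),
  (∀ i ∈ J, ∀ j ∈ J, ∀ l ∈ J, i ≠ j → i ≠ l → j ≠ l → LinearIndependent F ![ℓ i, ℓ j, ℓ l]) →
  3 ≤ J.card → ∀ (m : ℕ) (p : MvPolynomial (Fin 3) F), p.IsHomogeneous (m + (J.card - 2)) →
  ∃ r : Finset ι → MvPolynomial (Fin 3) F, (∀ A, (r A).IsHomogeneous m) ∧
    p = ∑ A ∈ J.powersetCard (J.card - 2), (∏ j ∈ A, lin (ℓ j)) * r A

/-- the span of the products `∏_t φ_t(p_t)`, `p_t` forms of degree `m` -/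
noncomputable def Wm {F R : Type} [Field F] [CommRing R] [Algebra F R] {n : ℕ}
    (φ : Fin n → (MvPolynomial (Fin 3) F →ₐ[F] R)) (m : ℕ) : Submodule F R :=
  Submodule.span F {y | ∃ p : Fin n → MvPolynomial (Fin 3) F, (∀ t, (p t).IsHomogeneous m) ∧
    y = ∏ t, φ t (p t)}

/-- SEG (180 lines).  USES PIA.

PROOF.  Induction on `n`, for all `J`; by linearity `y = ∏_t φ_t(p_t)`, `p_t` of degree `m + 1`.
`n = 0`: `J = {j}`, `y = 1`, `v j = 1`, `Wm φ m = F 1`.  Step `n → n + 1`: `J.card = 2 n + 3`, `2 n ≤ m`.  The last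
form is `p = ∑_A Π_A r_A` by PIA (`m + 1 = (m - 2 n) + (J.card - 2)`), `A ⊆ J` with `2 n + 1` elements.  By
induction for `A` (and `φ` restricted to the first `n` indices, `2 n ≤ m + 2`):
`∏_{t<n} φ_t(p_t) = ∑_{j ∈ A} (∏_{t<n} φ_t(lin (ℓ j))) u_{A,j}`, `u_{A,j}` in the span for `n` and degree `m`.
So `y = ∑_A ∑_{j ∈ A} (∏_{t ≤ n} φ_t(lin (ℓ j))) · u_{A,j} φ_n(Π_(A ∖ {j}) r_A)`, and
`Π_(A ∖ {j}) r_A` is a form of degree `2 n + (m - 2 n) = m`, so the last factors are in `Wm φ m`.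
(`Fin.prod_univ_castSucc`.) -/
def SpecSEG : Prop := ∀ (F : Type) [Field F] (ι : Type) (ℓ : ι → Fin 3 → F) (R : Type) [CommRing R]
  [Algebra F R] (n : ℕ) (φ : Fin n → (MvPolynomial (Fin 3) F →ₐ[F] R)) (J : Finset ι),
  J.card = 2 * n + 1 →
  (∀ i ∈ J, ∀ j ∈ J, ∀ l ∈ J, i ≠ j → i ≠ l → j ≠ l → LinearIndependent F ![ℓ i, ℓ j, ℓ l]) →
  ∀ m : ℕ, 2 * n ≤ m + 2 → ∀ y ∈ Wm φ (m + 1), ∃ v : ι → R, (∀ j, v j ∈ Wm φ m) ∧
    y = ∑ j ∈ J, (∏ t, φ t (lin (ℓ j))) * v j

/-- DET (220 lines).  USES SEG.  The integral equation.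

PROOF.  `R = MvPolynomial (Fin n × Fin 3) F`, a domain, `φ_t = rename (fun c => (t, c))`, `m = 2 n - 2`
(`m = 0` for `n = 0`), `V = Wm φ m`, finite dimensional (a subspace of the forms of degree `n m`), not `0`
(`∏_t φ_t(X_0^m)`).  Let `e_1, …, e_D` be a basis of `V`, `D ≥ 1`, `g_j = ∏_t φ_t(lin (ℓ j))`,
`h = ∏_t φ_t(lin ξ)`.  `h e_a ∈ Wm φ (m + 1)`, so by SEG `h e_a = ∑_j g_j ∑_b c_{j,a,b} e_b`.  So the matrix
`h 1 - ∑_j g_j c_j` over `R` has determinant `0` (`Matrix.exists_mulVec_eq_zero_iff`).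
`P = det (X_none 1 - ∑_j X_j c_j)`: homogeneous of degree `D` (`Matrix.det_apply`: sums of products of `D`
linear forms), and the coefficient of `X_none^D` is its value at `X_none = 1`, `X_j = 0`, which is
`det 1 = 1`.  `P(g, h) = 0` in `R`; apply the homomorphism `R → L`, `X_(t,c) ↦ x t c`; it maps `φ_t(lin c)` to
`∑_j c_j x_(t,j)`. -/
def SpecDET : Prop := ∀ (F : Type) [Field F] (n : ℕ) (ℓ : Fin (2 * n + 1) → Fin 3 → F), GP ℓ →
  ∀ ξ : Fin 3 → F, ∃ (D : ℕ) (P : MvPolynomial (Option (Fin (2 * n + 1))) F), 0 < D ∧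
    P.IsHomogeneous D ∧ P.coeff (Finsupp.single none D) = 1 ∧
    ∀ (L : Type) [Field L] [Algebra F L] (x : Fin n → Fin 3 → L),
      aeval (fun o : Option (Fin (2 * n + 1)) => o.elim (∏ t, evalForm ξ (x t))
        (fun j => ∏ t, evalForm (ℓ j) (x t))) P = 0

/-- NRM (90 lines).  USES DET.  The same for norms.

PROOF.  `L = AlgebraicClosure k`, `σ_1, …, σ_n` the embeddings `K →ₐ[k] L`
(`AlgHom.card`, `finrank = n`), `x_t = σ_t ∘ x`.  `algebraMap k L (N z) = ∏_t σ_t z`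
(`Algebra.norm_eq_prod_embeddings`) and `σ_t (evalForm c x) = evalForm c (σ_t ∘ x)`.  So
`algebraMap k L (eval .. P) = aeval .. P = 0`, and `algebraMap k L` is injective. -/
def SpecNRM : Prop := ∀ (k : Type) [Field k] [NumberField k] (n : ℕ)
  (ℓ : Fin (2 * n + 1) → Fin 3 → k), GP ℓ → ∀ ξ : Fin 3 → k,
  ∃ (D : ℕ) (P : MvPolynomial (Option (Fin (2 * n + 1))) k), 0 < D ∧
    P.IsHomogeneous D ∧ P.coeff (Finsupp.single none D) = 1 ∧
    ∀ (K : Type) [Field K] [NumberField K] [Algebra k K] (x : Fin 3 → K), Module.finrank k K = n →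
      eval (fun o : Option (Fin (2 * n + 1)) => o.elim (Algebra.norm k (evalForm ξ x))
        (fun j => Algebra.norm k (evalForm (ℓ j) x))) P = 0

/-! ## Unit equations -/

/-- NTH (90 lines).  USES nothing.  Northcott's theorem.

PROOF.  Mathlib: `NumberTheory/Height/Northcott.lean` and `Height/NumberField.lean` (finitely many `u ∈ k` of
bounded height); `ht ![u, 1] = ∑_v log max (|u|_v, 1)` is Mathlib's logarithmic height of `u` divided by
`[k : ℚ]` (`Sanity.lean` has this for vectors with three coordinates). -/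
def SpecNTH : Prop := ∀ (k : Type) [Field k] [NumberField k] (C : ℝ), {u : k | ht ![u, 1] ≤ C}.Finite

/-- GFI (70 lines).  USES nothing.

PROOF.  `A` is covered by `B` and the sets `{ω ∈ A : (P - c Q)(f ω) = 0}`, `c ∈ E`.  `A` is not small, so one
of the latter is not small (finite unions of small sets and subsets are small), and `P - c Q` is
homogeneous of degree `m`: by `Gen` it vanishes on `A`. -/
def SpecGFI : Prop := ∀ (k : Type) [Field k] (Ω : Type) (M : ℕ) (f : Ω → Fin M → k)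
  (Sm : Set Ω → Prop), SmSys Sm → ∀ A : Set Ω, Gen Sm f A → ∀ (m : ℕ) (P Q : MvPolynomial (Fin M) k),
  P.IsHomogeneous m → Q.IsHomogeneous m → ∀ (B : Set Ω) (E : Set k), Sm B → E.Finite →
  (∀ ω ∈ A, ω ∉ B → eval (f ω) Q ≠ 0 ∧ eval (f ω) P / eval (f ω) Q ∈ E) →
  ∃ c : k, ∀ ω ∈ A, eval (f ω) P = c * eval (f ω) Q

/-- KRO (90 lines).  USES NTH, GFI.

PROOF.  `u ω = (f ω i / f ω j) / (f ω₀ i / f ω₀ j)` has `|u ω|_v = 1` for all places, so `nrm v ![u ω, 1] = 1`,
`ht ![u ω, 1] = 0`, and `u ω` is in a finite set (NTH).  GFI with `P = X i`, `Q = X j`, `B = ∅`. -/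
def SpecKRO : Prop := ∀ (k : Type) [Field k] [NumberField k] (Ω : Type) (M : ℕ)
  (f : Ω → Fin M → k) (Sm : Set Ω → Prop), SmSys Sm → ∀ A : Set Ω, Gen Sm f A →
  ∀ i j : Fin M, (∀ ω ∈ A, f ω i ≠ 0 ∧ f ω j ≠ 0) → ∀ ω₀ ∈ A,
  (∀ ω ∈ A, ∀ v : Place k, Real.log (absV v (f ω i)) - Real.log (absV v (f ω₀ i)) =
    Real.log (absV v (f ω j)) - Real.log (absV v (f ω₀ j))) →
  ∃ c : k, ∀ ω ∈ A, f ω i = c * f ω j

/-- the coordinates in `U` are units up to a common factor -/
def UnitOn {k : Type} [Field k] [NumberField k] {Ω : Type} {M : ℕ} (S : Finset (Place k))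
    (f : Ω → Fin M → k) (A : Set Ω) (U : Finset (Fin M)) : Prop :=
  ∀ ω ∈ A, (∀ i ∈ U, f ω i ≠ 0) ∧ ∀ v ∉ S, ∀ i ∈ U, ∀ j ∈ U, absV v (f ω i) = absV v (f ω j)

/-- UNI (300 lines).  USES SUB (the Subspace theorem, `SS.SpecSUB`; hypothesis `hSUB : SS.SpecSUB`), NTH, GFI.
The unit equation: in a relation between monomials every monomial is proportional to another one.

PROOF.  Write `y_s ω = ∏ i, f ω i ^ s i`, `α = α_0`.  Among the finite sets `E ⊆ P.support` with `α_0 ∈ E` such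
that some relation `∑_{s ∈ E} c_s y_s = 0` on `A` holds with `c_{α_0} ≠ 0` take one with the least number of
elements.  All `c_s ≠ 0`.  Let `E = {α_0, α_1, …, α_N}`.  `N ≥ 1` as `y_{α_0} ≠ 0`.  `N = 1`: take `β = α_1`.
Let `N ≥ 2`.  `y_{α_1}, …, y_{α_N}` are linearly independent on `A`: a relation between them could be used to
remove one of them.  `y_{α_0} = ∑_{i=1}^N b_i y_{α_i}`, `b_i ≠ 0`.  Let `y = (y_{α_i})_{1 ≤ i ≤ N} ∈ k^N`.  For a
function `g : Place k → {0, …, N}` let `L_v` be the matrix of the `N` forms: the coordinates, and `∑ b_i Y_i`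
(for `α_0`), without the one with index `g v` (`g v = 0`: all coordinates); `det ≠ 0` as `b_i ≠ 0`.  SUB with
`ε = 1/2` for the finitely many `g` restricted to `S`: for `ω` off a small set (every proper subspace `T` of
`k^N` is in the kernel of a nonzero functional, `∑ d_i y_{α_i}`, homogeneous and not identically `0` on `A`:
`Gen`) `∑_{v ∈ S} ∑_{i ≠ g v} (log nrm v y - log |y_{α_i}|_v) ≤ (N + 1/2) ht y + C` for all `g`; choose
`g v` with `|y_{α_(g v)}|_v` maximal.  For `v ∉ S` all `|y_{α_i}|_v` are equal to `nrm v y` (`UnitOn`, equal degrees;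
supports of the `α_i` in `U`).  Let `E' = ∑_{v ∉ S} log nrm v y`.  By the product formula
`∑_{v ∈ S} log |y_{α_i}|_v = - E'`, and `∑_{v ∈ S} log nrm v y = ht y - E'`.  So the left side is at least
`N (ht y - E') + (N + 1) E' + ∑_{v ∈ S} log nrm v y = (N + 1) ht y`, and `ht y ≤ 2 C`.  So
`ht ![y_{α_1} / y_{α_2}, 1] ≤ 2 C`: `y_{α_1} / y_{α_2}` takes finitely many values off a small set (NTH), and
by GFI `y_{α_1} = c y_{α_2}` on `A`, against the independence.  (If `P.support` is such that `m = 0`, there is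
only one monomial, and the hypothesis gives a contradiction.) -/
def SpecUNI : Prop := ∀ (k : Type) [Field k] [NumberField k] (Ω : Type) (M : ℕ)
  (f : Ω → Fin M → k) (Sm : Set Ω → Prop), SmSys Sm → ∀ A : Set Ω, Gen Sm f A →
  ∀ (S : Finset (Place k)) (U : Finset (Fin M)), UnitOn S f A U →
  ∀ (m : ℕ) (P : MvPolynomial (Fin M) k), P.IsHomogeneous m →
  (∀ s ∈ P.support, ∀ i, s i ≠ 0 → i ∈ U) → (∀ ω ∈ A, eval (f ω) P = 0) →
  ∀ α ∈ P.support, ∃ β ∈ P.support, β ≠ α ∧ ∃ c : k, c ≠ 0 ∧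
    ∀ ω ∈ A, ∏ i, f ω i ^ α i = c * ∏ i, f ω i ^ β i

/-- on `A` the coordinate `a` is integral over the coordinates `J j` -/
def IE {k : Type} [Field k] {Ω : Type} {M N : ℕ} (f : Ω → Fin M → k) (A : Set Ω)
    (J : Fin N → Fin M) (a : Fin M) : Prop :=
  ∃ (D : ℕ) (P : MvPolynomial (Option (Fin N)) k), 0 < D ∧ P.IsHomogeneous D ∧
    P.coeff (Finsupp.single none D) = 1 ∧
    ∀ ω ∈ A, eval (fun o : Option (Fin N) => o.elim (f ω a) (fun j => f ω (J j))) P = 0

/-- HUL (160 lines).  USES UNI.  The exponents are in the convex hull.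

PROOF.  If `a = J j₀` take `lam = Pi.single j₀ 1`.  Otherwise `ρ : Option (Fin N) → Fin M`, `none ↦ a`,
`some j ↦ J j`, is injective and `rename ρ P` is homogeneous of degree `D`, vanishes on `A`, its exponents
have support in `U`, and the coefficient of `single a D` is `1`.  UNI: an exponent `β ≠ single a D` in the
support, and `f_a^D = c ∏ f_i^(β i)` on `A`.  `β = single a (D - b) + ∑_j β_j single (J j) 1`, `∑ β_j = b ≥ 1`
(`b = 0` would give `β = single a D`).  Take logarithms for `ω` and `ω₀` and subtract: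
`b (log |f ω a|_v - log |f ω₀ a|_v) = ∑_j β_j (log |f ω (J j)|_v - log |f ω₀ (J j)|_v)`; `lam j = β_j / b`. -/
def SpecHUL : Prop := ∀ (k : Type) [Field k] [NumberField k] (Ω : Type) (M : ℕ)
  (f : Ω → Fin M → k) (Sm : Set Ω → Prop), SmSys Sm → ∀ A : Set Ω, Gen Sm f A →
  ∀ (S : Finset (Place k)) (U : Finset (Fin M)), UnitOn S f A U →
  ∀ (N : ℕ) (J : Fin N → Fin M), Function.Injective J → (∀ j, J j ∈ U) → ∀ a ∈ U, IE f A J a →
  ∃ lam : Fin N → ℝ, (∀ j, 0 ≤ lam j) ∧ ∑ j, lam j = 1 ∧ ∀ ω ∈ A, ∀ ω₀ ∈ A, ∀ v : Place k,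
    Real.log (absV v (f ω a)) - Real.log (absV v (f ω₀ a)) =
      ∑ j, lam j * (Real.log (absV v (f ω (J j))) - Real.log (absV v (f ω₀ (J j))))

/-- CVX (160 lines).  USES nothing.  Convex geometry.

PROOF.  For every pair `i, i'` with `g i ≠ g i'` choose `c` with `g i c ≠ g i' c`; `I₀` = the finite set of these
`c`, `d(i, i') = ∑_{c ∈ I₀} (g i c - g i' c)²`, `d(i, i') = 0` if and only if `g i = g i'`.  Call `p` extreme if
there is no injective `J` with `g (J j) ≠ g p` for all `j`; then at most `2 n` indices `i` have `g i ≠ g p`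
(otherwise such a `J` exists).  Claim: for every `i₀` an index `p` with `d(i₀, p)` maximal is extreme.  If `J` is
as above, `g p = ∑ lam_j g (J j)`, and
`d(i₀, p) = ∑ lam_j d(i₀, J j) - ∑ lam_j d(p, J j) ≤ d(i₀, p) - ∑ lam_j d(p, J j)` (for every `c`:
`(∑ lam_j (x_j - x))² = ∑ lam_j (x_j - x)² - ∑ lam_j (x_j - y)²`, `y = ∑ lam_j x_j`), so `d(p, J j) = 0` for a `j` with
`lam_j > 0`, a contradiction.  Let `p` be an extreme index, and `p'` with `d(p, p')` maximal; it is extreme.  If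
`g p' = g p` then all `g i` are equal to `g p`: `a = b = p`, `J` arbitrary.  Otherwise at least
`2 (q - 2 n) ≥ 2 n + 2` indices have `g i = g p` or `g i = g p'`; choose `J` among them. -/
def SpecCVX : Prop := ∀ (q n : ℕ) (I : Type) (g : Fin q → I → ℝ), 3 * n + 1 ≤ q →
  (∀ J : Fin (2 * n + 1) → Fin q, Function.Injective J → ∀ i, ∃ lam : Fin (2 * n + 1) → ℝ,
    (∀ j, 0 ≤ lam j) ∧ ∑ j, lam j = 1 ∧ ∀ c, g i c = ∑ j, lam j * g (J j) c) →
  ∃ (a b : Fin q) (J : Fin (2 * n + 1) → Fin q), Function.Injective J ∧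
    ∀ j, g (J j) = g a ∨ g (J j) = g b

/-- GRW (160 lines).  USES nothing.  Linear growth.

PROOF.  Let `D_a`, `P_a` be the data of `IE f A J a`.  On `A`:
`f_a^(D_a) = - ∑ (coefficient) f_a^(D_a - b) ∏_j f_(J j)^(β_j)`, sum over the other monomials, `b = ∑ β_j ≥ 1`, and
every `∏_j f_(J j)^(β_j)` is a constant times some `s^i t^(b-i)` (`s`, `t` for `f_s`, `f_t`).  Claim: every function
`s^i t^l ∏_a f_a^(γ a)`, `i + l + ∑ γ = m`, is on `A` in the span `W` of those with `γ a < D_a` for all `a`: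
strong induction on `∑ γ` (if `γ a ≥ D_a`, replace `f_a^(D_a)`).  `FS f A m` is spanned by the monomials, so it
is in `W`, and `W` is spanned by at most `(m + 1) ∏ D_a ≤ 2 (∏ D_a) m` functions (`i ≤ m`, `γ`, `l` determined). -/
def SpecGRW : Prop := ∀ (k : Type) [Field k] (Ω : Type) (M : ℕ) (f : Ω → Fin M → k) (A : Set Ω)
  (s t : Fin M) (N : ℕ) (J : Fin N → Fin M),
  (∀ j, ∃ c : k, (∀ ω ∈ A, f ω (J j) = c * f ω s) ∨ ∀ ω ∈ A, f ω (J j) = c * f ω t) →
  (∀ a, IE f A J a) →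
  ∃ D : ℝ, ∀ m : ℕ, 0 < m → (Module.finrank k (FS f A m) : ℝ) ≤ D * m

/-- UBD (160 lines).  USES nothing.  The sum of the local terms over `S` for units.

PROOF.  Let `v ∉ S`, `ω ∈ A`, `i ∈ U`: all `|f ω j|_v`, `j ∈ U`, are equal to `y = |f ω i|_v > 0`.  For every `a`, with the
data `D, P` of `IE f A J a`, `z = |f ω a|_v`: `z ≤ e^(κ v) y` with
`κ v = sw v * log (card P.support) + ∑_s log⁺ |P_s|_v`: if `z > y`, then
`z^D ≤ (card)^(sw v) (max |P_s|_v) z^(D-1) y` (`absV_sum_le`, the other monomials contain some `f_(J j)`).  So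
`log nrm v (f ω) - log |f ω i|_v ≤ κ v` (sum of the `κ` of all `a`), `∑_v κ v = C < ∞`.  By the product formula
`∑_{v} (log nrm v (f ω) - log |f ω i|_v) = ht (f ω)`. -/
def SpecUBD : Prop := ∀ (k : Type) [Field k] [NumberField k] (Ω : Type) (M : ℕ)
  (f : Ω → Fin M → k) (A : Set Ω) (S : Finset (Place k)) (U : Finset (Fin M)), UnitOn S f A U →
  ∀ (N : ℕ) (J : Fin N → Fin M), (∀ j, J j ∈ U) → (∀ a, IE f A J a) →
  ∃ C : ℝ, ∀ ω ∈ A, ∀ i ∈ U, ht (f ω) - C ≤ ∑ v ∈ S, vl v i (f ω)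

/-- CRW (120 lines).  USES CRV, FCH (`SS.SpecCRV`, `SS.SpecFCH`).  The curve case.

PROOF.  For every `φ : Place k → Fin M` CRV with `c v = Pi.single (φ v) 1` (`c v ⬝ᵥ f ω = f ω (φ v)`, and
`val v (c v) (f ω) = vl v (φ v) (f ω)`); FCH with `Φ = Fin M`, `ok = True`: off a small set
`∑_{v ∈ S} vl v (φ v) (f ω) ≤ (2 + ε) ht (f ω) + C` for all `φ`.  Choose `φ v = a` of the hypothesis and sum. -/
def SpecCRW : Prop := ∀ (k : Type) [Field k] [NumberField k] (Ω : Type) (M : ℕ)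
  (f : Ω → Fin M → k) (Sm : Set Ω → Prop), SmSys Sm → ∀ A : Set Ω, Gen Sm f A →
  0 < M → (∀ ω ∈ A, ∀ a, f ω a ≠ 0) →
  (∃ D : ℝ, ∀ m : ℕ, 0 < m → (Module.finrank k (FS f A m) : ℝ) ≤ D * m) →
  ∀ (S : Finset (Place k)) (c₀ C : ℝ) (T : Ω → Place k → ℝ), 0 ≤ c₀ →
  (∀ ω ∈ A, ∀ v ∈ S, ∃ a, T ω v ≤ c₀ * vl v a (f ω) + C) → ∀ ε : ℝ, 0 < ε →
  ∃ (B : Set Ω) (C' : ℝ), Sm B ∧ ∀ ω ∈ A, ω ∉ B →
    ∑ v ∈ S, T ω v ≤ (2 * c₀ + ε) * ht (f ω) + C'

/-! ## Lines and local inequalities -/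

/-- the sum over the places of `K` above `v` -/
noncomputable def up {k : Type} [Field k] [NumberField k] {K : Type} [Field K] [NumberField K]
    [Algebra k K] (v : Place k) (g : Place K → ℝ) : ℝ := ∑ᶠ w ∈ {w : Place K | LiesOver w v}, g w

/-- the lines `ℓ_i` and auxiliary lines: among the `Ξ_a` there is for any two pairs of lines a line
through both points of intersection -/
structure Cfg {k : Type} [Field k] {q M : ℕ} (ℓ : Fin q → Fin 3 → k) (Ξ : Fin M → Fin 3 → k)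
    (e : Fin q → Fin M) : Prop where
  three : 3 ≤ q
  gp : GP ℓ
  inj : Function.Injective e
  eq : ∀ i, Ξ (e i) = ℓ i
  ne : ∀ a, Ξ a ≠ 0
  join : ∀ a b c d : Fin q, a ≠ b → c ≠ d → ∃ (h : Fin M) (α β γ η : k),
    Ξ h = α • ℓ a + β • ℓ b ∧ Ξ h = γ • ℓ c + η • ℓ d

/-- LNX (110 lines).  USES nothing.

PROOF.  As `hM` in `main` of `Main.lean` (`exists_common`, `pair_of_triple`, `exists_third`): a line for every
quadruple `(a, b, c, d)`; `Ξ` = these `q^4` lines together with the `ℓ_i` (an equivalence of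
`Fin q ⊕ (Fin q × Fin q × Fin q × Fin q)` with some `Fin M`). -/
def SpecLNX : Prop := ∀ (k : Type) [Field k] (q : ℕ) (ℓ : Fin q → Fin 3 → k), 3 ≤ q → GP ℓ →
  ∃ (M : ℕ) (Ξ : Fin M → Fin 3 → k) (e : Fin q → Fin M), Cfg ℓ Ξ e

/-- LOA (250 lines).  USES NCI, NCF.  Local terms of `nv Ξ x` and local proximities.

PROOF.  Let `A` be a finite set of constants: the coefficients of all `Ξ a` and the sets of
`exists_three_lines` for all triples of the `ℓ i`; `E` from `exists_bound_err A`; `err` = `err A`.  For `v ∈ S` and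
every `a`, by NCI, NCF, with `z = evalForm (Ξ a) x`:
`log |N z|_v = n ∑_{w | v} log |z|_w = n ∑_{w | v} (log ‖x‖_w - mu (Ξ a) w x)`.
Let `X = n ∑_{w | v} log ‖x‖_w`.  It is enough that `|log nrm v (nv Ξ x) - X| ≤ n E`.  Upper bound:
`mu ≥ - err` (`mu_add_err_nonneg`) gives `log |N z|_v ≤ X + n ∑ err`.  Lower bound: for every `w | v` at most two
`i` have `mu (ℓ i) w x > err w` (`exists_three_lines`), there are at most `n` places above `v`
(`finite_above`), and `2 n + 1 ≤ q`, so some `i` has `mu (ℓ i) w x ≤ err w` for all `w | v`, and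
`log nrm v (nv Ξ x) ≥ log |N (ℓ_i x)|_v ≥ X - n ∑ err`. -/
def SpecLOA : Prop := ∀ (k : Type) [Field k] [NumberField k] (q M : ℕ) (ℓ : Fin q → Fin 3 → k)
  (Ξ : Fin M → Fin 3 → k) (e : Fin q → Fin M), Cfg ℓ Ξ e → ∀ n : ℕ, 2 * n + 1 ≤ q →
  ∃ C : ℝ, 0 ≤ C ∧ ∀ (K : Type) [Field K] [NumberField K] [Algebra k K] (x : Fin 3 → K),
    Module.finrank k K = n → (∀ a, evalForm (Ξ a) x ≠ 0) → ∀ (v : Place k) (a : Fin M),
      |vl v a (nv Ξ x) - n * up v (fun w : Place K => mu (Ξ a) w x)| ≤ C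

/-- LOB (220 lines).  USES LOA.  The local inequality, with `n ≥ 2`.

PROOF.  Let `C` be that of LOA, `A`, `E`, `err` as there (`A` also contains all `α β γ η` of `Cfg.join`).  Let
`V = max_a vl v a (nv Ξ x) ≥ 0`, `G` the set of the places above `v`, `1 ≤ g = |G| ≤ n` (`finite_above`; above every
place there is one: the sum in LOA; if `G` is empty the claim is trivial).  For every `a` and every subset
`G' ⊆ G`: `n ∑_{w ∈ G'} mu (Ξ a) w x ≤ V + C + n E =: B` (LOA and `mu ≥ - err` at the others).  For `w ∈ G` let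
`a_w, b_w` be the two lines with the largest `mu` (`top_two` of `Main.lean`); the others have `mu ≤ err`.  So
`∑_i vl v (e i) ≤ ∑_{w ∈ G} n (mu (ℓ a_w) + mu (ℓ b_w)) + q C + q n E`.  `n mu (ℓ a_w) w x ≤ B`.  For `w ≠ w'` in `G` the
line `h` of `join` for the pairs `(a_w, b_w)`, `(a_w', b_w')` and `min_mu_le`:
`n (mu (ℓ b_w) w x + mu (ℓ b_w') w' x) ≤ B + 2 n E`.  If `g ≥ 2` sum this over `w` and `w' = ρ w`, `ρ` a cyclic
permutation of `G`: `2 ∑ n mu (ℓ b_w) ≤ g (B + 2 n E)`; so the sum is at most `(3 g / 2) V + const` and `g ≤ n`,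
`V ≥ 0`.  If `g = 1` it is at most `2 V + const ≤ (3 n / 2) V + const`.  (`main` of `Main.lean` is the model.) -/
def SpecLOB : Prop := ∀ (k : Type) [Field k] [NumberField k] (q M : ℕ) (ℓ : Fin q → Fin 3 → k)
  (Ξ : Fin M → Fin 3 → k) (e : Fin q → Fin M), Cfg ℓ Ξ e → ∀ n : ℕ, 2 ≤ n → 2 * n + 1 ≤ q →
  ∃ C : ℝ, ∀ (K : Type) [Field K] [NumberField K] [Algebra k K] (x : Fin 3 → K),
    Module.finrank k K = n → (∀ a, evalForm (Ξ a) x ≠ 0) → ∀ v : Place k,
      ∃ a, ∑ i, vl v (e i) (nv Ξ x) ≤ (3 * n / 2 : ℝ) * vl v a (nv Ξ x) + C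

/-- UNT (300 lines).  USES EFV (`SS.SpecEFV`).  `S`-integral points are units outside a fixed finite set.

PROOF.  `A` = the set of all `ℓ i j`, `E` from `exists_bound_err A`, `err = err A`.  As `hprox` in `main` of `Main.lean`:
`proximity S ℓ x = ∑_i ∑_{w above S} (mu (ℓ i) w x + log ‖ℓ i‖_w)`, and `height x = ∑_w mu (ℓ i) w x` for every `i`
(product formula, as in `sum_mu_le`).  So
`∑_i ∑_{w not above S} mu (ℓ i) w x = q height x - proximity + ∑_i ∑_{w above S} log ‖ℓ i‖_w ≤ C₀ + q E`, and as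
`mu ≥ - err`: `mu (ℓ i) w x ≤ C₀ + 2 q E =: C₁` for every `i` and every `w` not above `S`.  `S'` contains: `S`, the
infinite places, the finite places `v` with `|a|_v ≠ 1` for some `a ∈ A`, `a ≠ 0` (finitely many,
`support_log_absV_finite`), and the finite places `v` with `log (absNorm v) ≤ δ [k : ℚ] C₁` (finitely many
ideals of bounded norm: `Ideal.finite_setOf_absNorm_le`).  Let `v ∉ S'`, `w` above `v`; both are finite; `w` is
not above `S` (it lies above only one place).  `|a|_w = 1` for `a ∈ A`, `a ≠ 0` (EFV), `kap w = 1`, so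
`err w = 0`, `0 ≤ mu (ℓ i) w x ≤ C₁`.  The numbers `log |z|_w`, `z ≠ 0`, are integral multiples of
`log (absNorm w) / [K : ℚ]`; `absNorm w ≥ absNorm v` (a power of it) and `[K : ℚ] ≤ δ [k : ℚ]`.  So
`mu (ℓ i) w x > 0` would give `mu (ℓ i) w x ≥ log (absNorm v) / (δ [k : ℚ]) > C₁`. -/
def SpecUNT : Prop := ∀ (k : Type) [Field k] [NumberField k] (S : Finset (Place k)) (q δ : ℕ)
  (ℓ : Fin q → Fin 3 → k), (∀ i, ℓ i ≠ 0) → ∀ C₀ : ℝ, ∃ S' : Finset (Place k), S ⊆ S' ∧
    (∀ v : InfinitePlace k, (Sum.inl v : Place k) ∈ S') ∧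
    ∀ (K : Type) [Field K] [NumberField K] [Algebra k K] (x : Fin 3 → K), Module.finrank k K ≤ δ →
      x ≠ 0 → (∀ i, evalForm (ℓ i) x ≠ 0) → q * height x - C₀ ≤ proximity S ℓ x →
      ∀ v ∉ S', ∀ w : Place K, LiesOver w v → ∀ i, mu (ℓ i) w x = 0

/-- SUP (130 lines).  USES nothing.  Every place lies above exactly one place, and sums.

PROOF.  Infinite `w`: `w.comap (algebraMap k K)`.  Finite `w`: `w.maximalIdeal ∩ 𝓞 k` is a nonzero prime
(`𝓞 K` is integral over `𝓞 k`), `FinitePlace.mk`.  Uniqueness: `maximalIdeal_injective`.  The sets of places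
above `v` are finite (`finite_above`) and form a partition. -/
def SpecSUP : Prop := ∀ (k : Type) [Field k] [NumberField k] (K : Type) [Field K] [NumberField K]
  [Algebra k K], (∀ w : Place K, ∃! v : Place k, LiesOver w v) ∧
    ∀ g : Place K → ℝ, (Function.support g).Finite →
      (Function.support fun v : Place k => up v g).Finite ∧
      ∑ᶠ v : Place k, up v g = ∑ᶠ w : Place K, g w

/-- HTX (120 lines).  USES TRV (`SS.SpecTRV`), LOA, SUP.  Heights of integral points.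

PROOF.  `i = 0`.  `height x = ∑_w mu (ℓ i) w x` (product formula) `= ∑_{v ∈ S'} up v (mu (ℓ i))` (SUP; the terms
at the places above `v ∉ S'` are `0`).  By LOA `n up v (mu (ℓ i)) ≤ vl v (e i) (nv Ξ x) + C`, and by TRV (first
part, `c = Pi.single (e i) 1`) `∑_{v ∈ S'} vl v (e i) (nv Ξ x) ≤ ht (nv Ξ x) + C`. -/
def SpecHTX : Prop := ∀ (k : Type) [Field k] [NumberField k] (q M : ℕ) (ℓ : Fin q → Fin 3 → k)
  (Ξ : Fin M → Fin 3 → k) (e : Fin q → Fin M), Cfg ℓ Ξ e → ∀ n : ℕ, 2 * n + 1 ≤ q →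
  ∀ S' : Finset (Place k), ∃ C : ℝ, ∀ (K : Type) [Field K] [NumberField K] [Algebra k K]
    (x : Fin 3 → K), Module.finrank k K = n → (∀ a, evalForm (Ξ a) x ≠ 0) →
    (∀ v ∉ S', ∀ w : Place K, LiesOver w v → ∀ i, mu (ℓ i) w x = 0) →
    n * height x ≤ ht (nv Ξ x) + C

/-- PRX (200 lines).  USES NCI, NCF, LOA, SUP.  Height and proximity of a general point.

PROOF.  First inequality: `log |N (Ξ_a x)|_v = n up v (log |Ξ_a x|_w) ≤ n up v (log ‖x‖_w + err w)`
(`mu_add_err_nonneg`; `A` = the coefficients of all `Ξ a`), so `log nrm v (nv Ξ x) ≤ n up v (log ‖x‖_w + err w)`;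
sum over all `v` (SUP, `exists_bound_err`).  Second inequality: as `hprox` in `main` of `Main.lean`
`proximity S ℓ x = ∑_i ∑_{w above S} (mu (ℓ i) w x + log ‖ℓ i‖_w) ≤ ∑_i ∑_{v ∈ S} up v (mu (ℓ i)) + q E`, and LOA. -/
def SpecPRX : Prop := ∀ (k : Type) [Field k] [NumberField k] (q M : ℕ) (ℓ : Fin q → Fin 3 → k)
  (Ξ : Fin M → Fin 3 → k) (e : Fin q → Fin M), Cfg ℓ Ξ e → ∀ n : ℕ, 2 * n + 1 ≤ q →
  ∀ S : Finset (Place k), ∃ C : ℝ, ∀ (K : Type) [Field K] [NumberField K] [Algebra k K]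
    (x : Fin 3 → K), Module.finrank k K = n → (∀ a, evalForm (Ξ a) x ≠ 0) →
    ht (nv Ξ x) ≤ n * height x + C ∧
    n * proximity S ℓ x ≤ ∑ v ∈ S, ∑ i, vl v (e i) (nv Ξ x) + C

/-! ## The theorems -/

/-- ABS (300 lines).  USES MAX (`SS.SpecMAX`), NRM, KRO, HUL, CVX, GRW, UBD, CRW, LOB.

PROOF.  `Ω = Fin M → k`, `f = id`.  Call `(K, x)` admissible if `finrank k K = n`, all `evalForm (Ξ a) x ≠ 0` and
the condition on the absolute values holds; `V` = the set of the `nv Ξ x`, `(K, x)` admissible.  `Sm B`: there are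
a finite set `Z` of nonzero forms and `C'` such that for every `f ∈ B ∩ V`: `ht f ≤ C'`, or every admissible
`(K, x)` with `nv Ξ x = f` has `evalForm L x = 0` for some `L ∈ Z`.  `SmSys Sm`.  If `Sm univ` we are done.
Otherwise MAX gives `A'` with `Gen`; let `A = A' ∩ V`: `A' \ V` is small, so `A` is not small, and `Gen` holds for
`A`.  Fix `ω₀ ∈ A`.  `U` = the image of `e`; `UnitOn S' f A U` (norms of nonzero elements are not `0`).  For
injective `J : Fin (2 n + 1) → Fin q` and every `a : Fin M` NRM for the lines `ℓ ∘ J` and `ξ = Ξ a` gives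
`IE f A (e ∘ J) a`.  HUL: for `g i (ω, v) = log |ω (e i)|_v - log |ω₀ (e i)|_v` on the type of pairs
(`ω ∈ A`, `v`) the hypothesis of CVX holds.  CVX: `a, b, J` with `g (J j) = g a` or `g b`.  KRO: for every `j`
there is `c_j` with `f (e (J j)) = c_j f (e a)` on `A`, or `= c_j f (e b)` on `A`.
*`n = 1`*: `J` has three elements, so for two `j ≠ j'` the same case holds and `f (e (J j)) = c f (e (J j'))` on
`A` (`c_j' ≠ 0`).  `L = ℓ (J j) - c • ℓ (J j') ≠ 0`.  For `finrank k K = 1` the norm is injective and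
`N (algebraMap c * z) = c N z`, so `evalForm L x = 0` for every admissible `(K, x)` with `nv Ξ x ∈ A`: `A` is
small, a contradiction.
*`n ≥ 2`*: GRW (`s = e a`, `t = e b`, `J` there is `e ∘ J`) gives linear growth, CRW with
`T ω v = ∑_i vl v (e i) ω`, `c₀ = 3 n / 2`, `ε = 1/2` (LOB) a small set off which
`∑_{v ∈ S'} ∑_i vl v (e i) ω ≤ (3 n + 1/2) ht ω + C`.  By UBD the left side is at least `q ht ω - C`.  As
`q ≥ 3 n + 1`: `ht ω ≤ C'` off a small set, so `A` is small, a contradiction. -/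
def SpecABS : Prop := ∀ (k : Type) [Field k] [NumberField k] (q M : ℕ) (ℓ : Fin q → Fin 3 → k)
  (Ξ : Fin M → Fin 3 → k) (e : Fin q → Fin M), Cfg ℓ Ξ e → ∀ n : ℕ, 1 ≤ n → 3 * n + 1 ≤ q →
  ∀ S' : Finset (Place k), ∃ (Z : Finset (Fin 3 → k)) (C' : ℝ), (∀ L ∈ Z, L ≠ 0) ∧
    ∀ (K : Type) [Field K] [NumberField K] [Algebra k K] (x : Fin 3 → K), Module.finrank k K = n →
      (∀ a, evalForm (Ξ a) x ≠ 0) →
      (∀ v ∉ S', ∀ i j : Fin q, absV v (Algebra.norm k (evalForm (ℓ i) x)) =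
        absV v (Algebra.norm k (evalForm (ℓ j) x))) →
      (∀ L ∈ Z, evalForm L x ≠ 0) → ht (nv Ξ x) ≤ C'

/-- FNI (180 lines).  USES LNX, NCF, UNT, HTX, ABS.  THEOREM I: integral points.

PROOF.  `δ = 0` is vacuous (`finrank k K ≥ 1`).  LNX: `M, Ξ, e`.  UNT with `C₀ = C`: `S'`.  For every
`n ∈ {1, …, δ}` ABS and HTX with `S'`: `Z_n, C'_n, C_n`.  `Z` = the union of the `Z_n` and of the set of the `Ξ a`;
let `x` be off `Z`, `n = finrank k K`.  For `v ∉ S'` (a finite place) and `w` above `v` all `|ℓ_i(x)|_w` are equal to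
`‖x‖_w` (`mu = 0`), so by NCF all `|N (ℓ_i x)|_v` are equal.  ABS: `ht (nv Ξ x) ≤ C'_n`; HTX:
`height x ≤ (C'_n + C_n) / n`. -/
def SpecFNI : Prop := ∀ (k : Type) [Field k] [NumberField k] (S : Finset (Place k)) (q δ : ℕ)
  (ℓ : Fin q → Fin 3 → k), GP ℓ → 3 * δ + 1 ≤ q → ∀ C : ℝ,
  ∃ (Z : Finset (Fin 3 → k)) (C' : ℝ), (∀ L ∈ Z, L ≠ 0) ∧
    ∀ (K : Type) [Field K] [NumberField K] [Algebra k K] (x : Fin 3 → K), Module.finrank k K ≤ δ →
      x ≠ 0 → (∀ L ∈ Z, evalForm L x ≠ 0) → q * height x - C ≤ proximity S ℓ x → height x ≤ C'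

/-- FAM (180 lines).  USES MAX, CRW, LOB.

PROOF.  `Ω = Fin M → k`, `f = id`, `V` = the set of the `nv Ξ x` with `finrank k K = n` and all `evalForm (Ξ a) x ≠ 0`.
`Sm B'`: there is `C'` with `∑_{v ∈ S} ∑_i vl v (e i) f ≤ (3 n + ε) ht f + C'` for all `f ∈ B' ∩ B ∩ V`.
`SmSys Sm` (`SmSys` needs only the maximum of two constants).  Suppose that `univ` is not small: MAX, and
`A = A' ∩ B ∩ V` with `Gen` as in ABS.  `FS id A m` is a quotient of `FS id B m` (restriction of functions), so it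
has linear growth.  CRW with `T ω v = ∑_i vl v (e i) ω`, `c₀ = 3 n / 2` and LOB: the inequality holds off a small
set, so `A` is small, a contradiction. -/
def SpecFAM : Prop := ∀ (k : Type) [Field k] [NumberField k] (q M : ℕ) (ℓ : Fin q → Fin 3 → k)
  (Ξ : Fin M → Fin 3 → k) (e : Fin q → Fin M), Cfg ℓ Ξ e → ∀ n : ℕ, 2 ≤ n → 2 * n + 1 ≤ q →
  ∀ (S : Finset (Place k)) (B : Set (Fin M → k)),
  (∃ D : ℝ, ∀ m : ℕ, 0 < m → (Module.finrank k (FS (fun f : Fin M → k => f) B m) : ℝ) ≤ D * m) →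
  ∀ ε : ℝ, 0 < ε → ∃ C' : ℝ, ∀ (K : Type) [Field K] [NumberField K] [Algebra k K] (x : Fin 3 → K),
    Module.finrank k K = n → (∀ a, evalForm (Ξ a) x ≠ 0) → nv Ξ x ∈ B →
    ∑ v ∈ S, ∑ i, vl v (e i) (nv Ξ x) ≤ (3 * n + ε) * ht (nv Ξ x) + C'

/-- FNF (120 lines).  USES LNX, TRI (`SS.SpecTRI`), PRX, FAM.  THEOREM F: one-parameter families.

PROOF.  LNX: `M, Ξ, e`.  `Z` = the set of the `Ξ a`.  If `q ≤ 2 n`: TRI.  Otherwise FAM (with `ε`) and PRX:
`n m_{D,S} ≤ (3 n + ε) ht (nv Ξ x) + C ≤ (3 n + ε) n h + C'`; divide by `n`. -/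
def SpecFNF : Prop := ∀ (k : Type) [Field k] [NumberField k] (q : ℕ) (ℓ : Fin q → Fin 3 → k),
  3 ≤ q → GP ℓ → ∃ (M : ℕ) (Ξ : Fin M → Fin 3 → k), (∀ a, Ξ a ≠ 0) ∧
  ∀ (n : ℕ), 2 ≤ n → ∀ (S : Finset (Place k)) (B : Set (Fin M → k)),
  (∃ D : ℝ, ∀ m : ℕ, 0 < m → (Module.finrank k (FS (fun f : Fin M → k => f) B m) : ℝ) ≤ D * m) →
  ∀ ε : ℝ, 0 < ε → ∃ C : ℝ, ∀ (K : Type) [Field K] [NumberField K] [Algebra k K] (x : Fin 3 → K),
    Module.finrank k K = n → (∀ a, evalForm (Ξ a) x ≠ 0) → nv Ξ x ∈ B →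
    proximity S ℓ x ≤ (3 * n + ε) * height x + C

end Pool.Agent.Lib.MP_d0e829_nt.SI
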